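import Pool.Agent.X324.CG.Loo

/-!
# The action of automorphisms of the Cox ring on the classes
-/

set_option autoImplicit false
set_option linter.unusedSectionVars false

namespace Pool.Agent.X324.CG

open Finset Filter Topology
open Pool.Agent.X324.CF
open Pool.Agent.Y167 (cone cone_add cone_smul cone_le cone_mono cone_sum mem_cone_self
  zero_mem_cone cone_image cone_ind cone_of_scaled mem_cone_of_sum Cp CData)

variable {ρ : ℕ}

theorem real_eq (β : Cl ρ) : real β = rv β := rfl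

theorem cl_single (β : Cl ρ) : β = ∑ k, β k • (Pi.single k 1 : Cl ρ) := by
  funext l
  rw [Finset.sum_apply, Finset.sum_eq_single l]
  · simp
  · intro b _ hb
    simp [Pi.single_eq_of_ne (Ne.symm hb)]
  · intro h
    exact absurd (Finset.mem_univ _) h

theorem ext_rv (σ : Cl ρ ≃+ Cl ρ) (β : Cl ρ) : ext σ (rv β) = rv (σ β) := by
  conv_rhs => rw [cl_single β, map_sum]
  rw [rv_sum]
  change ∑ k, rv β k • rv (σ (Pi.single k 1)) = _
  refine Finset.sum_congr rfl fun k _ => ?_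
  rw [map_zsmul, rv_zsmul]
  rfl

theorem ext_unique {f g : (Fin ρ → ℝ) →ₗ[ℝ] (Fin ρ → ℝ)} (h : ∀ β : Cl ρ, f (rv β) = g (rv β)) :
    f = g := by
  refine LinearMap.pi_ext' fun k => ?_
  refine LinearMap.ext fun c => ?_
  have h1 := h (Pi.single k 1)
  have h2 : rv (Pi.single k 1 : Cl ρ) = (Pi.single k 1 : Fin ρ → ℝ) := by
    funext l
    by_cases hl : l = k
    · subst hl
      simp [rv]
    · simp [rv, Pi.single_eq_of_ne hl]
  rw [h2] at h1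
  have h3 : (LinearMap.single ℝ (fun _ : Fin ρ => ℝ) k) c = c • (Pi.single k 1 : Fin ρ → ℝ) := by
    funext l
    by_cases hl : l = k
    · subst hl
      simp
    · simp [Pi.single_eq_of_ne hl]
  rw [LinearMap.comp_apply, LinearMap.comp_apply, h3, map_smul, map_smul, h1]

theorem ext_refl (b : Fin ρ → ℝ) : ext (AddEquiv.refl (Cl ρ)) b = b := by
  have h : ext (AddEquiv.refl (Cl ρ)) = LinearMap.id := ext_unique fun β => by
    rw [ext_rv]; rfl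
  rw [h]
  rfl

theorem ext_trans (σ τ : Cl ρ ≃+ Cl ρ) (b : Fin ρ → ℝ) :
    ext (σ.trans τ) b = ext τ (ext σ b) := by
  have h : ext (σ.trans τ) = ext τ ∘ₗ ext σ := ext_unique fun β => by
    rw [LinearMap.comp_apply, ext_rv, ext_rv, ext_rv]; rfl
  rw [h]
  rfl

theorem ext_symm (σ : Cl ρ ≃+ Cl ρ) (b : Fin ρ → ℝ) : ext σ.symm (ext σ b) = b := by
  rw [← ext_trans, AddEquiv.self_trans_symm, ext_refl]

theorem ext_symm' (σ : Cl ρ ≃+ Cl ρ) (b : Fin ρ → ℝ) : ext σ (ext σ.symm b) = b := by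
  rw [← ext_trans, AddEquiv.symm_trans_self, ext_refl]

theorem ext_cont (σ : Cl ρ ≃+ Cl ρ) : Continuous (ext σ) :=
  LinearMap.continuous_of_finiteDimensional _

/-- The linear automorphism given by `σ`. -/
noncomputable def extE (σ : Cl ρ ≃+ Cl ρ) : (Fin ρ → ℝ) ≃ₗ[ℝ] (Fin ρ → ℝ) :=
  { ext σ with
    invFun := ext σ.symm
    left_inv := ext_symm σ
    right_inv := ext_symm' σ }

theorem extE_apply (σ : Cl ρ ≃+ Cl ρ) (b : Fin ρ → ℝ) : extE σ b = ext σ b := rfl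

variable {R : Type*} [CommRing R] [Algebra ℂ R] {𝒜 : Cl ρ → Submodule ℂ R}

theorem ind_mul {φ ψ : R ≃ₐ[ℂ] R} {σ τ : Cl ρ ≃+ Cl ρ} (h : Induces 𝒜 φ σ)
    (h' : Induces 𝒜 ψ τ) : Induces 𝒜 (φ * ψ) (τ.trans σ) :=
  fun β r hr => h _ _ (h' β r hr)

theorem ind_one : Induces 𝒜 (1 : R ≃ₐ[ℂ] R) (AddEquiv.refl (Cl ρ)) := fun _ _ hr => hr

theorem ind_scal {φ : R ≃ₐ[ℂ] R} (h : φ ∈ Scal 𝒜) : Induces 𝒜 φ (AddEquiv.refl (Cl ρ)) := by
  intro β r hr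
  obtain ⟨c, hc⟩ := h β
  rw [hc r hr]
  exact (𝒜 β).smul_mem c hr

theorem decompose_map [GradedAlgebra 𝒜] {φ : R ≃ₐ[ℂ] R} {σ : Cl ρ ≃+ Cl ρ} (h : Induces 𝒜 φ σ)
    (s : R) (i : Cl ρ) : ((DirectSum.decompose 𝒜 (φ s) (σ i) : 𝒜 (σ i)) : R)
      = φ ((DirectSum.decompose 𝒜 s i : 𝒜 i) : R) := by
  classical
  refine DirectSum.Decomposition.inductionOn 𝒜 ?_ ?_ ?_ s
  · simp
  · intro k m
    by_cases hk : k = i
    · subst hk
      rw [DirectSum.decompose_of_mem_same 𝒜 (h k m.1 m.2), DirectSum.decompose_of_mem_same 𝒜 m.2]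
    · rw [DirectSum.decompose_of_mem_ne 𝒜 (h k m.1 m.2) (fun h => hk (σ.injective h)),
        DirectSum.decompose_of_mem_ne 𝒜 m.2 hk, map_zero]
  · intro a b ha hb
    rw [map_add, DirectSum.decompose_add, DirectSum.decompose_add, DirectSum.add_apply,
      DirectSum.add_apply, Submodule.coe_add, Submodule.coe_add, ha, hb, map_add]

theorem ind_inv [GradedAlgebra 𝒜] {φ : R ≃ₐ[ℂ] R} {σ : Cl ρ ≃+ Cl ρ} (h : Induces 𝒜 φ σ) :
    Induces 𝒜 φ⁻¹ σ.symm := by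
  intro β r hr
  have h1 := decompose_map h (φ.symm r) (σ.symm β)
  rw [σ.apply_symm_apply, φ.apply_symm_apply, DirectSum.decompose_of_mem_same 𝒜 hr] at h1
  have h2 : φ⁻¹ r = ((DirectSum.decompose 𝒜 (φ.symm r) (σ.symm β) : 𝒜 (σ.symm β)) : R) := by
    apply φ.injective
    rw [← h1]
    exact φ.apply_symm_apply r
  rw [h2]
  exact SetLike.coe_mem _

theorem ind_unique [GradedAlgebra 𝒜]
    (gens : ∀ H : AddSubgroup (Cl ρ), (∀ β, (∃ r ∈ 𝒜 β, r ≠ 0) → β ∈ H) → H = ⊤)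
    {φ : R ≃ₐ[ℂ] R} {σ τ : Cl ρ ≃+ Cl ρ} (h : Induces 𝒜 φ σ) (h' : Induces 𝒜 φ τ) : σ = τ := by
  classical
  have h1 : AddMonoidHom.eqLocus (σ : Cl ρ →+ Cl ρ) (τ : Cl ρ →+ Cl ρ) = ⊤ := by
    refine gens _ ?_
    rintro β ⟨r, hr, hr0⟩
    change σ β = τ β
    by_contra hne
    have h2 := h β r hr
    have h3 := h' β r hr
    have h4 := DirectSum.decompose_of_mem_same 𝒜 h2
    rw [DirectSum.decompose_of_mem_ne 𝒜 h3 (Ne.symm hne)] at h4
    exact hr0 ((map_eq_zero_iff φ φ.injective).1 h4.symm)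
  ext1 β
  have h2 : β ∈ AddMonoidHom.eqLocus (σ : Cl ρ →+ Cl ρ) (τ : Cl ρ →+ Cl ρ) := by rw [h1]; trivial
  exact h2

/-- The group of linear maps given by the automorphisms in `𝒮`. -/
def grpF [GradedAlgebra 𝒜] (𝒮 : Subgroup (R ≃ₐ[ℂ] R)) :
    Subgroup ((Fin ρ → ℝ) ≃ₗ[ℝ] (Fin ρ → ℝ)) where
  carrier := {g | ∃ φ ∈ 𝒮, ∃ σ, Induces 𝒜 φ σ ∧ g = extE σ}
  one_mem' := ⟨1, 𝒮.one_mem, _, ind_one, by
    ext1 b
    exact (ext_refl b).symm⟩
  mul_mem' := by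
    rintro _ _ ⟨φ, hφ, σ, hσ, rfl⟩ ⟨ψ, hψ, τ, hτ, rfl⟩
    refine ⟨φ * ψ, 𝒮.mul_mem hφ hψ, _, ind_mul hσ hτ, ?_⟩
    ext1 b
    exact (ext_trans τ σ b).symm
  inv_mem' := by
    rintro _ ⟨φ, hφ, σ, hσ, rfl⟩
    refine ⟨φ⁻¹, 𝒮.inv_mem hφ, _, ind_inv hσ, ?_⟩
    ext1 b
    rfl

end Pool.Agent.X324.CG
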