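import Pool.Agent.X324.CG.Defs
import Pool.Agent.X324.CF.Dom2

/-!
# Convex cones in finite-dimensional spaces
-/

set_option autoImplicit false

namespace Pool.Agent.X324.CG

open Finset Filter Topology
open Pool.Agent.X324.CF
open Pool.Agent.Y167 (cone cone_add cone_smul cone_le cone_mono cone_sum mem_cone_self
  zero_mem_cone cone_image cone_ind cone_of_scaled mem_cone_of_sum Cp CData)

section Closure

variable {W : Type*} [AddCommGroup W] [Module ℝ W] [TopologicalSpace W] [IsTopologicalAddGroup W]
  [ContinuousSMul ℝ W] {P Q : Set W}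

theorem cl_mem {a : W} (h : a ∈ P) : a ∈ closure (coneHull P) := subset_closure (hull_mem h)

theorem cl_zero : (0 : W) ∈ closure (coneHull P) := subset_closure hull_zero

theorem cl_add {a b : W} (ha : a ∈ closure (coneHull P)) (hb : b ∈ closure (coneHull P)) :
    a + b ∈ closure (coneHull P) :=
  map_mem_closure₂ continuous_add ha hb fun _ h1 _ h2 => hull_add h1 h2

theorem cl_smul {a : W} {t : ℝ} (ht : 0 ≤ t) (ha : a ∈ closure (coneHull P)) :
    t • a ∈ closure (coneHull P) :=
  map_mem_closure (continuous_const_smul t) ha fun _ h => hull_smul ht h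

theorem cl_hull (h : P ⊆ closure (coneHull Q)) : coneHull P ⊆ closure (coneHull Q) :=
  fun _ hx => hull_ind (p := fun x => x ∈ closure (coneHull Q)) cl_zero
    (fun _ _ h1 h2 => cl_add h1 h2) (fun _ _ ht h => cl_smul ht h) (fun a ha => h ha) hx

theorem cl_le (h : P ⊆ closure (coneHull Q)) : closure (coneHull P) ⊆ closure (coneHull Q) :=
  closure_minimal (cl_hull h) isClosed_closure

/-- Linear images. -/
theorem cl_map (g : W →ₗ[ℝ] W) (hg : Continuous g) (h : ∀ a ∈ P, g a ∈ closure (coneHull Q)) {a : W}
    (ha : a ∈ closure (coneHull P)) : g a ∈ closure (coneHull Q) := by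
  have h1 : closure (coneHull P) ⊆ g ⁻¹' closure (coneHull Q) := by
    refine closure_minimal (fun x hx => ?_) (isClosed_closure.preimage hg)
    refine hull_ind (p := fun x => g x ∈ closure (coneHull Q)) ?_ ?_ ?_ h hx
    · rw [map_zero]; exact cl_zero
    · intro x y h1 h2
      rw [map_add]; exact cl_add h1 h2
    · intro t x ht h1
      rw [map_smul]; exact cl_smul ht h1
  exact h1 ha

/-- A limit of the elements `a + ε b`. -/
theorem closed_lim {C : Set W} (hC : IsClosed C) {a b : W}
    (h : ∀ ε : ℝ, 0 < ε → a + ε • b ∈ C) : a ∈ C := by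
  have h2 : Tendsto (fun k : ℕ => a + (1 / ((k : ℝ) + 1)) • b) atTop (𝓝 a) := by
    have h4 : Tendsto (fun k : ℕ => (1 / ((k : ℝ) + 1)) • b) atTop (𝓝 ((0 : ℝ) • b)) :=
      (tendsto_one_div_add_atTop_nhds_zero_nat (𝕜 := ℝ)).smul_const _
    rw [zero_smul] at h4
    have h5 := h4.const_add a
    rwa [add_zero] at h5
  exact hC.mem_of_tendsto h2 (Eventually.of_forall fun k => h _ (by positivity))

variable [FiniteDimensional ℝ W] [T2Space W]

/-- Interior points of the closure of a convex cone lie in the cone. -/
theorem hull_of_closure (U : Submodule ℝ W) (hP : P ⊆ U) {u b : W} {t : ℝ} (ht : 0 < t)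
    (habs : ∀ x ∈ U, ∃ C : ℝ, 0 < C ∧ C • u - x ∈ coneHull P)
    (hb : b - t • u ∈ closure (coneHull P)) : b ∈ coneHull P := by
  classical
  have hHU : ∀ x ∈ coneHull P, x ∈ U := fun x hx =>
    hull_ind (p := fun x => x ∈ U) U.zero_mem (fun _ _ h1 h2 => U.add_mem h1 h2)
      (fun _ _ _ h => U.smul_mem _ h) (fun a ha => hP ha) hx
  have hbU : b - t • u ∈ U := by
    have h1 : IsClosed (U : Set W) := U.closed_of_finiteDimensional
    exact (closure_minimal hHU h1) hb
  obtain ⟨C₀, hC₀, hu₀⟩ := habs 0 U.zero_mem
  rw [sub_zero] at hu₀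
  have huH : u ∈ coneHull P := by
    have h1 := hull_smul (inv_nonneg.2 hC₀.le) hu₀
    rwa [smul_smul, inv_mul_cancel₀ hC₀.ne', one_smul] at h1
  let B := Module.finBasis ℝ U
  choose! C hC hCH using habs
  obtain ⟨pr, hpr⟩ := LinearMap.exists_leftInverse_of_injective U.subtype
    (LinearMap.ker_eq_bot.2 U.injective_subtype)
  have hprU : ∀ x : U, pr x = x := fun x => LinearMap.congr_fun hpr x
  let K : ℝ := 1
  let N : W → ℝ := fun y => ∑ i, |B.repr (pr y) i| * (C (B i : W) + C (-(B i : W)))
  have hNc : Continuous N := by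
    refine continuous_finset_sum _ fun i _ => Continuous.mul ?_ continuous_const
    refine Continuous.abs ?_
    have h1 : (fun y => B.repr (pr y) i) = (B.coord i ∘ₗ pr : W →ₗ[ℝ] ℝ) := rfl
    rw [h1]
    exact LinearMap.continuous_of_finiteDimensional _
  have hN0 : N 0 = 0 := by simp [N]
  -- points near zero
  have hnear : ∀ e ∈ U, N e < t → t • u - e ∈ coneHull P := by
    intro e he hNe
    have h1 : ∀ i, (|B.repr (pr e) i| * (C (B i : W) + C (-(B i : W)))) • u
        - B.repr (pr e) i • (B i : W) ∈ coneHull P := by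
      intro i
      have p1 := hC (B i : W) (B i).2
      have p2 := hC (-(B i : W)) (U.neg_mem (B i).2)
      rcases le_total 0 (B.repr (pr e) i) with h | h
      · have h2 := hull_add (hull_smul h (hCH (B i : W) (B i).2))
          (hull_smul (mul_nonneg h p2.le) huH)
        have h3 : B.repr (pr e) i • (C (B i : W) • u - (B i : W))
            + (B.repr (pr e) i * C (-(B i : W))) • u
            = (|B.repr (pr e) i| * (C (B i : W) + C (-(B i : W)))) • u
              - B.repr (pr e) i • (B i : W) := by
          rw [abs_of_nonneg h]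
          module
        rwa [h3] at h2
      · have h2 := hull_add (hull_smul (neg_nonneg.2 h) (hCH (-(B i : W)) (U.neg_mem (B i).2)))
          (hull_smul (mul_nonneg (neg_nonneg.2 h) p1.le) huH)
        have h3 : (-B.repr (pr e) i) • (C (-(B i : W)) • u - -(B i : W))
            + (-B.repr (pr e) i * C (B i : W)) • u
            = (|B.repr (pr e) i| * (C (B i : W) + C (-(B i : W)))) • u
              - B.repr (pr e) i • (B i : W) := by
          rw [abs_of_nonpos h]
          module
        rwa [h3] at h2
    have h2 : ∀ s : Finset _, (∑ i ∈ s, |B.repr (pr e) i| * (C (B i : W) + C (-(B i : W)))) • u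
        - ∑ i ∈ s, B.repr (pr e) i • (B i : W) ∈ coneHull P := by
      intro s
      induction s using Finset.induction_on with
      | empty => simpa using hull_zero
      | insert k s hk ih =>
        rw [Finset.sum_insert hk, Finset.sum_insert hk, add_smul, add_sub_add_comm]
        exact hull_add (h1 k) ih
    have h3 := h2 Finset.univ
    have h4 : ∑ i, B.repr (pr e) i • (B i : W) = e := by
      have h5 : pr e = ⟨e, he⟩ := hprU ⟨e, he⟩
      have h6 := B.sum_repr (pr e)
      have h7 := congrArg (U.subtype) h6
      rw [map_sum] at h7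
      rw [h5] at h7 ⊢
      exact h7
    rw [h4] at h3
    have h5 := hull_add (hull_smul (sub_nonneg.2 hNe.le) huH) h3
    have h6 : (t - N e) • u + ((∑ i, |B.repr (pr e) i| * (C (B i : W) + C (-(B i : W)))) • u - e)
        = t • u - e := by
      change (t - N e) • u + (N e • u - e) = _
      module
    rwa [h6] at h5
  have hopen : IsOpen {y : W | N (y - (b - t • u)) < t} :=
    isOpen_lt (hNc.comp (continuous_id.sub continuous_const)) continuous_const
  obtain ⟨h, hh1, hh2⟩ := mem_closure_iff.1 hb _ hopen (by
    change N ((b - t • u) - (b - t • u)) < t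
    rw [sub_self, hN0]
    exact ht)
  have h1 := hnear (h - (b - t • u)) (U.sub_mem (hHU h hh2) hbU) hh1
  have h2 := hull_add hh2 h1
  have h3 : h + (t • u - (h - (b - t • u))) = b := by abel
  rwa [h3] at h2

end Closure

end Pool.Agent.X324.CG
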