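import Pool.Agent.X324.CG.Good

/-!
# The general theorem
-/

set_option autoImplicit false
set_option linter.unusedSectionVars false

namespace Pool.Agent.X324.CG

open Finset Filter Topology
open Pool.Agent.W594.SYZ2 Pool.Agent.W594.SYZ2.TQ Pool.Agent.TH735.AQ
open Pool.Agent.X324.CF
open Pool.Agent.Y167 (cone cone_add cone_smul cone_le cone_mono cone_sum mem_cone_self
  zero_mem_cone cone_image cone_ind cone_of_scaled mem_cone_of_sum Rel Pol Cp CData IsFace)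
open Pool.Agent.Y167.CC (LinGrp Preserves IsFundDomain)

variable {V E R : Type*} [NormedAddCommGroup V] [NormedSpace ℂ V] [FiniteDimensional ℂ V]
  [NormedAddCommGroup E] [NormedSpace ℂ E] [FiniteDimensional ℂ E] [CommRing R] [IsDomain R]
  [Algebra ℂ R] {ρ : ℕ}
  {𝒜 : Cl ρ → Submodule ℂ R} [GradedAlgebra 𝒜] {Γ : Grp V R}
  {u : Cl ρ} {j : E →ₗ[ℂ] V} {H₀ : V → V → ℂ} {𝒬 : Set (Cl ρ)} {𝒮 : Subgroup (R ≃ₐ[ℂ] R)}
  {d : Fin ρ → ℤ}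

/-- The restriction of the action of `σ` to the space of invariant classes. -/
noncomputable def resB (σ : Cl ρ ≃+ Cl ρ) (h1 : ∀ β, Inv 𝒜 Γ β → Inv 𝒜 Γ (σ β))
    (h2 : ∀ β, Inv 𝒜 Γ β → Inv 𝒜 Γ (σ.symm β)) : Bs 𝒜 Γ ≃ₗ[ℝ] Bs 𝒜 Γ :=
  have key : ∀ τ : Cl ρ ≃+ Cl ρ, (∀ β, Inv 𝒜 Γ β → Inv 𝒜 Γ (τ β)) →
      ∀ b ∈ Bs 𝒜 Γ, ext τ b ∈ Bs 𝒜 Γ := by
    intro τ hτ b hb
    induction hb using Submodule.span_induction with
    | mem b hb =>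
      obtain ⟨β, hβ, rfl⟩ := hb
      rw [ext_rv]
      exact Submodule.subset_span ⟨_, hτ β hβ, rfl⟩
    | zero => rw [map_zero]; exact Submodule.zero_mem _
    | add x y _ _ hx hy => rw [map_add]; exact Submodule.add_mem _ hx hy
    | smul c x _ hx => rw [map_smul]; exact Submodule.smul_mem _ c hx
  { toFun := fun b => ⟨ext σ b.1, key σ h1 b.1 b.2⟩
    map_add' := fun b c => Subtype.ext (map_add (ext σ) b.1 c.1)
    map_smul' := fun t b => Subtype.ext (map_smul (ext σ) t b.1)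
    invFun := fun b => ⟨ext σ.symm b.1, key σ.symm h2 b.1 b.2⟩
    left_inv := fun b => Subtype.ext (ext_symm σ b.1)
    right_inv := fun b => Subtype.ext (ext_symm' σ b.1) }

theorem resB_apply (σ : Cl ρ ≃+ Cl ρ) (h1 : ∀ β, Inv 𝒜 Γ β → Inv 𝒜 Γ (σ β))
    (h2 : ∀ β, Inv 𝒜 Γ β → Inv 𝒜 Γ (σ.symm β)) (b : Bs 𝒜 Γ) :
    (resB σ h1 h2 b).1 = ext σ b.1 := rfl

/-- The automorphism of the space of classes which acts on the degree. -/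
theorem exists_degact (D : Base 𝒜 (Fin.elim0 : Fin 0 → Cl ρ)) (hQ : IsQuotient 𝒜 u Γ)
    (σ : Cl ρ ≃+ Cl ρ) (h1 : ∀ β, Inv 𝒜 Γ β → Inv 𝒜 Γ (σ β))
    (h2 : ∀ β, Inv 𝒜 Γ β → Inv 𝒜 Γ (σ.symm β)) : ∃ G : N1 𝒜 Γ j ≃ₗ[ℝ] N1 𝒜 Γ j,
      ∀ a, (val (G a)).1 = (val a).1 ∧ (val (G a)).2 = ext σ (val a).2 := by
  let G : N1 𝒜 Γ j ≃ₗ[ℝ] N1 𝒜 Γ j := ((eqv D hQ).trans
    (LinearEquiv.prodCongr (LinearEquiv.refl ℝ (Pool.Agent.Y167.N1 (base Γ) j))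
      (resB σ h1 h2))).trans (eqv D hQ).symm
  have hG : ∀ a, G a = i1 (p1 hQ a) + i2 D hQ (resB σ h1 h2 (p2 a)) := fun a => rfl
  refine ⟨G, fun a => ⟨?_, ?_⟩⟩
  · rw [hG]
    change (val a).1 + 0 = _
    rw [add_zero]
  · rw [hG]
    change (0 : Fin ρ → ℝ) + ext σ (val a).2 = _
    rw [zero_add]

/-- Limits of values of a real function. -/
theorem lim_nonneg (A B : ℝ) (h : ∀ ε : ℝ, 0 < ε → 0 ≤ A + ε * B) : 0 ≤ A := by
  by_contra hcon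
  push Not at hcon
  have h2 := h (-A / (2 * (|B| + 1))) (by
    have : 0 ≤ |B| := abs_nonneg B
    exact div_pos (by linarith) (by linarith))
  have h3 : B ≤ |B| := le_abs_self B
  have h4 : (0 : ℝ) < 2 * (|B| + 1) := by positivity
  have h5 : -A / (2 * (|B| + 1)) * B ≤ -A / 2 := by
    rw [div_mul_eq_mul_div, div_le_div_iff₀ h4 (by norm_num)]
    nlinarith
  linarith

/-- **The cone conjecture for `(A × F) / G`**, general form. -/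
theorem core2 (D : Sys 𝒜 u 𝒬 𝒮 d) (hQ : IsQuotient 𝒜 u Γ) (hF : PlusF 𝒜 Γ 𝒬)
    (Rl : Rel (base Γ) j H₀) {P : Set (N1 𝒜 Γ j)} (hP : Good2 𝒬 P)
    {𝒞 : Set (R ≃ₐ[ℂ] R)} {SF : Finset (Fin ρ → ℝ)}
    (hSF : ∀ s ∈ SF, s ∈ KQ 𝒬 (LG 𝒜 Γ) ∧ ∃ β, Inv 𝒜 Γ β ∧ s = rv β)
    (hcovF : ∀ b, (∃ t : ℝ, 0 < t ∧ b - t • rv u ∈ KQ 𝒬 (LG 𝒜 Γ)) → ∃ φ ∈ 𝒞, ∃ σ,
      Induces 𝒜 φ σ ∧ (∀ β, Inv 𝒜 Γ β → Inv 𝒜 Γ (σ β)) ∧
        (∀ β, Inv 𝒜 Γ β → Inv 𝒜 Γ (σ.symm β)) ∧ ext σ b ∈ cone SF)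
    (Fx : (V ≃ᵃ[ℂ] V) → Prop)
    (hFx : ∀ (m : ℕ) (g : E ≃ₗ[ℂ] E), Pol.IsGood (Pool.Agent.Y167.lattE (base Γ) j)
      (Pool.Agent.Y167.opE (base Γ) j) m g → ∀ f : V ≃ᵃ[ℂ] V,
        (∀ v, ∃ e, f v = v + j (g e - e)) → Fx f)
    (𝒢 : LinGrp (N1 𝒜 Γ j)) (hint : Preserves 𝒢 (integral 𝒜 Γ j))
    (hcone : Preserves 𝒢 (closure (coneHull P) ∩ effCone 𝒜 Γ j))
    (haut : ∀ f : V ≃ᵃ[ℂ] V, Normalizes Γ f → (∀ v, ∃ e, f v = v + j e) → Fx f →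
      ∀ g : N1 𝒜 Γ j ≃ₗ[ℝ] N1 𝒜 Γ j, IsPullback f g → g ∈ 𝒢)
    (hautF : ∀ φ ∈ 𝒞, ∀ σ, Induces 𝒜 φ σ → ∀ g : N1 𝒜 Γ j ≃ₗ[ℝ] N1 𝒜 Γ j,
      (∀ x, (val (g x)).1 = (val x).1 ∧ ext σ (val (g x)).2 = (val x).2) → g ∈ 𝒢) :
    ∃ S : Finset (N1 𝒜 Γ j), ↑S ⊆ integral 𝒜 Γ j ∧
      cone S ⊆ closure (coneHull P) ∩ effCone 𝒜 Γ j ∧
      IsFundDomain 𝒢 (closure (coneHull P) ∩ effCone 𝒜 Γ j) (cone S) := by
  classical
  have hcp := cp_eq2 D hQ hF Rl hP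
  have hexp := expo_pos hQ
  have hexpr : (0 : ℝ) < expo Γ := by exact_mod_cast hexp
  have := hQ.fin_gal
  have hcard : 0 < Nat.card (gal Γ) := Nat.card_pos
  have hcardr : (0 : ℝ) < Nat.card (gal Γ) := by exact_mod_cast hcard
  have hu0 : u ∈ LG 𝒜 Γ := hQ.inv
  -- the data for the form
  let M1 : AddSubgroup (Pool.Agent.Y167.N1 (base Γ) j) :=
    { carrier := {a | Pool.Agent.Y167.Integral ((expo Γ : ℝ) • a)}
      add_mem' := fun {a b} ha hb => by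
        change Pool.Agent.Y167.Integral ((expo Γ : ℝ) • (a + b))
        rw [smul_add]
        exact ha.add hb
      zero_mem' := by
        change Pool.Agent.Y167.Integral ((expo Γ : ℝ) • 0)
        rw [smul_zero]
        exact Pool.Agent.Y167.Integral.zero
      neg_mem' := fun {a} ha => by
        change Pool.Agent.Y167.Integral ((expo Γ : ℝ) • (-a))
        rw [smul_neg]
        exact ha.neg }
  have hnat : ∀ (k : ℕ) (a : Pool.Agent.Y167.N1 (base Γ) j), Pool.Agent.Y167.Integral a →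
      Pool.Agent.Y167.Integral ((k : ℝ) • a) := by
    intro k a ha
    have h1 := (Pool.Agent.Y167.intL (base Γ) j).nsmul_mem ha k
    rw [← Nat.cast_smul_eq_nsmul ℝ] at h1
    exact h1
  obtain ⟨ξ1, y1, Y1, D1, hy1⟩ := Pool.Agent.Y167.exists_cdata Rl M1 hexp
    (fun a ha => hnat _ _ (hnat _ _ ha)) (fun a ha => ha)
  set y2 : Bs 𝒜 Γ := ⟨rv u, Submodule.subset_span ⟨u, hQ.inv, rfl⟩⟩ with hy2
  obtain ⟨Y2, D2⟩ := D.cdata (Λ := LG 𝒜 Γ) hu0 (Bs 𝒜 Γ).subtype (Bs 𝒜 Γ).injective_subtype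
    (fun x => x.2) (L := L2 𝒜 Γ) (fun x hx => by
      obtain ⟨β, -, h1⟩ := hx
      exact ⟨β, h1⟩) span_L2 (y₀ := y2) ⟨u, hQ.inv, rfl⟩ rfl
  have hk : 0 < expo Γ * Nat.card (gal Γ) := Nat.mul_pos hexp hcard
  have hnatI : ∀ (k : ℕ) (a : N1 𝒜 Γ j), a ∈ integral 𝒜 Γ j → (k : ℝ) • a ∈ integral 𝒜 Γ j := by
    intro k a ha
    have h1 := (intL 𝒜 Γ j).nsmul_mem ha k
    rw [← Nat.cast_smul_eq_nsmul ℝ] at h1
    exact h1
  obtain ⟨ξ₀, Y, DD⟩ := cdata_prod (L := intL 𝒜 Γ j) D1 D2 (p1 hQ) p2 i1 (i2 D.base hQ)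
    (fun a => p1_i1 hQ a) (fun a => p2_i1 a) (fun b => p1_i2 D.base hQ b)
    (fun b => p2_i2 D.base hQ b)
    (fun a => split D.base hQ a) hk
    (fun a ha => Int.p1 hQ ha)
    (fun a ha => by
      obtain ⟨β, hβ, h1⟩ := Int.p2 ha
      exact ⟨β, hβ, h1⟩)
    (fun a ha => by
      have h1 : ((expo Γ * Nat.card (gal Γ) : ℕ) : ℝ) • (i1 a : N1 𝒜 Γ j)
          = (Nat.card (gal Γ) : ℝ) • i1 ((expo Γ : ℝ) • a) := by
        rw [map_smul, smul_smul]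
        push_cast
        rw [mul_comm]
      rw [h1]
      exact hnatI _ _ (Int.i1 ha))
    (fun b hb => by
      obtain ⟨β, hβ, h2⟩ := hb
      have h1 : ((expo Γ * Nat.card (gal Γ) : ℕ) : ℝ) • (i2 D.base hQ b : N1 𝒜 Γ j)
          = (expo Γ : ℝ) • ((Nat.card (gal Γ) : ℝ) • i2 D.base hQ b) := by
        rw [smul_smul]
        push_cast
        rfl
      rw [h1]
      exact hnatI _ _ (Int.i2 D.base hQ hβ h2))
  have hset : {a : N1 𝒜 Γ j | p1 hQ a ∈ Pool.Agent.Y167.nefCone (base Γ) j ∧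
      p2 a ∈ {b : Bs 𝒜 Γ | (Bs 𝒜 Γ).subtype b ∈ KQ 𝒬 (LG 𝒜 Γ)}} = KK2 𝒜 Γ j 𝒬 := rfl
  rw [hset] at DD
  set y₀ : N1 𝒜 Γ j := ((expo Γ * Nat.card (gal Γ) : ℕ) : ℝ) • (i1 y1 + i2 D.base hQ y2) with hy₀
  have hkr : (0 : ℝ) < ((expo Γ * Nat.card (gal Γ) : ℕ) : ℝ) := by exact_mod_cast hk
  -- form and degree of the interior point
  set K₁ : ℝ := ((expo Γ * Nat.card (gal Γ) : ℕ) : ℝ) * expo Γ with hK₁
  have hK₁pos : 0 < K₁ := mul_pos hkr hexpr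
  have hyf : ∀ e, ((val y₀).1 e e).re = K₁ * (H₀ (j e) (j e)).re := by
    intro e
    have h1 : (val y₀).1 e e = ((expo Γ * Nat.card (gal Γ) : ℕ) : ℝ) • (y1.1 e e + 0) := rfl
    have e1 : (expo Γ : ℂ) = ((expo Γ : ℝ) : ℂ) := by push_cast; rfl
    rw [h1, add_zero, hy1, Complex.smul_re, e1, Complex.re_ofReal_mul, smul_eq_mul, hK₁]
    ring
  have hyd : (val y₀).2 = ((expo Γ * Nat.card (gal Γ) : ℕ) : ℝ) • rv u := by
    change ((expo Γ * Nat.card (gal Γ) : ℕ) : ℝ) • ((0 : Fin ρ → ℝ) + rv u) = _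
    rw [zero_add]
  have hform : ∀ (a b : N1 𝒜 Γ j) (t : ℝ) (e : E), ((val (a + t • b)).1 e e).re
      = ((val a).1 e e).re + t * ((val b).1 e e).re := by
    intro a b t e
    change ((val a).1 e e + t • (val b).1 e e).re = _
    rw [Complex.add_re, Complex.smul_re, smul_eq_mul]
  -- the interior
  have hint2 : ∀ a : N1 𝒜 Γ j, (∃ t : ℝ, 0 < t ∧ a - t • y₀ ∈ KK2 𝒜 Γ j 𝒬) →
      (∃ t : ℝ, 0 < t ∧ ∀ e, t * (H₀ (j e) (j e)).re ≤ ((val a).1 e e).re) ∧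
      ∃ t : ℝ, 0 < t ∧ (val a).2 - t • rv u ∈ KQ 𝒬 (LG 𝒜 Γ) := by
    rintro a ⟨t, ht, hat⟩
    refine ⟨⟨t * K₁, mul_pos ht hK₁pos, fun e => ?_⟩,
      t * ((expo Γ * Nat.card (gal Γ) : ℕ) : ℝ), mul_pos ht hkr, ?_⟩
    · have h1 := hat.1 e
      have h2 : a - t • y₀ = a + (-t) • y₀ := by rw [neg_smul, sub_eq_add_neg]
      rw [h2, hform, hyf] at h1
      linarith
    · have h1 := hat.2
      have h2 : (val (a - t • y₀)).2 = (val a).2 - t • (val y₀).2 := rfl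
      rw [h2, hyd, smul_smul] at h1
      exact h1
  have hAmem : ∀ a : N1 𝒜 Γ j, (∃ t : ℝ, 0 < t ∧ a - t • y₀ ∈ KK2 𝒜 Γ j 𝒬) →
      a ∈ closure (coneHull P) ∩ effCone 𝒜 Γ j := by
    intro a ha
    obtain ⟨⟨t, ht, h1⟩, t', ht', h2⟩ := hint2 a ha
    have h3 := interior_mem2 D hQ Rl hP ht h1 (D.interior hu0 ht' h2)
    exact ⟨subset_closure (hull_le (fun b hb => hull_mem hb.1) h3),
      hull_le (fun b hb => hull_mem hb.2) h3⟩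
  -- the group preserves the closed cone
  have hclos := closure_eq2 D hQ Rl hP
  have hGK : ∀ g ∈ 𝒢, ∀ a ∈ KK2 𝒜 Γ j 𝒬, g a ∈ KK2 𝒜 Γ j 𝒬 := by
    intro g hg a ha
    have h1 : ∀ ε : ℝ, 0 < ε → g a + ε • g y₀ ∈ KK2 𝒜 Γ j 𝒬 := by
      intro ε hε
      have h2 := hcone g hg _ (hAmem (a + ε • y₀) ⟨ε, hε, by rwa [add_sub_cancel_right]⟩)
      rw [map_add, map_smul, hclos] at h2
      exact h2.1
    refine ⟨fun e => ?_, ?_⟩
    · refine lim_nonneg _ ((val (g y₀)).1 e e).re fun ε hε => ?_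
      have h2 := (h1 ε hε).1 e
      rwa [hform] at h2
    · exact closed_lim isClosed_closure (b := (val (g y₀)).2) fun ε hε => (h1 ε hε).2
  -- the covering
  obtain ⟨dd, b, Pl⟩ := Rl.pol
  obtain ⟨F, hF', hFc⟩ := Pl.red
  obtain ⟨m₀, hm₀, hauts⟩ := exists_aut2 hQ Rl
  obtain ⟨𝓡, h𝓡f, h𝓡U, h𝓡⟩ := Pl.fin_idx (Pool.Agent.Y167.finite_opE Rl) (by
    rintro y ⟨γ, hγ, hx⟩ v hv
    change j (y v) ∈ latt (base Γ)
    rw [hx]
    exact latt_inv γ hγ hv) m₀ hm₀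
  have hcl : ∀ z r, z ∈ F → r ∈ 𝓡 → ∃ (a : Pool.Agent.Y167.N1 (base Γ) j) (m : ℕ), 0 < m ∧
      Pool.Agent.Y167.Integral a ∧ a ∈ Pool.Agent.Y167.nefCone (base Γ) j ∧
      ∀ v w, a.1 v w = m * z (r v) (r w) := by
    intro z r hz hr
    obtain ⟨hz1, hz2⟩ := hF' z hz
    have hrU := h𝓡U r hr
    have h1 : Pol.IsInt (Pool.Agent.Y167.lattE (base Γ) j) (Pool.Agent.Y167.opE (base Γ) j)
        (fun v w => z (r v) (r w)) := by
      refine ⟨⟨?_, ?_, ?_⟩, ?_, ?_⟩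
      · intro u v w
        rw [map_add, hz1.herm.add_left]
      · intro c v w
        rw [map_smul, hz1.herm.smul_left]
      · intro v w
        exact hz1.herm.symm _ _
      · intro g hg u w
        rw [hrU.comm g hg, hrU.comm g hg, hz1.inv g hg]
      · intro u hu w hw
        exact hz1.int _ (hrU.map u hu) _ (hrU.map w hw)
    obtain ⟨m, hm, L, H, hL, h2, -⟩ := Rl.exists_class h1 (fun v => hz2 (r v))
    obtain ⟨a, ha1, ha2⟩ := Pool.Agent.Y167.exists_int (j := j) (L := L)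
      (h := fun u w => H (j u) (j w)) ⟨H, hL, fun _ _ => rfl⟩
    refine ⟨a, m, hm, ha2, fun v => ?_, fun v w => ?_⟩
    · rw [ha1]
      change 0 ≤ (H (j v) (j v)).re
      rw [h2]
      have e1 : (m : ℂ) = ((m : ℝ) : ℂ) := by push_cast; rfl
      rw [e1, Complex.re_ofReal_mul]
      exact mul_nonneg (Nat.cast_nonneg _) (hz2 (r v))
    · rw [ha1]
      exact h2 v w
  choose! af mf hmf haf1 haf2 haf3 using hcl
  let iB : (Fin ρ → ℝ) → N1 𝒜 Γ j := fun s =>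
    if hs : s ∈ Bs 𝒜 Γ then (Nat.card (gal Γ) : ℝ) • i2 D.base hQ ⟨s, hs⟩ else 0
  have hiB : ∀ s, ∀ hs : s ∈ Bs 𝒜 Γ, iB s = (Nat.card (gal Γ) : ℝ) • i2 D.base hQ ⟨s, hs⟩ :=
    fun s hs => dif_pos hs
  have hSB : ∀ s ∈ SF, s ∈ Bs 𝒜 Γ := by
    intro s hs
    obtain ⟨-, β, hβ, h1⟩ := hSF s hs
    exact Submodule.subset_span ⟨β, hβ, h1⟩
  let F₂ : Finset (N1 𝒜 Γ j) := ((F ×ˢ h𝓡f.toFinset).image fun p => i1 (af p.1 p.2)) ∪ SF.image iB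
  have hF₂ : ∀ a ∈ F₂, a ∈ intL 𝒜 Γ j ∧ a ∈ KK2 𝒜 Γ j 𝒬 := by
    intro a ha
    rcases Finset.mem_union.1 ha with ha | ha
    · obtain ⟨p, hp, rfl⟩ := Finset.mem_image.1 ha
      rw [Finset.mem_product, h𝓡f.mem_toFinset] at hp
      exact ⟨Int.i1 (haf1 _ _ hp.1 hp.2), haf2 _ _ hp.1 hp.2, cl_zero⟩
    · obtain ⟨s, hs, rfl⟩ := Finset.mem_image.1 ha
      rw [hiB s (hSB s hs)]
      obtain ⟨h2, β, hβ, h1⟩ := hSF s hs
      refine ⟨Int.i2 D.base hQ hβ h1, KK2_smul hcardr.le ⟨fun e => le_refl (0 : ℝ), h2⟩⟩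
  have hcov : ∀ a : N1 𝒜 Γ j, (∃ t : ℝ, 0 < t ∧ a - t • y₀ ∈ KK2 𝒜 Γ j 𝒬) → ∃ g ∈ 𝒢,
      g a ∈ cone F₂ := by
    intro a ha
    obtain ⟨⟨t, ht, h1⟩, h2⟩ := hint2 a ha
    obtain ⟨q, hu1, hu2, hu3, c, hc, hx⟩ := hFc (p1 hQ a).1
      (Pool.Agent.Y167.mem_span_int Rl (p1 hQ a)) ⟨t, ht, h1⟩
    obtain ⟨r, hr, q', hq', hqr⟩ := h𝓡 q ⟨hu1, hu2, hu3⟩
    obtain ⟨f, hf0, hf1, hf2, hf3⟩ := hauts q'.symm hq'.inv
    obtain ⟨G, hG1, hG2⟩ := exists_pull2 (j := j) D.base hQ hf1 hf2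
    have hG𝒢 : G ∈ 𝒢 := by
      refine haut f hf0 (fun v => ?_) (hFx _ _ hq'.inv f hf3) G ?_
      · obtain ⟨e, he⟩ := hf3 v
        exact ⟨_, he⟩
      · intro a
        refine ⟨fun v w v' w' hv hw => ?_, hG2 a⟩
        rw [hf2] at hv hw
        rw [hG1, Rl.inj hv, Rl.inj hw]
    obtain ⟨φ, hφ, σ, hσ, hσ1, hσ2, hσc⟩ := hcovF _ h2
    obtain ⟨Gφ, hGφ⟩ := exists_degact (j := j) D.base hQ σ hσ1 hσ2
    have hGφ𝒢 : Gφ ∈ 𝒢 := by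
      have h3 : Gφ⁻¹ ∈ 𝒢 := by
        refine hautF φ hφ σ hσ _ fun x => ?_
        have h4 := hGφ (Gφ⁻¹ x)
        have h5 : Gφ (Gφ⁻¹ x) = x := Gφ.apply_symm_apply x
        rw [h5] at h4
        exact ⟨h4.1.symm, h4.2.symm⟩
      have h4 := 𝒢.inv_mem h3
      rwa [inv_inv] at h4
    refine ⟨Gφ * G, 𝒢.mul_mem hGφ𝒢 hG𝒢, ?_⟩
    have hmul : (Gφ * G) a = Gφ (G a) := rfl
    rw [hmul, ← split D.base hQ (Gφ (G a))]
    refine cone_add ?_ ?_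
    · have h3 : p1 hQ (Gφ (G a)) = ∑ z ∈ F, (c z / mf z r) • af z r := by
        apply Subtype.ext
        funext v w
        have h4 : (∑ z ∈ F, (c z / mf z r) • af z r : Pool.Agent.Y167.N1 (base Γ) j).1
            = ∑ z ∈ F, (c z / mf z r) • (af z r).1 := by
          rw [Submodule.coe_sum]
          rfl
        have h5 : (p1 hQ (Gφ (G a))).1 v w = (p1 hQ a).1 (q'.symm v) (q'.symm w) := by
          have h6 : (p1 hQ (Gφ (G a))).1 = (val (G a)).1 := (hGφ (G a)).1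
          rw [h6]
          exact hG1 a v w
        rw [h5, hx, h4]
        simp only [Finset.sum_apply, Pi.smul_apply]
        refine Finset.sum_congr rfl fun z hz => ?_
        rw [hqr, hqr, q'.apply_symm_apply, q'.apply_symm_apply, haf3 z r hz hr, Complex.real_smul]
        have hm : ((mf z r : ℕ) : ℂ) ≠ 0 := by
          have := hmf z r hz hr
          exact_mod_cast this.ne'
        push_cast
        field_simp
      rw [h3, map_sum]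
      refine cone_sum _ _ fun z hz => ?_
      rw [map_smul]
      refine cone_smul (mem_cone_self (Finset.mem_union_left _ ?_))
        (div_nonneg (hc z) (Nat.cast_nonneg _))
      exact Finset.mem_image.2 ⟨(z, r), by
        rw [Finset.mem_product, h𝓡f.mem_toFinset]
        exact ⟨hz, hr⟩, rfl⟩
    · have h3 : (p2 (Gφ (G a))).1 = ext σ (val a).2 := by
        have h6 : (p2 (Gφ (G a))).1 = ext σ (val (G a)).2 := (hGφ (G a)).2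
        rw [h6, hG2]
      have h4 : (p2 (Gφ (G a))).1 ∈ cone SF := by
        rw [h3]
        exact hσc
      obtain ⟨cs, hcs, h5⟩ := h4
      have h6 : (i2 D.base hQ (p2 (Gφ (G a))) : N1 𝒜 Γ j)
          = ∑ s ∈ SF, (cs s / Nat.card (gal Γ)) • iB s := by
        have h7 : p2 (Gφ (G a)) = ∑ s : SF, cs s • (⟨s.1, hSB s.1 s.2⟩ : Bs 𝒜 Γ) := by
          apply Subtype.ext
          rw [h5, Submodule.coe_sum, ← Finset.sum_coe_sort SF]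
          rfl
        rw [h7, map_sum, ← Finset.sum_coe_sort SF]
        refine Finset.sum_congr rfl fun s _ => ?_
        rw [map_smul, hiB s.1 (hSB s.1 s.2), smul_smul, div_mul_cancel₀ _ hcardr.ne']
      rw [h6]
      refine cone_sum _ _ fun s hs => cone_smul (mem_cone_self (Finset.mem_union_right _
        (Finset.mem_image_of_mem _ hs))) (div_nonneg (hcs s) hcardr.le)
  obtain ⟨S, hS1, hS2, hS3⟩ := DD.domain 𝒢 (fun g hg a ha => hint g hg a ha) hGK F₂ hF₂ hcov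
  rw [hcp]
  refine ⟨S, fun a ha => (hS1 a ha).1, fun a ha => ⟨S, hS1, ha⟩, ?_, fun g hg hg1 => ?_⟩
  · ext a
    simp only [Set.mem_iUnion, Set.mem_image, exists_prop]
    rw [hS2]
    constructor
    · rintro ⟨g, hg, hga⟩
      exact ⟨g⁻¹, 𝒢.inv_mem hg, g a, hga, g.symm_apply_apply a⟩
    · rintro ⟨g, hg, y, hy, rfl⟩
      refine ⟨g⁻¹, 𝒢.inv_mem hg, ?_⟩
      have h1 : (g⁻¹ : N1 𝒜 Γ j ≃ₗ[ℝ] N1 𝒜 Γ j) (g y) = y := g.symm_apply_apply y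
      rwa [h1]
  · obtain ⟨φ, hφ0, hφ1, hφ2⟩ := hS3 g hg hg1
    refine interior_inter (continuous_sub_smul (v := (val : N1 𝒜 Γ j → Pairs E ρ))
      Topology.IsInducing.subtypeVal (fun _ _ => rfl) (fun _ _ => rfl)) hφ0 hφ1 ?_
    rintro _ ⟨y, hy, rfl⟩
    exact hφ2 y hy

/-- The cone is the convex hull of its rational classes. -/
theorem plus2 (D : Sys 𝒜 u 𝒬 𝒮 d) (hQ : IsQuotient 𝒜 u Γ) (hF : PlusF 𝒜 Γ 𝒬)
    (Rl : Rel (base Γ) j H₀) {P : Set (N1 𝒜 Γ j)} (hP : Good2 𝒬 P) :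
    closure (coneHull P) ∩ effCone 𝒜 Γ j = convexHull ℝ (closure (coneHull P) ∩
      {x | ∃ n : ℕ, 0 < n ∧ (n : ℝ) • x ∈ integral 𝒜 Γ j}) := by
  rw [cp_eq2 D hQ hF Rl hP, closure_eq2 D hQ Rl hP,
    cp_eq_convexHull KK2_zero fun t ht a ha => KK2_smul ht ha]
  rfl

/-- The faces of the cone form finitely many orbits. -/
theorem faces2 (D : Sys 𝒜 u 𝒬 𝒮 d) (hQ : IsQuotient 𝒜 u Γ)
    (Rl : Rel (base Γ) j H₀) {P : Set (N1 𝒜 Γ j)} (hP : Good2 𝒬 P) (𝒢 : LinGrp (N1 𝒜 Γ j))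
    (hcone : Preserves 𝒢 (closure (coneHull P) ∩ effCone 𝒜 Γ j)) {S : Finset (N1 𝒜 Γ j)}
    (hS : cone S ⊆ closure (coneHull P) ∩ effCone 𝒜 Γ j)
    (hcov : IsFundDomain 𝒢 (closure (coneHull P) ∩ effCone 𝒜 Γ j) (cone S)) :
    ∃ 𝓕 : Set (Set (N1 𝒜 Γ j)), 𝓕.Finite ∧
      (∀ F ∈ 𝓕, IsFace F (closure (coneHull P) ∩ effCone 𝒜 Γ j)) ∧
      ∀ F, IsFace F (closure (coneHull P) ∩ effCone 𝒜 Γ j) →
        ∃ g ∈ 𝒢, ∃ F' ∈ 𝓕, F = g '' F' := by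
  have := finDim (j := j) D.base hQ Rl
  have hcl := closure_eq2 D hQ Rl hP
  refine Pool.Agent.Y167.finite_faces (A := closure (coneHull P) ∩ effCone 𝒜 Γ j)
    (fun a ha b hb => ⟨?_, hull_add ha.2 hb.2⟩) (fun a ha t ht => ⟨?_, hull_smul ht ha.2⟩)
    𝒢 hcone hS fun a ha => ?_
  · rw [hcl] at ha hb ⊢
    exact KK2_add ha.1 hb.1
  · rw [hcl] at ha ⊢
    exact KK2_smul ht ha.1
  · rw [hcov.1] at ha
    simp only [Set.mem_iUnion, Set.mem_image, exists_prop] at ha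
    exact ha

end Pool.Agent.X324.CG
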