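import Pool.Agent.X324.CF.Defs

/-!
# Cones of divisors on quotients `(A × F) / G` for general `F`: definitions

The definitions of `Pool.Agent.X324.CF.Defs` are used. Here `F` is any normal projective variety which
is `ℚ`-factorial and has a free class group; it is given by its Cox ring, which need not be finitely
generated.
-/

set_option autoImplicit false

namespace Pool.Agent.X324.CG

open Pool.Agent.X324.CF
open Pool.Agent.Y167 (cone)

section Cox

variable {ρ : ℕ} {R : Type*} [CommRing R] [Algebra ℂ R] (𝒜 : Cl ρ → Submodule ℂ R) (u : Cl ρ)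

/-- `F` is a normal projective variety, `ℚ`-factorial and with free class group `Cl(F) = ℤ^ρ`, with
ample class `u` and Cox ring `R = ⨁ 𝒜 β`, `𝒜 β = H⁰(F, O_F(β))`. The conditions, which hold for all
these varieties, say: `F` is not empty; every class becomes effective, and semiample, when a multiple
of `u` is added; a section which vanishes nowhere on `F` is a unit; a section which is not a unit has
a prime divisor; and a suitable multiple of the degree with respect to an ample class bounds the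
coordinates of the classes of effective divisors. -/
structure IsCoxRing : Prop where
  point : ∃ p, Semistable 𝒜 u p
  sections : ∀ β : Cl ρ, ∃ m : ℕ, (∃ r ∈ 𝒜 (β + m • u), r ≠ 0) ∧ ∃ r ∈ 𝒜 (m • u), r ≠ 0
  ample : ∀ β : Cl ρ, ∃ m : ℕ, SemiampleF 𝒜 u (β + m • u)
  vanish : ∀ β, ∀ r ∈ 𝒜 β, (∀ p, Semistable 𝒜 u p → p r ≠ 0) → IsUnit r
  factor : ∀ β, ∀ r ∈ 𝒜 β, r ≠ 0 → ¬ IsUnit r → ∃ β', ∃ q ∈ 𝒜 β', Prime q ∧ q ∣ r
  degree : ∃ d : Fin ρ → ℤ, ∀ β, (∃ r ∈ 𝒜 β, r ≠ 0) → ∀ k, |β k| ≤ ∑ i, d i * β i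

/-- The class `β` of `F` is movable: no divisor is contained in the divisors of all sections. (For
`E = 0` the condition says that there is a section which is not zero.) -/
def MovableF (β : Cl ρ) : Prop := ∀ β', ∀ E ∈ 𝒜 β', (∀ r ∈ 𝒜 β, E ∣ r) → IsUnit E

/-- The element of `N^1(F) = ℝ^ρ` given by an integral class. -/
def real (β : Cl ρ) : Fin ρ → ℝ := fun k => β k

/-- `φ` defines a pseudo-automorphism of `F`: it permutes the homogeneous pieces. -/
def IsPsAut (φ : R ≃ₐ[ℂ] R) : Prop := ∃ σ, Induces 𝒜 φ σ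

/-- `φ` defines an automorphism of `F`: it permutes the homogeneous pieces, and it maps the points
of `F` to points of `F`. -/
def IsAut (φ : R ≃ₐ[ℂ] R) : Prop := (∃ σ, Induces 𝒜 φ σ) ∧
  ∀ p : R →ₐ[ℂ] ℂ, Semistable 𝒜 u p ↔ Semistable 𝒜 u (p.comp (φ : R →ₐ[ℂ] R))

/-- The linear map of `N^1(F) = ℝ^ρ` given by the automorphism `σ` of `Cl(F)`. -/
noncomputable def ext (σ : Cl ρ ≃+ Cl ρ) : (Fin ρ → ℝ) →ₗ[ℝ] (Fin ρ → ℝ) where
  toFun b := ∑ k, b k • real (σ (Pi.single k 1))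
  map_add' b c := by
    simp only [Pi.add_apply, add_smul, Finset.sum_add_distrib]
  map_smul' t b := by
    simp only [Pi.smul_apply, smul_eq_mul, mul_smul, Finset.smul_sum, RingHom.id_apply]

/-- The convex cone `K` of classes of `F` is covered by the translates, under the automorphisms in
`𝒮`, of the cone spanned by a finite set `S` of integral classes in `K`. -/
def HasCover (K : Set (Fin ρ → ℝ)) (𝒮 : Set (R ≃ₐ[ℂ] R)) : Prop :=
  ∃ S : Finset (Fin ρ → ℝ), (∀ s ∈ S, s ∈ K ∧ ∃ β, s = real β) ∧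
    ∀ b ∈ K, ∃ φ ∈ 𝒮, ∃ σ, Induces 𝒜 φ σ ∧ ext σ b ∈ cone S

/-- Only finitely many automorphisms of `F` in `𝒮` act trivially on `Cl(F)`. (The elements of
`Scal 𝒜` act trivially on `F`.) -/
def FiniteKernel (𝒮 : Set (R ≃ₐ[ℂ] R)) : Prop :=
  ∃ K : Set (R ≃ₐ[ℂ] R), K.Finite ∧ ∀ φ ∈ 𝒮, (∀ β, ∀ r ∈ 𝒜 β, φ r ∈ 𝒜 β) →
    ∃ κ ∈ K, φ * κ⁻¹ ∈ Scal 𝒜

/-! ### Products

`F` is a product of varieties `F i`, `i ∈ κ`, such that `Cl(F)` is the direct sum of the `Cl(F i)`:
the coordinates `k` with `c k = i` belong to `Cl(F i)`. -/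

section Product

variable {κ : Type*} (c : Fin ρ → κ) (i : κ)

/-- The component in `Cl(F i)` of the class `β`. -/
def part [DecidableEq κ] (β : Cl ρ) : Cl ρ := fun k => if c k = i then β k else 0

/-- `H⁰(F, O_F(β))` is spanned by the products of sections of the components of `β`. -/
def IsProduct [DecidableEq κ] [Fintype κ] : Prop :=
  ∀ β, ∀ r ∈ 𝒜 β, r ∈ Submodule.span ℂ
    {y | ∃ f : κ → R, (∀ i, f i ∈ 𝒜 (part c i β)) ∧ y = ∏ i, f i}

/-- The nef cone of `F i`: the closure of the cone spanned by the semiample classes. -/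
def nefF : Set (Fin ρ → ℝ) :=
  closure (coneHull {b | ∃ β, SemiampleF 𝒜 u β ∧ (∀ k, c k ≠ i → β k = 0) ∧ b = real β})

/-- The closed movable cone of `F i`. -/
def movF : Set (Fin ρ → ℝ) :=
  closure (coneHull {b | ∃ β, MovableF 𝒜 β ∧ (∀ k, c k ≠ i → β k = 0) ∧ b = real β})

/-- The effective cone of `F i`. -/
def effF : Set (Fin ρ → ℝ) :=
  coneHull {b | ∃ β, (∃ r ∈ 𝒜 β, r ≠ 0) ∧ (∀ k, c k ≠ i → β k = 0) ∧ b = real β}

/-- `φ` is an automorphism of the factor `F i`: it is the identity on the sections of the classes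
of the other factors. -/
def OnFactor (φ : R ≃ₐ[ℂ] R) : Prop := ∀ β, (∀ k, c k = i → β k = 0) → ∀ r ∈ 𝒜 β, φ r = r

end Product

end Cox

section X

variable {V E R : Type*} [NormedAddCommGroup V] [NormedSpace ℂ V]
  [NormedAddCommGroup E] [NormedSpace ℂ E] [CommRing R] [Algebra ℂ R] {ρ : ℕ}
  (𝒜 : Cl ρ → Submodule ℂ R) (Γ : Grp V R)

/-- The pair `a = (f, φ)` normalises the group of transformations of `V × F` given by `Γ`, so that it
induces a pseudo-automorphism of `X = (V × F) / Γ` (an automorphism, if `φ` gives an automorphism of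
`F`). -/
def NormalizesX (a : Elt V R) : Prop :=
  (∀ γ ∈ Γ, ∃ δ ∈ Γ, ∃ s ∈ Scal 𝒜, a * γ * a⁻¹ = δ * (1, s)) ∧
    ∀ γ ∈ Γ, ∃ δ ∈ Γ, ∃ s ∈ Scal 𝒜, a⁻¹ * γ * a = δ * (1, s)

variable {𝒜 Γ}

/-- `g` is the pullback on `N^1(X/Z)` by the pseudo-automorphism of `X` induced by `a = (f, φ)`. -/
def IsPullbackX {j : E →ₗ[ℂ] V} (a : Elt V R) (g : N1 𝒜 Γ j ≃ₗ[ℝ] N1 𝒜 Γ j) : Prop :=
  ∀ x : N1 𝒜 Γ j, (∀ u w u' w' : E, j u' = a.1.linear (j u) → j w' = a.1.linear (j w) →
    (val (g x)).1 u w = (val x).1 u' w') ∧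
    ∀ σ, Induces 𝒜 a.2 σ → ext σ (val (g x)).2 = (val x).2

/-- The pseudo-automorphism of `X` induced by `a = (f, φ)` maps the divisors of all the sections `s i`
with `r i ≠ 0` to themselves, and so the divisor `Δ`. -/
def FixedX {ι : Type*} (Δ : EffDiv 𝒜 Γ ι) (a : Elt V R) : Prop :=
  ∀ i, Δ.r i ≠ 0 → ∃ h : V → ℂ, Differentiable ℂ h ∧ (∀ v, h v ≠ 0) ∧
    ∀ v, Δ.s i (a.1 v) = h v • a.2 (Δ.s i v)

end X

end Pool.Agent.X324.CG
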