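import Pool.Agent.X324.CG.FSys

/-!
# Descent: from the cone of `F` to the cone of invariant classes
-/

set_option autoImplicit false
set_option linter.unusedSectionVars false

namespace Pool.Agent.X324.CG

open Finset Filter Topology
open Pool.Agent.W594.SYZ2 Pool.Agent.W594.SYZ2.TQ Pool.Agent.TH735.AQ
open Pool.Agent.X324.CF
open Pool.Agent.Y167 (cone cone_add cone_smul cone_le cone_mono cone_sum mem_cone_self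
  zero_mem_cone cone_image cone_ind cone_of_scaled mem_cone_of_sum Cp CData)

/-- A cone spanned by integral vectors is defined by finitely many integral inequalities. -/
theorem cone_ineq {ρ : ℕ} (S : Finset (Fin ρ → ℝ)) (hS : ∀ s ∈ S, ∃ β : Cl ρ, s = rv β) :
    ∃ Y : Finset (Cl ρ), ∀ x, x ∈ cone S ↔ ∀ y ∈ Y, 0 ≤ dot (rv y) x := by
  classical
  choose! f hf using hS
  let e := S.equivFin
  obtain ⟨Y, hY⟩ := exists_ineq (fun i : Fin S.card => f (e.symm i).1) Finset.univ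
  refine ⟨Y, fun x => ?_⟩
  rw [← hY]
  constructor
  · rintro ⟨c, hc, rfl⟩
    refine ⟨fun i => c (e.symm i).1, fun i => hc _, ?_⟩
    rw [← Finset.sum_coe_sort S]
    refine Fintype.sum_equiv e _ _ fun s => ?_
    beta_reduce
    rw [Equiv.symm_apply_apply, ← hf s.1 s.2]
  · rintro ⟨c, hc, rfl⟩
    refine cone_sum _ _ fun i _ => cone_smul (mem_cone_self ?_) (hc i)
    rw [← hf _ (e.symm i).2]
    exact (e.symm i).2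

section Scal

variable {R : Type*} [CommRing R] [Algebra ℂ R] {ρ : ℕ} {𝒜 : Cl ρ → Submodule ℂ R}
  [GradedAlgebra 𝒜]

/-- `Scal` is normalised by the automorphisms which permute the pieces. -/
theorem scal_conj {ψ s : R ≃ₐ[ℂ] R} {τ : Cl ρ ≃+ Cl ρ} (h : Induces 𝒜 ψ τ) (hs : s ∈ Scal 𝒜) :
    ψ * s * ψ⁻¹ ∈ Scal 𝒜 := by
  intro β
  obtain ⟨c, hc⟩ := hs (τ.symm β)
  refine ⟨c, fun r hr => ?_⟩
  change ψ (s (ψ⁻¹ r)) = c • r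
  rw [hc _ (ind_inv h β r hr), map_smul]
  congr 1
  exact ψ.apply_symm_apply r

theorem scal_conj' {ψ s : R ≃ₐ[ℂ] R} {τ : Cl ρ ≃+ Cl ρ} (h : Induces 𝒜 ψ τ) (hs : s ∈ Scal 𝒜) :
    ψ⁻¹ * s * ψ ∈ Scal 𝒜 := by
  have h1 := scal_conj (ind_inv h) hs
  rwa [inv_inv] at h1

end Scal

variable {V R : Type*} [NormedAddCommGroup V] [NormedSpace ℂ V] [CommRing R] [IsDomain R]
  [Algebra ℂ R] {ρ : ℕ}
  {𝒜 : Cl ρ → Submodule ℂ R} [GradedAlgebra 𝒜] {Γ : Grp V R}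
  {u : Cl ρ} {𝒬 : Set (Cl ρ)} {𝒮 : Subgroup (R ≃ₐ[ℂ] R)} {d : Fin ρ → ℤ}

/-! ### Averages -/

theorem exists_perm (hQ : IsQuotient 𝒜 u Γ) (φ : gal Γ) : ∃ σ, Induces 𝒜 φ.1 σ := by
  obtain ⟨φ, γ, hγ, h1⟩ := φ
  obtain ⟨σ, hσ⟩ := hQ.perm γ hγ
  have h2 : γ.2 = φ := h1
  rw [h2] at hσ
  exact ⟨σ, hσ⟩

/-- The action of the finite group on the classes. -/
noncomputable def perm (hQ : IsQuotient 𝒜 u Γ) (φ : gal Γ) : Cl ρ ≃+ Cl ρ :=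
  (exists_perm hQ φ).choose

theorem perm_spec (hQ : IsQuotient 𝒜 u Γ) (φ : gal Γ) : Induces 𝒜 φ.1 (perm hQ φ) :=
  (exists_perm hQ φ).choose_spec

theorem perm_inv (hQ : IsQuotient 𝒜 u Γ) (φ : gal Γ) {β : Cl ρ} (hβ : Inv 𝒜 Γ β) :
    perm hQ φ β = β := by
  obtain ⟨γ, hγ, h1⟩ := φ.2
  refine hβ γ hγ _ ?_
  have h2 : γ.2 = φ.1 := h1
  rw [h2]
  exact perm_spec hQ φ

theorem ext_inv {σ : Cl ρ ≃+ Cl ρ} (h : ∀ β, Inv 𝒜 Γ β → σ β = β) {b : Fin ρ → ℝ}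
    (hb : b ∈ Bs 𝒜 Γ) : ext σ b = b := by
  induction hb using Submodule.span_induction with
  | mem b hb =>
    obtain ⟨β, hβ, rfl⟩ := hb
    rw [ext_rv, h β hβ]
  | zero => rw [map_zero]
  | add x y _ _ hx hy => rw [map_add, hx, hy]
  | smul c x _ hx => rw [map_smul, hx]

section Avg

variable [Fintype (gal Γ)]

/-- The sum over the finite group. -/
noncomputable def avg (hQ : IsQuotient 𝒜 u Γ) : (Fin ρ → ℝ) →ₗ[ℝ] (Fin ρ → ℝ) :=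
  ∑ φ : gal Γ, ext (perm hQ φ)

theorem avg_apply (hQ : IsQuotient 𝒜 u Γ) (b : Fin ρ → ℝ) :
    avg hQ b = ∑ φ : gal Γ, ext (perm hQ φ) b := by
  rw [avg, LinearMap.sum_apply]

theorem avg_Bs (hQ : IsQuotient 𝒜 u Γ) {b : Fin ρ → ℝ} (hb : b ∈ Bs 𝒜 Γ) :
    avg hQ b = (Nat.card (gal Γ) : ℝ) • b := by
  rw [avg_apply, Finset.sum_congr rfl fun φ _ => ext_inv (fun β hβ => perm_inv hQ φ hβ) hb,
    Finset.sum_const, Finset.card_univ, Nat.card_eq_fintype_card, Nat.cast_smul_eq_nsmul]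

theorem avg_rv (hQ : IsQuotient 𝒜 u Γ) (β : Cl ρ) :
    avg hQ (rv β) = rv (∑ φ : gal Γ, perm hQ φ β) := by
  rw [avg_apply, rv_sum]
  exact Finset.sum_congr rfl fun φ _ => ext_rv _ _

theorem sum_Inv (D : Sys 𝒜 u 𝒬 𝒮 d) (hQ : IsQuotient 𝒜 u Γ) (β : Cl ρ) :
    Inv 𝒜 Γ (∑ φ : gal Γ, perm hQ φ β) := by
  intro γ hγ τ hτ
  rw [map_sum]
  refine Fintype.sum_equiv (Equiv.mulLeft (⟨γ.2, mem_gal hγ⟩ : gal Γ)) _ _ fun φ => ?_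
  have h1 : Induces 𝒜 (γ.2 * φ.1) ((perm hQ φ).trans τ) := ind_mul hτ (perm_spec hQ φ)
  have h2 := perm_spec hQ ((⟨γ.2, mem_gal hγ⟩ : gal Γ) * φ)
  have h3 := ind_unique D.gens h1 h2
  exact DFunLike.congr_fun h3 β

theorem avg_KQ (D : Sys 𝒜 u 𝒬 𝒮 d) (hQ : IsQuotient 𝒜 u Γ) (hgal : gal Γ ≤ 𝒮) {b : Fin ρ → ℝ}
    (hb : b ∈ KQ 𝒬 ⊤) : avg hQ b ∈ KQ 𝒬 (LG 𝒜 Γ) := by
  refine map_mem_closure (LinearMap.continuous_of_finiteDimensional (avg hQ)) hb fun b hb => ?_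
  refine hull_ind (p := fun b => avg hQ b ∈ HQ 𝒬 (LG 𝒜 Γ)) ?_ ?_ ?_ ?_ hb
  · rw [map_zero]; exact hull_zero
  · intro x y h1 h2
    rw [map_add]; exact hull_add h1 h2
  · intro t x ht h1
    rw [map_smul]; exact hull_smul ht h1
  · rintro _ ⟨β, h1, -, rfl⟩
    rw [avg_rv]
    refine HQ_mem ?_ (sum_Inv D hQ β)
    exact Finset.sum_induction _ (fun β => β ∈ 𝒬) (fun a b ha hb => D.add a ha b hb) D.zero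
      fun φ _ => D.pres φ.1 (hgal φ.2) _ (perm_spec hQ φ) β h1

theorem avg_EQ (D : Sys 𝒜 u 𝒬 𝒮 d) (hQ : IsQuotient 𝒜 u Γ) {b : Fin ρ → ℝ}
    (hb : b ∈ EQ 𝒜 ⊤) : avg hQ b ∈ EQ 𝒜 (LG 𝒜 Γ) := by
  refine hull_ind (p := fun b => avg hQ b ∈ EQ 𝒜 (LG 𝒜 Γ)) ?_ ?_ ?_ ?_ hb
  · rw [map_zero]; exact hull_zero
  · intro x y h1 h2
    rw [map_add]; exact hull_add h1 h2
  · intro t x ht h1
    rw [map_smul]; exact hull_smul ht h1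
  · rintro _ ⟨β, ⟨r, hr, hr0⟩, -, rfl⟩
    rw [avg_rv]
    refine hull_mem ⟨_, ⟨nrm (gal Γ) r, ?_, nrm_ne_zero hr0⟩, sum_Inv D hQ β, rfl⟩
    exact SetLike.prod_mem_graded 𝒜 (fun φ : gal Γ => perm hQ φ β) (fun φ : gal Γ => φ.1 r)
      (F := Finset.univ) fun φ _ => perm_spec hQ φ β r hr

end Avg

theorem KQ_inter (D : Sys 𝒜 u 𝒬 𝒮 d) (hQ : IsQuotient 𝒜 u Γ) (hgal : gal Γ ≤ 𝒮) {b : Fin ρ → ℝ}
    (hb : b ∈ KQ 𝒬 ⊤) (hb' : b ∈ Bs 𝒜 Γ) : b ∈ KQ 𝒬 (LG 𝒜 Γ) := by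
  have := hQ.fin_gal
  have : Fintype (gal Γ) := Fintype.ofFinite _
  have h1 := avg_KQ D hQ hgal hb
  rw [avg_Bs hQ hb'] at h1
  have hN : (0 : ℝ) < Nat.card (gal Γ) := by
    have : 0 < Nat.card (gal Γ) := Nat.card_pos
    exact_mod_cast this
  have h2 := cl_smul (inv_nonneg.2 hN.le) h1
  rwa [smul_smul, inv_mul_cancel₀ hN.ne', one_smul] at h2

theorem EQ_inter (D : Sys 𝒜 u 𝒬 𝒮 d) (hQ : IsQuotient 𝒜 u Γ) {b : Fin ρ → ℝ}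
    (hb : b ∈ EQ 𝒜 ⊤) (hb' : b ∈ Bs 𝒜 Γ) : b ∈ EQ 𝒜 (LG 𝒜 Γ) := by
  have := hQ.fin_gal
  have : Fintype (gal Γ) := Fintype.ofFinite _
  have h1 := avg_EQ D hQ hb
  rw [avg_Bs hQ hb'] at h1
  exact hull_div Nat.card_pos h1

/-- The conditions on the cone of invariant classes. -/
theorem plusF_of (D : Sys 𝒜 u 𝒬 𝒮 d) (hQ : IsQuotient 𝒜 u Γ) (hgal : gal Γ ≤ 𝒮)
    (hcp : ∀ b, b ∈ KQ 𝒬 ⊤ ∧ b ∈ EQ 𝒜 ⊤ ↔ b ∈ Cp (ZL ρ) (KQ 𝒬 ⊤)) : PlusF 𝒜 Γ 𝒬 := by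
  classical
  have := hQ.fin_gal
  have : Fintype (gal Γ) := Fintype.ofFinite _
  have key : ∀ b, b ∈ Cp (ZL ρ) (KQ 𝒬 ⊤) → avg hQ b ∈ coneHull {s | s ∈ KQ 𝒬 (LG 𝒜 Γ) ∧
      ∃ β, Inv 𝒜 Γ β ∧ s = rv β} := by
    rintro b ⟨S, hS, h1⟩
    refine cone_ind (p := fun b => avg hQ b ∈ coneHull {s | s ∈ KQ 𝒬 (LG 𝒜 Γ) ∧
      ∃ β, Inv 𝒜 Γ β ∧ s = rv β}) ?_ ?_ ?_ ?_ h1
    · rw [map_zero]; exact hull_zero
    · intro x y h1 h2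
      rw [map_add]; exact hull_add h1 h2
    · intro t x ht h1
      rw [map_smul]; exact hull_smul ht h1
    · intro s hs
      obtain ⟨⟨β, hβ⟩, h2⟩ := hS s hs
      refine hull_mem ⟨avg_KQ D hQ hgal h2, _, sum_Inv D hQ β, ?_⟩
      rw [hβ, avg_rv]
  have hle : LG 𝒜 Γ ≤ (⊤ : AddSubgroup (Cl ρ)) := le_top
  refine ⟨fun b hb hbE => ?_, fun β hβ hb => ?_⟩
  · have hbB : b ∈ Bs 𝒜 Γ := by
      have h0 : b ∈ UL (LG 𝒜 Γ) := KQ_sub_UL hb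
      exact h0
    have hb1 : b ∈ KQ 𝒬 ⊤ := KQ_le hle hb
    have hb2 : b ∈ EQ 𝒜 ⊤ := EQ_le hle hbE
    have h1 := key b ((hcp b).1 ⟨hb1, hb2⟩)
    rw [avg_Bs hQ hbB] at h1
    exact hull_div Nat.card_pos h1
  · have hbB : rv β ∈ Bs 𝒜 Γ := Submodule.subset_span ⟨β, hβ, rfl⟩
    have hb1 : rv β ∈ KQ 𝒬 ⊤ := KQ_le hle hb
    have h1 : rv β ∈ Cp (ZL ρ) (KQ 𝒬 ⊤) := by
      refine ⟨{rv β}, fun a ha => ?_, mem_cone_self (Finset.mem_singleton_self _)⟩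
      rw [Finset.mem_singleton] at ha
      rw [ha]
      exact ⟨⟨β, rfl⟩, hb1⟩
    exact EQ_inter D hQ ((hcp _).2 h1).2 hbB

/-! ### Normalising automorphisms -/

theorem norm_of_comm (hQ : IsQuotient 𝒜 u Γ) {θ : R ≃ₐ[ℂ] R} {ν : Cl ρ ≃+ Cl ρ}
    (hν : Induces 𝒜 θ ν) (h : ∀ g ∈ gal Γ, θ * g * θ⁻¹ * g⁻¹ ∈ Scal 𝒜) :
    NormalizesX 𝒜 Γ (1, θ) := by
  refine ⟨fun γ hγ => ?_, fun γ hγ => ?_⟩
  · obtain ⟨σ, hσ⟩ := hQ.perm γ hγ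
    refine ⟨γ, hγ, γ.2⁻¹ * (θ * γ.2 * θ⁻¹ * γ.2⁻¹) * γ.2,
      scal_conj' hσ (h _ (mem_gal hγ)), Prod.ext ?_ ?_⟩
    · change 1 * γ.1 * 1⁻¹ = γ.1 * 1
      group
    · change θ * γ.2 * θ⁻¹ = γ.2 * (γ.2⁻¹ * (θ * γ.2 * θ⁻¹ * γ.2⁻¹) * γ.2)
      group
  · have h1 := scal_conj' hν (h _ ((gal Γ).inv_mem (mem_gal hγ)))
    refine ⟨γ, hγ, _, h1, Prod.ext ?_ ?_⟩
    · change 1⁻¹ * γ.1 * 1 = γ.1 * 1
      group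
    · change θ⁻¹ * γ.2 * θ = γ.2 * (θ⁻¹ * (θ * γ.2⁻¹ * θ⁻¹ * γ.2⁻¹⁻¹) * θ)
      group

theorem NormalizesX.inv {a : Elt V R}
    (gens : ∀ H : AddSubgroup (Cl ρ), (∀ β, (∃ r ∈ 𝒜 β, r ≠ 0) → β ∈ H) → H = ⊤)
    (hperm : ∀ γ ∈ Γ, ∃ σ, Induces 𝒜 γ.2 σ) (h : NormalizesX 𝒜 Γ a) {σ : Cl ρ ≃+ Cl ρ}
    (hσ : Induces 𝒜 a.2 σ) {β : Cl ρ} (hβ : Inv 𝒜 Γ β) : Inv 𝒜 Γ (σ β) := by
  intro γ hγ τ hτ
  obtain ⟨δ, hδ, s, hs, h1⟩ := h.2 γ hγ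
  obtain ⟨τ', hτ'⟩ := hperm δ hδ
  have h2 : a.2⁻¹ * γ.2 * a.2 = δ.2 * s := congrArg Prod.snd h1
  have h3 := ind_mul (ind_mul (ind_inv hσ) hτ) hσ
  rw [h2] at h3
  have h4 := DFunLike.congr_fun (ind_unique gens h3 (ind_mul hτ' (ind_scal hs))) β
  have h5 : σ.symm (τ (σ β)) = τ' β := h4
  rw [hβ δ hδ τ' hτ', AddEquiv.symm_apply_eq] at h5
  exact h5

theorem NormalizesX.inv' {a : Elt V R}
    (gens : ∀ H : AddSubgroup (Cl ρ), (∀ β, (∃ r ∈ 𝒜 β, r ≠ 0) → β ∈ H) → H = ⊤)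
    (hperm : ∀ γ ∈ Γ, ∃ σ, Induces 𝒜 γ.2 σ) (h : NormalizesX 𝒜 Γ a) {σ : Cl ρ ≃+ Cl ρ}
    (hσ : Induces 𝒜 a.2 σ) {β : Cl ρ} (hβ : Inv 𝒜 Γ β) : Inv 𝒜 Γ (σ.symm β) := by
  intro γ hγ τ hτ
  obtain ⟨δ, hδ, s, hs, h1⟩ := h.1 γ hγ
  obtain ⟨τ', hτ'⟩ := hperm δ hδ
  have h2 : a.2 * γ.2 * a.2⁻¹ = δ.2 * s := congrArg Prod.snd h1
  have h3 := ind_mul (ind_mul hσ hτ) (ind_inv hσ)
  rw [h2] at h3
  have h4 := DFunLike.congr_fun (ind_unique gens h3 (ind_mul hτ' (ind_scal hs))) β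
  have h5 : σ (τ (σ.symm β)) = τ' β := h4
  rw [hβ δ hδ τ' hτ'] at h5
  have h6 := congrArg σ.symm h5
  rwa [σ.symm_apply_apply] at h6

end Pool.Agent.X324.CG
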