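import Pool.Agent.X324.CG.Desc

/-!
# Descent of the covering
-/

set_option autoImplicit false
set_option linter.unusedSectionVars false

namespace Pool.Agent.X324.CG

open Finset Filter Topology
open Pool.Agent.W594.SYZ2 Pool.Agent.W594.SYZ2.TQ Pool.Agent.TH735.AQ
open Pool.Agent.X324.CF
open Pool.Agent.Y167 (cone cone_add cone_smul cone_le cone_mono cone_sum mem_cone_self
  zero_mem_cone cone_image cone_ind cone_of_scaled mem_cone_of_sum Cp CData)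

theorem span_ZL (ρ : ℕ) : Submodule.span ℝ (ZL ρ : Set (Fin ρ → ℝ)) = ⊤ := by
  rw [eq_top_iff]
  intro x _
  have h1 : x = ∑ k, x k • rv (Pi.single k 1 : Cl ρ) := by
    funext l
    rw [Finset.sum_apply, Finset.sum_eq_single l]
    · simp [rv]
    · intro b _ hb
      simp [rv, Pi.single_eq_of_ne (Ne.symm hb)]
    · intro h
      exact absurd (Finset.mem_univ _) h
  rw [h1]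
  exact Submodule.sum_mem _ fun k _ => Submodule.smul_mem _ _ (Submodule.subset_span ⟨_, rfl⟩)

theorem UL_top (ρ : ℕ) (x : Fin ρ → ℝ) : x ∈ UL (⊤ : AddSubgroup (Cl ρ)) := by
  have h1 : x ∈ Submodule.span ℝ (ZL ρ : Set (Fin ρ → ℝ)) := by rw [span_ZL]; trivial
  refine Submodule.span_mono ?_ h1
  rintro _ ⟨β, rfl⟩
  exact ⟨β, AddSubgroup.mem_top β, rfl⟩

variable {V R : Type*} [NormedAddCommGroup V] [NormedSpace ℂ V] [CommRing R] [IsDomain R]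
  [Algebra ℂ R] {ρ : ℕ}
  {𝒜 : Cl ρ → Submodule ℂ R} [GradedAlgebra 𝒜] {Γ : Grp V R}
  {u : Cl ρ} {𝒬 : Set (Cl ρ)} {𝒮 : Subgroup (R ≃ₐ[ℂ] R)} {d : Fin ρ → ℤ}

theorem map_KQt (D : Sys 𝒜 u 𝒬 𝒮 d) {φ : R ≃ₐ[ℂ] R} (hφ : φ ∈ 𝒮) {σ : Cl ρ ≃+ Cl ρ}
    (hσ : Induces 𝒜 φ σ) {b : Fin ρ → ℝ} (hb : b ∈ KQ 𝒬 ⊤) : ext σ b ∈ KQ 𝒬 ⊤ :=
  D.map_KQ hφ hσ (fun _ _ => AddSubgroup.mem_top _) hb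

theorem map_KQt' (D : Sys 𝒜 u 𝒬 𝒮 d) {φ : R ≃ₐ[ℂ] R} (hφ : φ ∈ 𝒮) {σ : Cl ρ ≃+ Cl ρ}
    (hσ : Induces 𝒜 φ σ) {b : Fin ρ → ℝ} (hb : ext σ b ∈ KQ 𝒬 ⊤) : b ∈ KQ 𝒬 ⊤ := by
  have h1 := map_KQt D (𝒮.inv_mem hφ) (ind_inv hσ) hb
  rwa [ext_symm] at h1

theorem map_EQt {φ : R ≃ₐ[ℂ] R} {σ : Cl ρ ≃+ Cl ρ}
    (hσ : Induces 𝒜 φ σ) {b : Fin ρ → ℝ} (hb : b ∈ EQ 𝒜 ⊤) : ext σ b ∈ EQ 𝒜 ⊤ :=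
  map_EQ hσ (fun _ _ => AddSubgroup.mem_top _) hb

theorem map_EQt' {φ : R ≃ₐ[ℂ] R} {σ : Cl ρ ≃+ Cl ρ}
    (hσ : Induces 𝒜 φ σ) {b : Fin ρ → ℝ} (hb : ext σ b ∈ EQ 𝒜 ⊤) : b ∈ EQ 𝒜 ⊤ := by
  have h1 := map_EQt (ind_inv hσ) hb
  rwa [ext_symm] at h1

theorem cone_KQ {S : Finset (Fin ρ → ℝ)} {Λ : AddSubgroup (Cl ρ)} (hS : ∀ s ∈ S, s ∈ KQ 𝒬 Λ)
    {b : Fin ρ → ℝ} (hb : b ∈ cone S) : b ∈ KQ 𝒬 Λ :=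
  cone_ind (p := fun b => b ∈ KQ 𝒬 Λ) cl_zero (fun _ _ h1 h2 => cl_add h1 h2)
    (fun _ _ ht h => cl_smul ht h) hS hb

theorem cone_EQ {S : Finset (Fin ρ → ℝ)} {Λ : AddSubgroup (Cl ρ)} (hS : ∀ s ∈ S, s ∈ EQ 𝒜 Λ)
    {b : Fin ρ → ℝ} (hb : b ∈ cone S) : b ∈ EQ 𝒜 Λ :=
  cone_ind (p := fun b => b ∈ EQ 𝒜 Λ) hull_zero (fun _ _ h1 h2 => hull_add h1 h2)
    (fun _ _ ht h => hull_smul ht h) hS hb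

/-- A fundamental domain for the group `𝒮` acting on the cone of `F`, with the finiteness property
for stabilisers of interior points. -/
theorem exists_dom (D : Sys 𝒜 u 𝒬 𝒮 d) {S₀ : Finset (Fin ρ → ℝ)}
    (hS₀ : ∀ s ∈ S₀, (s ∈ KQ 𝒬 ⊤ ∧ s ∈ EQ 𝒜 ⊤) ∧ ∃ β, s = rv β)
    (hcov : ∀ b, b ∈ KQ 𝒬 ⊤ → b ∈ EQ 𝒜 ⊤ → ∃ φ ∈ 𝒮, ∃ σ, Induces 𝒜 φ σ ∧ ext σ b ∈ cone S₀) :
    (∀ b, b ∈ KQ 𝒬 ⊤ ∧ b ∈ EQ 𝒜 ⊤ ↔ b ∈ Cp (ZL ρ) (KQ 𝒬 ⊤)) ∧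
    ∃ S : Finset (Fin ρ → ℝ), (∀ s ∈ S, s ∈ KQ 𝒬 ⊤ ∧ ∃ β, s = rv β) ∧
      (∀ b, b ∈ Cp (ZL ρ) (KQ 𝒬 ⊤) → ∃ φ ∈ 𝒮, ∃ σ, Induces 𝒜 φ σ ∧ ext σ b ∈ cone S) ∧
      {g | g ∈ grpF (𝒜 := 𝒜) 𝒮 ∧ ∃ x ∈ cone S, (∃ t : ℝ, 0 < t ∧ x - t • rv u ∈ KQ 𝒬 ⊤) ∧
        g x = x}.Finite := by
  classical
  obtain ⟨Y, DD⟩ := D.cdata (Λ := ⊤) (AddSubgroup.mem_top u)
    (LinearMap.id : (Fin ρ → ℝ) →ₗ[ℝ] (Fin ρ → ℝ)) (fun _ _ h => h) (fun x => UL_top ρ x)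
    (L := ZL ρ) (fun x hx => hx) (span_ZL ρ) (y₀ := rv u) ⟨u, rfl⟩ rfl
  have hL : ∀ g ∈ grpF (𝒜 := 𝒜) 𝒮, ∀ x ∈ ZL ρ, g x ∈ ZL ρ := by
    rintro _ ⟨φ, -, σ, -, rfl⟩ _ ⟨β, rfl⟩
    exact ⟨σ β, ext_rv σ β⟩
  have hN : ∀ g ∈ grpF (𝒜 := 𝒜) 𝒮, ∀ x ∈ {x | (LinearMap.id : (Fin ρ → ℝ) →ₗ[ℝ] (Fin ρ → ℝ)) x ∈
      KQ 𝒬 ⊤}, g x ∈ {x | (LinearMap.id : (Fin ρ → ℝ) →ₗ[ℝ] (Fin ρ → ℝ)) x ∈ KQ 𝒬 ⊤} := by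
    rintro _ ⟨φ, hφ, σ, hσ, rfl⟩ x hx
    exact map_KQt D hφ hσ hx
  have hF : ∀ a ∈ S₀, a ∈ ZL ρ ∧ a ∈ {x | (LinearMap.id : (Fin ρ → ℝ) →ₗ[ℝ] (Fin ρ → ℝ)) x ∈
      KQ 𝒬 ⊤} := fun a ha => ⟨(hS₀ a ha).2, (hS₀ a ha).1.1⟩
  obtain ⟨S, ξ, hS1, hS2, hS3, hS4, c, hc, hS5⟩ := domain' DD (grpF (𝒜 := 𝒜) 𝒮) hL hN S₀ hF
    (fun x hx => by
      obtain ⟨t, ht, h1⟩ := hx
      have h2 : x ∈ HQ 𝒬 ⊤ := D.interior (AddSubgroup.mem_top u) ht h1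
      obtain ⟨φ, hφ, σ, hσ, h3⟩ := hcov x (KQ_of_HQ h2) (D.HQ_sub_EQ h2)
      exact ⟨extE σ, ⟨φ, hφ, σ, hσ, rfl⟩, h3⟩)
  have hSE : ∀ s ∈ S, s ∈ EQ 𝒜 ⊤ := by
    intro s hs
    obtain ⟨g, hg, h1⟩ := hS2 s hs
    obtain ⟨φ, hφ, σ, hσ, rfl⟩ := hg
    exact map_EQt' hσ (cone_EQ (fun a ha => (hS₀ a ha).1.2) h1)
  refine ⟨fun b => ⟨fun hb => ?_, fun hb => ?_⟩, S, fun s hs => ⟨(hS1 s hs).2, (hS1 s hs).1⟩,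
    fun b hb => ?_, ?_⟩
  · obtain ⟨φ, hφ, σ, hσ, h3⟩ := hcov b hb.1 hb.2
    have h4 : ext σ b ∈ Cp (ZL ρ) (KQ 𝒬 ⊤) := ⟨S₀, hF, h3⟩
    obtain ⟨g, hg, h5⟩ := (hS3 _).1 h4
    refine (hS3 b).2 ⟨g * extE σ, (grpF (𝒜 := 𝒜) 𝒮).mul_mem hg ⟨φ, hφ, σ, hσ, rfl⟩, h5⟩
  · obtain ⟨g, hg, h1⟩ := (hS3 b).1 hb
    obtain ⟨φ, hφ, σ, hσ, rfl⟩ := hg
    exact ⟨map_KQt' D hφ hσ (cone_KQ (fun a ha => (hS1 a ha).2) h1),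
      map_EQt' hσ (cone_EQ hSE h1)⟩
  · obtain ⟨g, hg, h1⟩ := (hS3 b).1 hb
    obtain ⟨φ, hφ, σ, hσ, rfl⟩ := hg
    exact ⟨φ, hφ, σ, hσ, h1⟩
  · exact fixers DD (grpF (𝒜 := 𝒜) 𝒮) hL hN hS1 hS4 hc hS5

/-- Finitely many automorphisms of `F` give all the automorphisms in `𝒮` whose action on the classes
is in a finite set, up to scalars. -/
theorem exists_reps (hker : FiniteKernel 𝒜 (𝒮 : Set (R ≃ₐ[ℂ] R)))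
    {𝓕 : Set ((Fin ρ → ℝ) ≃ₗ[ℝ] (Fin ρ → ℝ))} (h𝓕 : 𝓕.Finite) :
    ∃ Ψ : Set (R ≃ₐ[ℂ] R), Ψ.Finite ∧ ∀ ψ ∈ 𝒮, ∀ τ, Induces 𝒜 ψ τ → extE τ ∈ 𝓕 →
      ∃ χ ∈ Ψ, ψ * χ⁻¹ ∈ Scal 𝒜 := by
  classical
  obtain ⟨K, hK, hker⟩ := hker
  have hrep : ∀ g : (Fin ρ → ℝ) ≃ₗ[ℝ] (Fin ρ → ℝ), ∃ φ : R ≃ₐ[ℂ] R, g ∈ grpF (𝒜 := 𝒜) 𝒮 →
      φ ∈ 𝒮 ∧ ∃ σ, Induces 𝒜 φ σ ∧ g = extE σ := by
    intro g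
    by_cases hg : g ∈ grpF (𝒜 := 𝒜) 𝒮
    · obtain ⟨φ, hφ, h⟩ := hg
      exact ⟨φ, fun _ => ⟨hφ, h⟩⟩
    · exact ⟨1, fun h => absurd h hg⟩
  choose rep hrep using hrep
  refine ⟨Set.image2 (fun κ g => κ * rep g) K 𝓕, hK.image2 _ h𝓕, fun ψ hψ τ hτ hτF => ?_⟩
  obtain ⟨h1, σ, hσ, h2⟩ := hrep (extE τ) ⟨ψ, hψ, τ, hτ, rfl⟩
  have h3 : τ = σ := by
    ext1 β
    apply rv_inj
    rw [← ext_rv, ← ext_rv, ← extE_apply, ← extE_apply, h2]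
  subst h3
  obtain ⟨κ, hκ, h4⟩ := hker (ψ * (rep (extE τ))⁻¹) (𝒮.mul_mem hψ (𝒮.inv_mem h1)) (by
    intro β r hr
    have h5 := ind_mul hτ (ind_inv hσ) β r hr
    have h6 : (τ.symm.trans τ) β = β := τ.apply_symm_apply β
    rwa [h6] at h5)
  refine ⟨κ * rep (extE τ), ⟨κ, hκ, extE τ, hτF, rfl⟩, ?_⟩
  rwa [mul_inv_rev, ← mul_assoc]

/-- **Descent**: a covering of the cone of `F` gives a covering of the cone of invariant classes, by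
automorphisms which normalise `Γ` and lie in a subgroup `𝒮₁` of finite index. -/
theorem descent' (D : Sys 𝒜 u 𝒬 𝒮 d) (hQ : IsQuotient 𝒜 u Γ) (hgal : gal Γ ≤ 𝒮)
    {𝒮₁ : Subgroup (R ≃ₐ[ℂ] R)} {T₁ : Set (R ≃ₐ[ℂ] R)} (hT₁ : T₁.Finite)
    (hfi : ∀ φ ∈ 𝒮, ∃ h ∈ T₁, h⁻¹ * φ ∈ 𝒮₁)
    {S₀ : Finset (Fin ρ → ℝ)} (hS₀ : ∀ s ∈ S₀, (s ∈ KQ 𝒬 ⊤ ∧ s ∈ EQ 𝒜 ⊤) ∧ ∃ β, s = rv β)
    (hcov : ∀ b, b ∈ KQ 𝒬 ⊤ → b ∈ EQ 𝒜 ⊤ → ∃ φ ∈ 𝒮, ∃ σ, Induces 𝒜 φ σ ∧ ext σ b ∈ cone S₀)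
    (hker : FiniteKernel 𝒜 (𝒮 : Set (R ≃ₐ[ℂ] R))) :
    PlusF 𝒜 Γ 𝒬 ∧ ∃ SF : Finset (Fin ρ → ℝ),
      (∀ s ∈ SF, s ∈ KQ 𝒬 (LG 𝒜 Γ) ∧ ∃ β, Inv 𝒜 Γ β ∧ s = rv β) ∧
      ∀ b, (∃ t : ℝ, 0 < t ∧ b - t • rv u ∈ KQ 𝒬 (LG 𝒜 Γ)) →
        ∃ φ ∈ {φ : R ≃ₐ[ℂ] R | φ ∈ 𝒮 ∧ φ ∈ 𝒮₁ ∧ NormalizesX 𝒜 Γ (1, φ)}, ∃ σ,
          Induces 𝒜 φ σ ∧ (∀ β, Inv 𝒜 Γ β → Inv 𝒜 Γ (σ β)) ∧
          (∀ β, Inv 𝒜 Γ β → Inv 𝒜 Γ (σ.symm β)) ∧ ext σ b ∈ cone SF := by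
  classical
  obtain ⟨hcp, S, hS, hScov, hfix⟩ := exists_dom D hS₀ hcov
  refine ⟨plusF_of D hQ hgal hcp, ?_⟩
  obtain ⟨Ψ, hΨ, hreps⟩ := exists_reps hker hfix
  have hfg := hQ.fin_gal
  have hfΨ : Finite Ψ := hΨ.to_subtype
  have hfT : Finite T₁ := hT₁.to_subtype
  have : Fintype ((gal Γ → Ψ) × T₁) := Fintype.ofFinite _
  -- the representatives
  let Qp : (R ≃ₐ[ℂ] R) → ((gal Γ → Ψ) × T₁) → Prop := fun φ c =>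
    φ ∈ 𝒮 ∧ (∀ g : gal Γ, φ * g.1 * φ⁻¹ * (c.1 g).1⁻¹ ∈ Scal 𝒜) ∧ c.2.1⁻¹ * φ ∈ 𝒮₁
  let repc : ((gal Γ → Ψ) × T₁) → (R ≃ₐ[ℂ] R) := fun c => if h : ∃ φ, Qp φ c then h.choose else 1
  have hrepc : ∀ φ c, Qp φ c → Qp (repc c) c := by
    intro φ c h
    have h1 : ∃ φ, Qp φ c := ⟨φ, h⟩
    change Qp (if h : ∃ φ, Qp φ c then h.choose else 1) c
    rw [dif_pos h1]
    exact h1.choose_spec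
  have hrep𝒮 : ∀ c, repc c ∈ 𝒮 := by
    intro c
    by_cases h1 : ∃ φ, Qp φ c
    · obtain ⟨φ, h⟩ := h1
      exact (hrepc φ c h).1
    · change (if h : ∃ φ, Qp φ c then h.choose else 1) ∈ 𝒮
      rw [dif_neg h1]
      exact 𝒮.one_mem
  choose σr hσr using fun c => D.ind (repc c) (hrep𝒮 c)
  -- the pieces
  obtain ⟨Y, hY⟩ := cone_ineq S fun s hs => (hS s hs).2
  have hpiece : ∀ c : (gal Γ → Ψ) × T₁, ∃ T : Finset (Fin ρ → ℝ), (∀ a ∈ T, a ∈ invL 𝒜 Γ) ∧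
      ∀ x, x ∈ cone T ↔ x ∈ Bs 𝒜 Γ ∧ ext (σr c) x ∈ cone S := by
    intro c
    obtain ⟨T, hT, h⟩ := exists_gens (invL 𝒜 Γ) (Y.image fun y => dot (rv y) ∘ₗ ext (σr c)) (by
      intro φ hφ b hb
      obtain ⟨y, -, rfl⟩ := Finset.mem_image.1 hφ
      obtain ⟨β, -, rfl⟩ := hb
      rw [LinearMap.comp_apply, ext_rv]
      exact ⟨_, dot_int _ _⟩)
    refine ⟨T, hT, fun x => ?_⟩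
    rw [h, hY]
    simp only [Finset.forall_mem_image, LinearMap.comp_apply]
    rfl
  choose T hT hTc using hpiece
  refine ⟨Finset.univ.biUnion T, fun s hs => ?_, fun b hb => ?_⟩
  · obtain ⟨c, -, h1⟩ := Finset.mem_biUnion.1 hs
    have h2 := (hTc c s).1 (mem_cone_self h1)
    refine ⟨KQ_inter D hQ hgal ?_ h2.1, hT c s h1⟩
    exact map_KQt' D (hrep𝒮 c) (hσr c) (cone_KQ (fun a ha => (hS a ha).1) h2.2)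
  · obtain ⟨t, ht, hbt⟩ := hb
    have hu0 : u ∈ LG 𝒜 Γ := hQ.inv
    have hle : LG 𝒜 Γ ≤ (⊤ : AddSubgroup (Cl ρ)) := le_top
    have hbH : b ∈ HQ 𝒬 (LG 𝒜 Γ) := D.interior hu0 ht hbt
    have hbB : b ∈ Bs 𝒜 Γ := by
      have h0 : b ∈ UL (LG 𝒜 Γ) := KQ_sub_UL (KQ_of_HQ hbH)
      exact h0
    have hbt' : b - t • rv u ∈ KQ 𝒬 ⊤ := KQ_le hle hbt
    have hbH' : b ∈ HQ 𝒬 ⊤ := HQ_le hle hbH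
    have hbcp : b ∈ Cp (ZL ρ) (KQ 𝒬 ⊤) := (hcp b).1 ⟨KQ_of_HQ hbH', D.HQ_sub_EQ hbH'⟩
    obtain ⟨φ, hφ, σ, hσ, hσb⟩ := hScov b hbcp
    -- the image is an interior point
    have hint : ∃ t' : ℝ, 0 < t' ∧ ext σ b - t' • rv u ∈ KQ 𝒬 ⊤ := by
      obtain ⟨C, hC, h1⟩ := D.absorb (Λ := ⊤) (AddSubgroup.mem_top u) (rv (σ.symm u))
        (UL_top ρ _)
      have h2 := map_KQt D hφ hσ (KQ_of_HQ h1)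
      rw [map_sub, map_smul, ext_rv, ext_rv, σ.apply_symm_apply] at h2
      have h3 := map_KQt D hφ hσ hbt'
      rw [map_sub, map_smul, ext_rv] at h3
      have h4 := cl_add h3 (cl_smul (t := t / C) (by positivity) h2)
      refine ⟨t / C, by positivity, ?_⟩
      have h5 : ext σ b - t • rv (σ u) + (t / C) • (C • rv (σ u) - rv u)
          = ext σ b - (t / C) • rv u := by
        have h6 : t / C * C = t := div_mul_cancel₀ t hC.ne'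
        rw [smul_sub, smul_smul, h6]
        abel
      rwa [h5] at h4
    -- the conjugates of the finite group
    have hconj : ∀ g : gal Γ, ∃ χ : Ψ, φ * g.1 * φ⁻¹ * χ.1⁻¹ ∈ Scal 𝒜 := by
      intro g
      have h1 : Induces 𝒜 (φ * g.1 * φ⁻¹) (σ.symm.trans ((perm hQ g).trans σ)) :=
        ind_mul (ind_mul hσ (perm_spec hQ g)) (ind_inv hσ)
      have h𝒮 : φ * g.1 * φ⁻¹ ∈ 𝒮 := 𝒮.mul_mem (𝒮.mul_mem hφ (hgal g.2)) (𝒮.inv_mem hφ)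
      obtain ⟨χ, hχ, h2⟩ := hreps _ h𝒮 _ h1 ⟨⟨_, h𝒮, _, h1, rfl⟩, ext σ b, hσb, hint, by
        rw [extE_apply, ext_trans, ext_trans, ext_symm,
          ext_inv (fun β hβ => perm_inv hQ g hβ) hbB]⟩
      exact ⟨⟨χ, hχ⟩, h2⟩
    choose c₁ hc using hconj
    obtain ⟨h₁, hh₁, hh₂⟩ := hfi φ hφ
    set c : (gal Γ → Ψ) × T₁ := (c₁, ⟨h₁, hh₁⟩) with hcdef
    have hQφ : Qp φ c := ⟨hφ, hc, hh₂⟩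
    have hQr := hrepc φ c hQφ
    set ω := repc c with hω
    -- the automorphism `θ`
    have hθ : Induces 𝒜 (ω⁻¹ * φ) (σ.trans (σr c).symm) := ind_mul (ind_inv (hσr c)) hσ
    have hnorm : NormalizesX 𝒜 Γ (1, ω⁻¹ * φ) := by
      refine norm_of_comm hQ hθ fun g hg => ?_
      have h1 := hQφ.2.1 ⟨g, hg⟩
      have h2 := hQr.2.1 ⟨g, hg⟩
      have h3 := scal_conj' (hσr c) ((Scal 𝒜).mul_mem h1 ((Scal 𝒜).inv_mem h2))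
      have h4 : ω⁻¹ * (φ * g * φ⁻¹ * (c.1 ⟨g, hg⟩).1⁻¹ * (ω * g * ω⁻¹ * (c.1 ⟨g, hg⟩).1⁻¹)⁻¹) * ω
          = ω⁻¹ * φ * g * (ω⁻¹ * φ)⁻¹ * g⁻¹ := by group
      rwa [h4] at h3
    have h𝒮₁ : ω⁻¹ * φ ∈ 𝒮₁ := by
      have h1 := 𝒮₁.mul_mem (𝒮₁.inv_mem hQr.2.2) hQφ.2.2
      have h2 : (c.2.1⁻¹ * ω)⁻¹ * (c.2.1⁻¹ * φ) = ω⁻¹ * φ := by group
      rwa [h2] at h1
    refine ⟨ω⁻¹ * φ, ⟨𝒮.mul_mem (𝒮.inv_mem (hrep𝒮 c)) hφ, h𝒮₁, hnorm⟩, _, hθ, fun β hβ => ?_,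
      fun β hβ => ?_, ?_⟩
    · exact NormalizesX.inv D.gens hQ.perm hnorm hθ hβ
    · exact NormalizesX.inv' D.gens hQ.perm hnorm hθ hβ
    · refine cone_mono (Finset.subset_biUnion_of_mem T (Finset.mem_univ c)) ?_
      rw [hTc, ext_trans, ext_symm']
      refine ⟨?_, hσb⟩
      have h5 : ∀ b ∈ Bs 𝒜 Γ, ext (σ.trans (σr c).symm) b ∈ Bs 𝒜 Γ := by
        intro b hb
        induction hb using Submodule.span_induction with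
        | mem b hb =>
          obtain ⟨β, hβ, rfl⟩ := hb
          rw [ext_rv]
          exact Submodule.subset_span ⟨_, NormalizesX.inv D.gens hQ.perm hnorm hθ hβ, rfl⟩
        | zero => rw [map_zero]; exact Submodule.zero_mem _
        | add x y _ _ hx hy => rw [map_add]; exact Submodule.add_mem _ hx hy
        | smul c x _ hx => rw [map_smul]; exact Submodule.smul_mem _ c hx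
      have h6 := h5 b hbB
      rwa [ext_trans] at h6

/-- Descent, without a subgroup. -/
theorem descent (D : Sys 𝒜 u 𝒬 𝒮 d) (hQ : IsQuotient 𝒜 u Γ) (hgal : gal Γ ≤ 𝒮)
    {S₀ : Finset (Fin ρ → ℝ)} (hS₀ : ∀ s ∈ S₀, (s ∈ KQ 𝒬 ⊤ ∧ s ∈ EQ 𝒜 ⊤) ∧ ∃ β, s = rv β)
    (hcov : ∀ b, b ∈ KQ 𝒬 ⊤ → b ∈ EQ 𝒜 ⊤ → ∃ φ ∈ 𝒮, ∃ σ, Induces 𝒜 φ σ ∧ ext σ b ∈ cone S₀)
    (hker : FiniteKernel 𝒜 (𝒮 : Set (R ≃ₐ[ℂ] R))) :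
    PlusF 𝒜 Γ 𝒬 ∧ ∃ SF : Finset (Fin ρ → ℝ),
      (∀ s ∈ SF, s ∈ KQ 𝒬 (LG 𝒜 Γ) ∧ ∃ β, Inv 𝒜 Γ β ∧ s = rv β) ∧
      ∀ b, (∃ t : ℝ, 0 < t ∧ b - t • rv u ∈ KQ 𝒬 (LG 𝒜 Γ)) →
        ∃ φ ∈ {φ : R ≃ₐ[ℂ] R | φ ∈ 𝒮 ∧ NormalizesX 𝒜 Γ (1, φ)}, ∃ σ,
          Induces 𝒜 φ σ ∧ (∀ β, Inv 𝒜 Γ β → Inv 𝒜 Γ (σ β)) ∧
          (∀ β, Inv 𝒜 Γ β → Inv 𝒜 Γ (σ.symm β)) ∧ ext σ b ∈ cone SF := by
  obtain ⟨h1, SF, h2, h3⟩ := descent' D hQ hgal (𝒮₁ := 𝒮) (Set.finite_singleton 1)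
    (fun φ hφ => ⟨1, rfl, by rwa [inv_one, one_mul]⟩) hS₀ hcov hker
  refine ⟨h1, SF, h2, fun b hb => ?_⟩
  obtain ⟨φ, hφ, h⟩ := h3 b hb
  exact ⟨φ, ⟨hφ.1, hφ.2.2⟩, h⟩

end Pool.Agent.X324.CG
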