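import Pool.Agent.X324.CG.Core

/-!
# Semiample and movable classes of `F`
-/

set_option autoImplicit false
set_option linter.unusedSectionVars false

namespace Pool.Agent.X324.CG

open Finset Filter Topology
open Pool.Agent.W594.SYZ2 Pool.Agent.W594.SYZ2.TQ Pool.Agent.TH735.AQ
open Pool.Agent.X324.CF
open Pool.Agent.Y167 (cone)

section F

variable {R : Type*} [CommRing R] [IsDomain R] [Algebra ℂ R] {ρ : ℕ}
  {𝒜 : Cl ρ → Submodule ℂ R} [GradedAlgebra 𝒜] {u : Cl ρ}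

theorem IsCoxRing.gens (hF : IsCoxRing 𝒜 u) :
    ∀ H : AddSubgroup (Cl ρ), (∀ β, (∃ r ∈ 𝒜 β, r ≠ 0) → β ∈ H) → H = ⊤ := fun H hH => by
  rw [eq_top_iff]
  intro β _
  obtain ⟨m, h1, h2⟩ := hF.sections β
  have h3 := H.sub_mem (hH _ h1) (hH _ h2)
  rwa [add_sub_cancel_right] at h3

/-- Semiample classes have nonzero sections. -/
theorem IsCoxRing.semi_eff (hF : IsCoxRing 𝒜 u) {β : Cl ρ} (h : SemiampleF 𝒜 u β) :
    ∃ k : ℕ, 0 < k ∧ ∃ r ∈ 𝒜 (k • β), r ≠ 0 := by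
  obtain ⟨m, hm, h1⟩ := h
  obtain ⟨p, hp⟩ := hF.point
  obtain ⟨r, hr, hr0⟩ := h1 p hp
  exact ⟨m, hm, r, hr, fun h => hr0 (by rw [h, map_zero])⟩

/-- The group of the automorphisms of `F`. -/
def autF (𝒜 : Cl ρ → Submodule ℂ R) [GradedAlgebra 𝒜] (u : Cl ρ) : Subgroup (R ≃ₐ[ℂ] R) where
  carrier := {φ | IsAut 𝒜 u φ}
  one_mem' := ⟨⟨_, ind_one⟩, fun _ => Iff.rfl⟩
  mul_mem' := by
    rintro φ ψ ⟨⟨σ, hσ⟩, h1⟩ ⟨⟨τ, hτ⟩, h2⟩
    refine ⟨⟨_, ind_mul hσ hτ⟩, fun p => ?_⟩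
    have h3 : p.comp ((φ * ψ : R ≃ₐ[ℂ] R) : R →ₐ[ℂ] R)
        = (p.comp (φ : R →ₐ[ℂ] R)).comp (ψ : R →ₐ[ℂ] R) := rfl
    rw [h3, h1, h2]
  inv_mem' := by
    rintro φ ⟨⟨σ, hσ⟩, h1⟩
    refine ⟨⟨_, ind_inv hσ⟩, fun p => ?_⟩
    have h2 := h1 (p.comp ((φ⁻¹ : R ≃ₐ[ℂ] R) : R →ₐ[ℂ] R))
    have h3 : (p.comp ((φ⁻¹ : R ≃ₐ[ℂ] R) : R →ₐ[ℂ] R)).comp (φ : R →ₐ[ℂ] R) = p := by
      ext r
      change p (φ.symm (φ r)) = p r
      rw [φ.symm_apply_apply]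
    rw [h3] at h2
    exact h2.symm

/-- The group of the pseudo-automorphisms of `F`. -/
def psautF (𝒜 : Cl ρ → Submodule ℂ R) [GradedAlgebra 𝒜] : Subgroup (R ≃ₐ[ℂ] R) where
  carrier := {φ | IsPsAut 𝒜 φ}
  one_mem' := ⟨_, ind_one⟩
  mul_mem' := by
    rintro φ ψ ⟨σ, hσ⟩ ⟨τ, hτ⟩
    exact ⟨_, ind_mul hσ hτ⟩
  inv_mem' := by
    rintro φ ⟨σ, hσ⟩
    exact ⟨_, ind_inv hσ⟩

/-- The semiample classes. -/
theorem IsCoxRing.sys_nef (hF : IsCoxRing 𝒜 u) {𝒮 : Subgroup (R ≃ₐ[ℂ] R)}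
    (h𝒮 : ∀ φ ∈ 𝒮, IsAut 𝒜 u φ) : ∃ d, Sys 𝒜 u {β | SemiampleF 𝒜 u β} 𝒮 d := by
  obtain ⟨d, hd⟩ := hF.degree
  refine ⟨d,
    { gens := hF.gens
      zero := SemiampleF.zero
      add := fun β h β' h' => SemiampleF.add h h'
      amp := fun β => ?_
      bound := hd
      eff := fun β h => hF.semi_eff h
      ind := fun φ hφ => (h𝒮 φ hφ).1
      pres := fun φ hφ σ hσ β hβ => ?_ }⟩
  · obtain ⟨m, hm⟩ := hF.ample β
    exact ⟨m, 1, one_pos, by rw [one_smul]; exact hm⟩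
  · obtain ⟨m, hm, h1⟩ := hβ
    refine ⟨m, hm, fun p hp => ?_⟩
    obtain ⟨r, hr, hr0⟩ := h1 _ (((h𝒮 φ hφ).2 p).1 hp)
    refine ⟨φ r, ?_, hr0⟩
    have h2 := hσ _ r hr
    rwa [map_nsmul] at h2

theorem MovableF.ne {β : Cl ρ} (h : MovableF 𝒜 β) : ∃ r ∈ 𝒜 β, r ≠ 0 := by
  by_contra hcon
  push Not at hcon
  exact not_isUnit_zero (h 0 0 (Submodule.zero_mem _) fun r hr => by rw [hcon r hr])

theorem MovableF.add (hF : IsCoxRing 𝒜 u) {β β' : Cl ρ} (h : MovableF 𝒜 β) (h' : MovableF 𝒜 β') :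
    MovableF 𝒜 (β + β') := by
  intro γ E hE hdiv
  by_contra hcon
  obtain ⟨r, hr, hr0⟩ := h.ne
  obtain ⟨s, hs, hs0⟩ := h'.ne
  have hE0 : E ≠ 0 := by
    rintro rfl
    have h1 := hdiv _ (SetLike.mul_mem_graded hr hs)
    rw [zero_dvd_iff] at h1
    exact mul_ne_zero hr0 hs0 h1
  obtain ⟨γ', q, hq, hqp, hqE⟩ := hF.factor γ E hE hE0 hcon
  have h1 : ∃ r ∈ 𝒜 β, ¬ q ∣ r := by
    by_contra hno
    push Not at hno
    exact hqp.not_isUnit (h γ' q hq hno)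
  have h2 : ∃ s ∈ 𝒜 β', ¬ q ∣ s := by
    by_contra hno
    push Not at hno
    exact hqp.not_isUnit (h' γ' q hq hno)
  obtain ⟨r, hr, hqr⟩ := h1
  obtain ⟨s, hs, hqs⟩ := h2
  rcases hqp.dvd_or_dvd (hqE.trans (hdiv _ (SetLike.mul_mem_graded hr hs))) with h3 | h3
  · exact hqr h3
  · exact hqs h3

/-- The movable classes. -/
theorem IsCoxRing.sys_mov (hF : IsCoxRing 𝒜 u) {𝒮 : Subgroup (R ≃ₐ[ℂ] R)}
    (h𝒮 : ∀ φ ∈ 𝒮, IsPsAut 𝒜 φ) : ∃ d, Sys 𝒜 u {β | MovableF 𝒜 β} 𝒮 d := by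
  obtain ⟨d, hd⟩ := hF.degree
  refine ⟨d,
    { gens := hF.gens
      zero := fun β' E hE hdiv => isUnit_of_dvd_one (hdiv 1 SetLike.GradedOne.one_mem)
      add := fun β h β' h' => MovableF.add hF h h'
      amp := fun β => ?_
      bound := hd
      eff := fun β h => ⟨1, one_pos, by rw [one_smul]; exact MovableF.ne h⟩
      ind := fun φ hφ => h𝒮 φ hφ
      pres := fun φ hφ σ hσ β hβ => ?_ }⟩
  · obtain ⟨m, k, hk, h1⟩ := hF.ample β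
    refine ⟨m, k, hk, fun γ E hE hdiv => hF.vanish γ E hE fun p hp h0 => ?_⟩
    obtain ⟨r, hr, hr0⟩ := h1 p hp
    obtain ⟨l, hl⟩ := hdiv r hr
    exact hr0 (by rw [hl, map_mul, h0, zero_mul])
  · intro γ E hE hdiv
    have h1 := hβ _ (φ⁻¹ E) (ind_inv hσ γ E hE) fun s hs => by
      obtain ⟨l, hl⟩ := hdiv (φ s) (hσ β s hs)
      refine ⟨φ⁻¹ l, φ.injective ?_⟩
      have h2 : ∀ x, φ (φ⁻¹ x) = x := fun x => φ.apply_symm_apply x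
      rw [map_mul, h2, h2]
      exact hl
    have h2 := h1.map φ
    have h3 : φ (φ⁻¹ E) = E := φ.apply_symm_apply E
    rwa [h3] at h2

end F

variable {V E R : Type*} [NormedAddCommGroup V] [NormedSpace ℂ V] [FiniteDimensional ℂ V]
  [NormedAddCommGroup E] [NormedSpace ℂ E] [FiniteDimensional ℂ E] [CommRing R] [IsDomain R]
  [Algebra ℂ R] {ρ : ℕ}
  {𝒜 : Cl ρ → Submodule ℂ R} [GradedAlgebra 𝒜] {Γ : Grp V R}
  {u : Cl ρ} {j : E →ₗ[ℂ] V}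

/-- The automorphisms which occur in `Γ` are automorphisms of `F`. -/
theorem gal_aut (hQ : IsQuotient 𝒜 u Γ) {φ : R ≃ₐ[ℂ] R} (hφ : φ ∈ gal Γ) : IsAut 𝒜 u φ := by
  obtain ⟨γ, hγ, h1⟩ := id hφ
  refine ⟨?_, fun p => ⟨fun hp => semistable_comp hQ hp hφ, fun hp => ?_⟩⟩
  · obtain ⟨σ, hσ⟩ := hQ.perm γ hγ
    have h2 : γ.2 = φ := h1
    rw [h2] at hσ
    exact ⟨σ, hσ⟩
  · have h2 := semistable_comp hQ hp ((gal Γ).inv_mem hφ)
    have h3 : (p.comp (φ : R →ₐ[ℂ] R)).comp ((φ⁻¹ : R ≃ₐ[ℂ] R) : R →ₐ[ℂ] R) = p := by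
      ext r
      change p (φ (φ.symm r)) = p r
      rw [φ.apply_symm_apply]
    rwa [h3] at h2

/-- The semiample classes of `X`. -/
theorem IsCoxRing.good_nef (hF : IsCoxRing 𝒜 u) (hQ : IsQuotient 𝒜 u Γ)
    (D : Base 𝒜 (Fin.elim0 : Fin 0 → Cl ρ)) :
    Good2 {β | SemiampleF 𝒜 u β} (semiample 𝒜 Γ j u) where
  form := by
    rintro a ⟨𝓛, hc, m, hm, h1⟩ e
    have hmr : (0 : ℝ) < m := by exact_mod_cast hm
    obtain ⟨p, hp⟩ := hF.point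
    obtain ⟨f, hf, hf0⟩ := h1 0 p hp
    obtain ⟨⟨H, hH, h2⟩, -⟩ := hc
    have h4 := Sheaf.nef_of_section hQ (Sheaf.chern_pow hH m) hf.sec ⟨0, fun h => hf0 (by
      rw [h, map_zero])⟩ (j e)
    have e2 : (m : ℂ) = ((m : ℝ) : ℂ) := by push_cast; rfl
    rw [e2, Complex.re_ofReal_mul] at h4
    rw [h2]
    exact nonneg_of_mul_nonneg_right h4 hmr
  sub := by
    rintro a ⟨𝓛, hc, m, hm, h1⟩
    refine ⟨𝓛.deg, ⟨m, hm, fun p hp => ?_⟩, 𝓛.inv, funext hc.2⟩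
    obtain ⟨f, hf, hf0⟩ := h1 0 p hp
    exact ⟨f 0, hf.mem 0, hf0⟩
  bpf := fun _ hs _ ha => bpf_semiample hs ha
  deg := by
    classical
    rintro β ⟨m, hm, h1⟩ hβ
    have := hQ.fin_gal
    have : Fintype (gal Γ) := Fintype.ofFinite _
    obtain ⟨a, ha1, ha2⟩ := exists_degclass (j := j) D hQ hβ m
    have hbpf : ∀ p, Semistable 𝒜 u p → ∃ r ∈ 𝒜 (m • β), p (nrm (gal Γ) r) ≠ 0 := by
      intro p hp
      refine exists_nonvanish (K := gal Γ) (𝒜 := 𝒜) (β := m • β) (p := p) fun φ => ?_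
      exact h1 _ (semistable_comp hQ hp φ.2)
    refine ⟨Nat.card (gal Γ) * m, Nat.mul_pos Nat.card_pos hm, a,
      ⟨_, ha1, 1, one_pos, fun v p hp => ?_⟩, ?_, ha2⟩
    · obtain ⟨r, hr, hr0⟩ := hbpf p hp
      exact ⟨_, Sheaf.pow_one_section (ofDeg_section hr), hr0⟩
    · obtain ⟨p, hp⟩ := hF.point
      obtain ⟨r, hr, hr0⟩ := hbpf p hp
      refine ⟨_, _, ha1, ofDeg_section hr, 0, fun h => hr0 ?_⟩
      beta_reduce at h
      rw [h, map_zero]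

/-- The norms of the sections of a movable class have no common divisor. -/
theorem unit_of_dvd_nrm2 (hF : IsCoxRing 𝒜 u) (hQ : IsQuotient 𝒜 u Γ) [Fintype (gal Γ)] {β : Cl ρ}
    (hm : MovableF 𝒜 β) {γ : Cl ρ} {h : R} (hh0 : h ∈ 𝒜 γ)
    (hh : ∀ r ∈ 𝒜 β, h ∣ nrm (gal Γ) r) : IsUnit h := by
  classical
  by_contra hcon
  obtain ⟨r₀, hr₀, hr₀0⟩ := hm.ne
  have h0 : h ≠ 0 := by
    rintro rfl
    have h1 := hh r₀ hr₀
    rw [zero_dvd_iff] at h1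
    exact nrm_ne_zero hr₀0 h1
  obtain ⟨γ', q, hq, hqp, hqh⟩ := hF.factor γ h hh0 h0 hcon
  -- one of the conjugates divides all
  have h2 : ∃ ψ : gal Γ, ∀ r ∈ 𝒜 β, ψ.1⁻¹ q ∣ r := by
    by_contra hno
    push Not at hno
    let sub : gal Γ → Submodule ℂ (𝒜 β) := fun ψ =>
      { carrier := {r | ψ.1⁻¹ q ∣ r.1}
        add_mem' := fun ha hb => dvd_add ha hb
        zero_mem' := dvd_zero _
        smul_mem' := fun c r hr => by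
          change ψ.1⁻¹ q ∣ c • r.1
          rw [Algebra.smul_def]
          exact Dvd.dvd.mul_left hr _ }
    obtain ⟨r, hr⟩ := avoidC (Finset.univ : Finset (gal Γ)) sub (by
      intro ψ _ htop
      obtain ⟨r, hr, hr'⟩ := hno ψ
      apply hr'
      have h3 : (⟨r, hr⟩ : 𝒜 β) ∈ sub ψ := by rw [htop]; trivial
      exact h3)
    have h4 := hqh.trans (hh r.1 r.2)
    rw [nrm] at h4
    obtain ⟨φ, -, l, hl⟩ := (hqp.dvd_finset_prod_iff _).1 h4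
    refine hr φ (Finset.mem_univ _) ⟨φ.1⁻¹ l, ?_⟩
    rw [← map_mul, ← hl]
    exact (φ.1.symm_apply_apply _).symm
  obtain ⟨ψ, hψ⟩ := h2
  obtain ⟨⟨σ, hσ⟩, -⟩ := gal_aut hQ ψ.2
  have h3 : IsUnit (ψ.1⁻¹ q) := hm _ _ (ind_inv hσ γ' q hq) hψ
  have h4 := h3.map ψ.1
  have h5 : ψ.1 (ψ.1⁻¹ q) = q := ψ.1.apply_symm_apply q
  rw [h5] at h4
  exact hqp.not_isUnit h4

/-- The movable classes of `X`. -/
theorem IsCoxRing.good_mov (hF : IsCoxRing 𝒜 u) (hQ : IsQuotient 𝒜 u Γ)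
    (D : Base 𝒜 (Fin.elim0 : Fin 0 → Cl ρ)) :
    Good2 {β | MovableF 𝒜 β} (movable 𝒜 Γ j) where
  form := by
    rintro a ⟨𝓛, hc, hm⟩ e
    have h1 : ∃ f, 𝓛.IsSection f ∧ ∃ v, f v ≠ 0 := by
      by_contra hcon
      push Not at hcon
      have h2 := hm 0 (fun _ => 0) (fun _ => Submodule.zero_mem _) (holo_const 0)
        (fun f hf v => by rw [hcon f hf v]) 0
      exact not_isUnit_zero h2
    obtain ⟨f, hf, h0⟩ := h1
    exact effective_form hQ ⟨𝓛, f, hc, hf, h0⟩ e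
  sub := by
    rintro a ⟨𝓛, hc, hm⟩
    refine ⟨𝓛.deg, fun β' E hE hdiv => ?_, 𝓛.inv, funext hc.2⟩
    exact hm β' (fun _ => E) (fun _ => hE) (holo_const E) (fun f hf v => hdiv _ (hf.mem v)) 0
  bpf := fun _ hs _ ha => bpf_movable hs ha
  deg := by
    classical
    intro β hβm hβ
    have := hQ.fin_gal
    have : Fintype (gal Γ) := Fintype.ofFinite _
    obtain ⟨a, ha1, ha2⟩ := exists_degclass (j := j) D hQ hβ 1
    have hm : MovableF 𝒜 (1 • β) := by rw [one_smul]; exact hβm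
    refine ⟨Nat.card (gal Γ) * 1, by rw [mul_one]; exact Nat.card_pos, a, ⟨_, ha1, ?_⟩, ?_, ha2⟩
    · intro β₀ E hE _ hdiv v
      exact unit_of_dvd_nrm2 hF hQ hm (hE v) fun r hr => hdiv _ (ofDeg_section hr) v
    · obtain ⟨r, hr, hr0⟩ := hm.ne
      exact ⟨_, _, ha1, ofDeg_section hr, 0, nrm_ne_zero hr0⟩

end Pool.Agent.X324.CG
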