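import Pool.Agent.X324.CG.Prod

/-!
# The reduction theorem
-/

set_option autoImplicit false
set_option linter.unusedSectionVars false

namespace Pool.Agent.X324.CG

open Finset Filter Topology
open Pool.Agent.W594.SYZ2 Pool.Agent.W594.SYZ2.TQ Pool.Agent.TH735.AQ
open Pool.Agent.X324.CF
open Pool.Agent.Y167 (cone cone_add cone_smul cone_le cone_mono cone_sum mem_cone_self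
  zero_mem_cone cone_image cone_ind cone_of_scaled mem_cone_of_sum Rel Pol Cp CData IsFace)
open Pool.Agent.Y167.CC (LinGrp Preserves IsFundDomain)

variable {V E R : Type*} [NormedAddCommGroup V] [NormedSpace ℂ V] [FiniteDimensional ℂ V]
  [NormedAddCommGroup E] [NormedSpace ℂ E] [FiniteDimensional ℂ E] [CommRing R] [IsDomain R]
  [Algebra ℂ R] {ρ : ℕ}
  {𝒜 : Cl ρ → Submodule ℂ R} [GradedAlgebra 𝒜] {Γ : Grp V R}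
  {u : Cl ρ} {j : E →ₗ[ℂ] V} {H₀ : V → V → ℂ} {𝒬 : Set (Cl ρ)} {𝒮 : Subgroup (R ≃ₐ[ℂ] R)}
  {d : Fin ρ → ℤ}

/-- The general form of the reduction. -/
theorem main4 (D : Sys 𝒜 u 𝒬 𝒮 d) (hQ : IsQuotient 𝒜 u Γ) (hgal : gal Γ ≤ 𝒮)
    {𝒮₁ : Subgroup (R ≃ₐ[ℂ] R)} {T₁ : Set (R ≃ₐ[ℂ] R)} (hT₁ : T₁.Finite)
    (hfi : ∀ φ ∈ 𝒮, ∃ h ∈ T₁, h⁻¹ * φ ∈ 𝒮₁)
    {S₀ : Finset (Fin ρ → ℝ)} (hS₀ : ∀ s ∈ S₀, (s ∈ KQ 𝒬 ⊤ ∧ s ∈ EQ 𝒜 ⊤) ∧ ∃ β, s = rv β)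
    (hcov : ∀ b, b ∈ KQ 𝒬 ⊤ → b ∈ EQ 𝒜 ⊤ → ∃ φ ∈ 𝒮, ∃ σ, Induces 𝒜 φ σ ∧ ext σ b ∈ cone S₀)
    (hker : FiniteKernel 𝒜 (𝒮 : Set (R ≃ₐ[ℂ] R)))
    (Rl : Rel (base Γ) j H₀) {P : Set (N1 𝒜 Γ j)} (hP : Good2 𝒬 P)
    (Fx : Elt V R → Prop)
    (hFx : ∀ (m : ℕ) (g : E ≃ₗ[ℂ] E), Pol.IsGood (Pool.Agent.Y167.lattE (base Γ) j)
      (Pool.Agent.Y167.opE (base Γ) j) m g → ∀ f : V ≃ᵃ[ℂ] V,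
        (∀ v, ∃ e, f v = v + j (g e - e)) → Fx (f, 1))
    (hFφ : ∀ φ ∈ 𝒮, φ ∈ 𝒮₁ → Fx (1, φ))
    (𝒢 : LinGrp (N1 𝒜 Γ j)) (hint : Preserves 𝒢 (integral 𝒜 Γ j))
    (hcone : Preserves 𝒢 (closure (coneHull P) ∩ effCone 𝒜 Γ j))
    (haut : ∀ a : Elt V R, NormalizesX 𝒜 Γ a → a.2 ∈ 𝒮 → (∀ v, ∃ e, a.1 v = v + j e) → Fx a →
      ∀ g : N1 𝒜 Γ j ≃ₗ[ℝ] N1 𝒜 Γ j, IsPullbackX a g → g ∈ 𝒢) :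
    (∃ S : Finset (N1 𝒜 Γ j), ↑S ⊆ integral 𝒜 Γ j ∧
      cone S ⊆ closure (coneHull P) ∩ effCone 𝒜 Γ j ∧
      IsFundDomain 𝒢 (closure (coneHull P) ∩ effCone 𝒜 Γ j) (cone S)) ∧
    closure (coneHull P) ∩ effCone 𝒜 Γ j = convexHull ℝ (closure (coneHull P) ∩
      {x | ∃ n : ℕ, 0 < n ∧ (n : ℝ) • x ∈ integral 𝒜 Γ j}) ∧
    ∃ 𝓕 : Set (Set (N1 𝒜 Γ j)), 𝓕.Finite ∧
      (∀ F ∈ 𝓕, IsFace F (closure (coneHull P) ∩ effCone 𝒜 Γ j)) ∧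
      ∀ F, IsFace F (closure (coneHull P) ∩ effCone 𝒜 Γ j) →
        ∃ g ∈ 𝒢, ∃ F' ∈ 𝓕, F = g '' F' := by
  obtain ⟨hPF, SF, hSF, hcovF⟩ := descent' D hQ hgal hT₁ hfi hS₀ hcov hker
  obtain ⟨S, h1, h2, h3⟩ := core2 D hQ hPF Rl hP hSF hcovF (fun f => Fx (f, 1)) hFx 𝒢 hint hcone
    (fun f hf hf2 hf3 g hg => by
      refine haut (f, 1) ⟨fun γ hγ => ?_, fun γ hγ => ?_⟩ 𝒮.one_mem hf2 hf3 g fun x =>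
        ⟨(hg x).1, fun σ hσ => ?_⟩
      · refine ⟨_, (hf γ).1 hγ, 1, (Scal 𝒜).one_mem, ?_⟩
        have h0 : ((1, 1) : Elt V R) = 1 := rfl
        rw [h0, mul_one]
      · refine ⟨(f, 1)⁻¹ * γ * (f, 1), (hf _).2 ?_, 1, (Scal 𝒜).one_mem, ?_⟩
        · have h0 : (f, (1 : R ≃ₐ[ℂ] R)) * ((f, 1)⁻¹ * γ * (f, 1)) * (f, 1)⁻¹ = γ := by group
          rwa [h0]
        · have h0 : ((1, 1) : Elt V R) = 1 := rfl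
          rw [h0, mul_one]
      · have h0 : σ = AddEquiv.refl _ := ind_unique D.gens hσ ind_one
        rw [h0, ext_refl]
        exact (hg x).2)
    (fun φ hφ σ hσ g hg => by
      refine haut (1, φ) hφ.2.2 hφ.1 (fun v => ⟨0, ?_⟩) (hFφ φ hφ.1 hφ.2.1) g fun x =>
        ⟨fun v w v' w' hv hw => ?_, fun τ hτ => ?_⟩
      · rw [map_zero, add_zero]
        rfl
      · have h1 : j v' = j v := hv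
        have h2 : j w' = j w := hw
        rw [(hg x).1, Rl.inj h1, Rl.inj h2]
      · have h0 : τ = σ := ind_unique D.gens hτ hσ
        rw [h0]
        exact (hg x).2)
  exact ⟨⟨S, h1, h2, h3⟩, plus2 D hQ hPF Rl hP, faces2 D hQ Rl hP 𝒢 hcone h2 h3⟩

/-- The general form of the reduction, without a subgroup. -/
theorem main3 (D : Sys 𝒜 u 𝒬 𝒮 d) (hQ : IsQuotient 𝒜 u Γ) (hgal : gal Γ ≤ 𝒮)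
    {S₀ : Finset (Fin ρ → ℝ)} (hS₀ : ∀ s ∈ S₀, (s ∈ KQ 𝒬 ⊤ ∧ s ∈ EQ 𝒜 ⊤) ∧ ∃ β, s = rv β)
    (hcov : ∀ b, b ∈ KQ 𝒬 ⊤ → b ∈ EQ 𝒜 ⊤ → ∃ φ ∈ 𝒮, ∃ σ, Induces 𝒜 φ σ ∧ ext σ b ∈ cone S₀)
    (hker : FiniteKernel 𝒜 (𝒮 : Set (R ≃ₐ[ℂ] R)))
    (Rl : Rel (base Γ) j H₀) {P : Set (N1 𝒜 Γ j)} (hP : Good2 𝒬 P)
    (Fx : Elt V R → Prop)
    (hFx : ∀ (m : ℕ) (g : E ≃ₗ[ℂ] E), Pol.IsGood (Pool.Agent.Y167.lattE (base Γ) j)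
      (Pool.Agent.Y167.opE (base Γ) j) m g → ∀ f : V ≃ᵃ[ℂ] V,
        (∀ v, ∃ e, f v = v + j (g e - e)) → Fx (f, 1))
    (hFφ : ∀ φ ∈ 𝒮, Fx (1, φ))
    (𝒢 : LinGrp (N1 𝒜 Γ j)) (hint : Preserves 𝒢 (integral 𝒜 Γ j))
    (hcone : Preserves 𝒢 (closure (coneHull P) ∩ effCone 𝒜 Γ j))
    (haut : ∀ a : Elt V R, NormalizesX 𝒜 Γ a → a.2 ∈ 𝒮 → (∀ v, ∃ e, a.1 v = v + j e) → Fx a →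
      ∀ g : N1 𝒜 Γ j ≃ₗ[ℝ] N1 𝒜 Γ j, IsPullbackX a g → g ∈ 𝒢) :
    (∃ S : Finset (N1 𝒜 Γ j), ↑S ⊆ integral 𝒜 Γ j ∧
      cone S ⊆ closure (coneHull P) ∩ effCone 𝒜 Γ j ∧
      IsFundDomain 𝒢 (closure (coneHull P) ∩ effCone 𝒜 Γ j) (cone S)) ∧
    closure (coneHull P) ∩ effCone 𝒜 Γ j = convexHull ℝ (closure (coneHull P) ∩
      {x | ∃ n : ℕ, 0 < n ∧ (n : ℝ) • x ∈ integral 𝒜 Γ j}) ∧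
    ∃ 𝓕 : Set (Set (N1 𝒜 Γ j)), 𝓕.Finite ∧
      (∀ F ∈ 𝓕, IsFace F (closure (coneHull P) ∩ effCone 𝒜 Γ j)) ∧
      ∀ F, IsFace F (closure (coneHull P) ∩ effCone 𝒜 Γ j) →
        ∃ g ∈ 𝒢, ∃ F' ∈ 𝓕, F = g '' F' :=
  main4 D hQ hgal (𝒮₁ := 𝒮) (Set.finite_singleton 1)
    (fun φ hφ => ⟨1, rfl, by rwa [inv_one, one_mul]⟩) hS₀ hcov hker Rl hP Fx hFx
    (fun φ hφ _ => hFφ φ hφ) 𝒢 hint hcone haut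

section Prod

variable {κ : Type*} [DecidableEq κ] [Fintype κ] {c : Fin ρ → κ}

theorem cover_nef (hF : IsCoxRing 𝒜 u) (hprod : IsProduct 𝒜 c)
    (h𝒮 : ∀ φ ∈ 𝒮, IsAut 𝒜 u φ)
    (hcov : ∀ i, HasCover 𝒜 (nefF 𝒜 u c i ∩ effF 𝒜 c i) {φ | φ ∈ 𝒮 ∧ OnFactor 𝒜 c i φ}) :
    ∃ d, Sys 𝒜 u {β | SemiampleF 𝒜 u β} 𝒮 d ∧ ∃ S : Finset (Fin ρ → ℝ),
      (∀ s ∈ S, (s ∈ KQ {β | SemiampleF 𝒜 u β} ⊤ ∧ s ∈ EQ 𝒜 ⊤) ∧ ∃ β, s = rv β) ∧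
      ∀ b, b ∈ KQ {β | SemiampleF 𝒜 u β} ⊤ → b ∈ EQ 𝒜 ⊤ →
        ∃ φ ∈ 𝒮, ∃ σ, Induces 𝒜 φ σ ∧ ext σ b ∈ cone S := by
  obtain ⟨d, D⟩ := hF.sys_nef h𝒮
  refine ⟨d, D, cover_prod D (fun i β hβ => hprod.semi i hβ) hprod.eff fun i => ?_⟩
  obtain ⟨S, hS, h⟩ := hcov i
  refine ⟨S, hS, fun b hb hbE => ?_⟩
  obtain ⟨φ, hφ, h1⟩ := h b ⟨hb, hbE⟩
  exact ⟨φ, hφ.1, hφ.2, h1⟩

theorem cover_mov (hF : IsCoxRing 𝒜 u) (hprod : IsProduct 𝒜 c)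
    (h𝒮 : ∀ φ ∈ 𝒮, IsPsAut 𝒜 φ)
    (hcov : ∀ i, HasCover 𝒜 (movF 𝒜 c i ∩ effF 𝒜 c i) {φ | φ ∈ 𝒮 ∧ OnFactor 𝒜 c i φ}) :
    ∃ d, Sys 𝒜 u {β | MovableF 𝒜 β} 𝒮 d ∧ ∃ S : Finset (Fin ρ → ℝ),
      (∀ s ∈ S, (s ∈ KQ {β | MovableF 𝒜 β} ⊤ ∧ s ∈ EQ 𝒜 ⊤) ∧ ∃ β, s = rv β) ∧
      ∀ b, b ∈ KQ {β | MovableF 𝒜 β} ⊤ → b ∈ EQ 𝒜 ⊤ →
        ∃ φ ∈ 𝒮, ∃ σ, Induces 𝒜 φ σ ∧ ext σ b ∈ cone S := by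
  obtain ⟨d, D⟩ := hF.sys_mov h𝒮
  refine ⟨d, D, cover_prod D (fun i β hβ => hprod.mov i hβ) hprod.eff fun i => ?_⟩
  obtain ⟨S, hS, h⟩ := hcov i
  refine ⟨S, hS, fun b hb hbE => ?_⟩
  obtain ⟨φ, hφ, h1⟩ := h b ⟨hb, hbE⟩
  exact ⟨φ, hφ.1, hφ.2, h1⟩

end Prod

end Pool.Agent.X324.CG
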