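import Pool.Agent.X324.CG.Fin

/-!
# Automorphisms which fix the components of the boundary
-/

set_option autoImplicit false
set_option linter.unusedSectionVars false

namespace Pool.Agent.X324.CG

open Pool.Agent.X324.CF

variable {V R : Type*} [NormedAddCommGroup V] [NormedSpace ℂ V] [CommRing R]
  [Algebra ℂ R] {ρ : ℕ} {𝒜 : Cl ρ → Submodule ℂ R} {Γ : Grp V R} {ι : Type*}

/-- The automorphisms of `F` which fix the components of the boundary. -/
def fixGrp (Δ : EffDiv 𝒜 Γ ι) : Subgroup (R ≃ₐ[ℂ] R) where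
  carrier := {φ | FixedX Δ (1, φ)}
  one_mem' := fun i _ => ⟨fun _ => 1, differentiable_const _, fun _ => one_ne_zero, fun v => by
    rw [one_smul]
    rfl⟩
  mul_mem' := by
    intro φ ψ h1 h2 i hi
    obtain ⟨h, hh, hne, he⟩ := h1 i hi
    obtain ⟨h', hh', hne', he'⟩ := h2 i hi
    refine ⟨fun v => h v * h' v, hh.mul hh', fun v => mul_ne_zero (hne v) (hne' v), fun v => ?_⟩
    have e1 : Δ.s i v = h v • φ (Δ.s i v) := he v
    have e2 : Δ.s i v = h' v • ψ (Δ.s i v) := he' v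
    change Δ.s i v = (h v * h' v) • φ (ψ (Δ.s i v))
    conv_lhs => rw [e1, e2]
    rw [map_smul, smul_smul]
  inv_mem' := by
    intro φ h1 i hi
    obtain ⟨h, hh, hne, he⟩ := h1 i hi
    refine ⟨fun v => (h v)⁻¹, hh.inv hne, fun v => inv_ne_zero (hne v), fun v => ?_⟩
    have e1 : Δ.s i v = h v • φ (Δ.s i v) := he v
    change Δ.s i v = (h v)⁻¹ • φ.symm (Δ.s i v)
    have e2 := congrArg φ.symm e1
    rw [map_smul, φ.symm_apply_apply] at e2
    rw [e2, smul_smul, inv_mul_cancel₀ (hne v), one_smul]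

theorem fixedX_aff {Δ : EffDiv 𝒜 Γ ι} {f : V ≃ᵃ[ℂ] V} (h : Δ.Fixed f) : FixedX Δ (f, 1) :=
  fun i hi => h i hi

end Pool.Agent.X324.CG
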