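import Pool.Agent.X324.CG.Sys
import Pool.Agent.X324.CF.Plus2

/-!
# Description of the cones of `X`
-/

set_option autoImplicit false
set_option linter.unusedSectionVars false

namespace Pool.Agent.X324.CG

open Finset Filter Topology
open Pool.Agent.W594.SYZ2 Pool.Agent.W594.SYZ2.TQ Pool.Agent.TH735.AQ
open Pool.Agent.X324.CF
open Pool.Agent.Y167 (cone cone_add cone_smul cone_le cone_mono cone_sum mem_cone_self
  zero_mem_cone cone_image cone_ind cone_of_scaled mem_cone_of_sum Rel Pol Cp CData)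

variable {V E R : Type*} [NormedAddCommGroup V] [NormedSpace ℂ V] [FiniteDimensional ℂ V]
  [NormedAddCommGroup E] [NormedSpace ℂ E] [FiniteDimensional ℂ E] [CommRing R] [IsDomain R]
  [Algebra ℂ R] {ρ : ℕ}
  {𝒜 : Cl ρ → Submodule ℂ R} [GradedAlgebra 𝒜] {Γ : Grp V R}
  {u : Cl ρ} {j : E →ₗ[ℂ] V} {H₀ : V → V → ℂ} {𝒬 : Set (Cl ρ)} {𝒮 : Subgroup (R ≃ₐ[ℂ] R)}
  {d : Fin ρ → ℤ}

/-- The invariant classes. -/
def LG (𝒜 : Cl ρ → Submodule ℂ R) (Γ : Grp V R) : AddSubgroup (Cl ρ) where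
  carrier := {β | Inv 𝒜 Γ β}
  zero_mem' := Inv.zero
  add_mem' := fun h h' => h.add h'
  neg_mem' := fun h => h.neg

theorem Bs_eq : Bs 𝒜 Γ = UL (LG 𝒜 Γ) := rfl

theorem Sys.base (D : Sys 𝒜 u 𝒬 𝒮 d) : Base 𝒜 (Fin.elim0 : Fin 0 → Cl ρ) where
  gens := D.gens
  pointed := fun _ _ => Subsingleton.elim _ _

/-- The cone of the classes with semidefinite form and degree in the cone of `F`. -/
def KK2 (𝒜 : Cl ρ → Submodule ℂ R) (Γ : Grp V R) (j : E →ₗ[ℂ] V) (𝒬 : Set (Cl ρ)) :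
    Set (N1 𝒜 Γ j) :=
  {a | (∀ e, 0 ≤ ((val a).1 e e).re) ∧ (val a).2 ∈ KQ 𝒬 (LG 𝒜 Γ)}

theorem KK2_zero : (0 : N1 𝒜 Γ j) ∈ KK2 𝒜 Γ j 𝒬 :=
  ⟨fun _ => le_refl (0 : ℝ), cl_zero⟩

theorem KK2_add {a b : N1 𝒜 Γ j} (ha : a ∈ KK2 𝒜 Γ j 𝒬) (hb : b ∈ KK2 𝒜 Γ j 𝒬) :
    a + b ∈ KK2 𝒜 Γ j 𝒬 := by
  refine ⟨fun e => ?_, cl_add ha.2 hb.2⟩
  change 0 ≤ ((val a).1 e e + (val b).1 e e).re
  rw [Complex.add_re]
  exact add_nonneg (ha.1 e) (hb.1 e)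

theorem KK2_smul {a : N1 𝒜 Γ j} {t : ℝ} (ht : 0 ≤ t) (ha : a ∈ KK2 𝒜 Γ j 𝒬) :
    t • a ∈ KK2 𝒜 Γ j 𝒬 := by
  refine ⟨fun e => ?_, cl_smul ht ha.2⟩
  change 0 ≤ (t • (val a).1 e e).re
  rw [Complex.smul_re]
  exact mul_nonneg ht (ha.1 e)

theorem KK2_closed : IsClosed (KK2 𝒜 Γ j 𝒬) := by
  have hval : Continuous (val : N1 𝒜 Γ j → Pairs E ρ) := continuous_subtype_val
  have h1 : KK2 𝒜 Γ j 𝒬 = (⋂ e : E, {a : N1 𝒜 Γ j | 0 ≤ ((val a).1 e e).re}) ∩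
      {a : N1 𝒜 Γ j | (val a).2 ∈ KQ 𝒬 (LG 𝒜 Γ)} := by
    ext a
    simp [KK2]
  rw [h1]
  refine IsClosed.inter (isClosed_iInter fun e => ?_) ?_
  · refine isClosed_le continuous_const (Complex.continuous_re.comp ?_)
    exact (continuous_apply e).comp ((continuous_apply e).comp (continuous_fst.comp hval))
  · exact isClosed_closure.preimage (continuous_snd.comp hval)

/-- A set of classes which contains sufficiently many classes. -/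
structure Good2 (𝒬 : Set (Cl ρ)) (P : Set (N1 𝒜 Γ j)) : Prop where
  form : ∀ a ∈ P, ∀ e, 0 ≤ ((val a).1 e e).re
  sub : ∀ a ∈ P, ∃ β ∈ 𝒬, Inv 𝒜 Γ β ∧ (val a).2 = rv β
  bpf : ∀ L : LineBundle (base Γ), (∀ v, ∃ s, L.IsSection s ∧ s v ≠ 0) →
    ∀ a : N1 𝒜 Γ j, IsClass j (Sheaf.ofLB L : Sheaf 𝒜 Γ) (val a) → a ∈ P
  deg : ∀ β ∈ 𝒬, Inv 𝒜 Γ β → ∃ M : ℕ, 0 < M ∧ ∃ a ∈ P,
    a ∈ effective 𝒜 Γ j ∧ val a = (0, (M : ℝ) • rv β)

theorem Good2.KK {P : Set (N1 𝒜 Γ j)} (hP : Good2 𝒬 P) : P ⊆ KK2 𝒜 Γ j 𝒬 := by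
  intro a ha
  obtain ⟨β, h1, h2, h3⟩ := hP.sub a ha
  refine ⟨hP.form a ha, ?_⟩
  rw [h3]
  exact KQ_of_HQ (HQ_mem h1 h2)

/-- Classes with form zero and degree in a cone. -/
theorem i2_cone (D : Base 𝒜 (Fin.elim0 : Fin 0 → Cl ρ)) (hQ : IsQuotient 𝒜 u Γ)
    {P : Set (N1 𝒜 Γ j)} {T : Set (Fin ρ → ℝ)}
    (hP : ∀ s ∈ T, ∃ M : ℕ, 0 < M ∧ ∃ a ∈ P, val a = (0, (M : ℝ) • s))
    {b : Bs 𝒜 Γ} (hb : b.1 ∈ coneHull T) : (i2 D hQ b : N1 𝒜 Γ j) ∈ coneHull P := by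
  have h1 : ∀ b, b ∈ coneHull T → ∃ a : N1 𝒜 Γ j, a ∈ coneHull P ∧ val a = (0, b) := by
    intro b hb
    refine hull_ind (p := fun b => ∃ a : N1 𝒜 Γ j, a ∈ coneHull P ∧ val a = (0, b)) ?_ ?_ ?_ ?_ hb
    · exact ⟨0, hull_zero, rfl⟩
    · rintro b c ⟨a, ha, h1⟩ ⟨a', ha', h2⟩
      refine ⟨a + a', hull_add ha ha', ?_⟩
      change val a + val a' = _
      rw [h1, h2, Prod.mk_add_mk, add_zero]
    · rintro t b ht ⟨a, ha, h1⟩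
      refine ⟨t • a, hull_smul ht ha, ?_⟩
      change t • val a = _
      rw [h1, Prod.smul_mk, smul_zero]
    · intro s hs
      obtain ⟨M, hM, a, ha, h3⟩ := hP s hs
      have hMr : (0 : ℝ) < M := by exact_mod_cast hM
      refine ⟨(M : ℝ)⁻¹ • a, hull_smul (inv_nonneg.2 hMr.le) (hull_mem ha), ?_⟩
      change (M : ℝ)⁻¹ • val a = _
      rw [h3, Prod.smul_mk, smul_zero, smul_smul, inv_mul_cancel₀ hMr.ne', one_smul]
  obtain ⟨a, ha, h2⟩ := h1 b.1 hb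
  have h3 : i2 D hQ b = a := by
    apply val_ext
    rw [h2, val_i2]
  rw [h3]
  exact ha

/-- Effective classes of degree in the effective cone. -/
theorem i2_eff (D : Base 𝒜 (Fin.elim0 : Fin 0 → Cl ρ)) (hQ : IsQuotient 𝒜 u Γ)
    {b : Bs 𝒜 Γ} (hb : b.1 ∈ EQ 𝒜 (LG 𝒜 Γ)) : (i2 D hQ b : N1 𝒜 Γ j) ∈ effCone 𝒜 Γ j := by
  classical
  have := hQ.fin_gal
  have : Fintype (gal Γ) := Fintype.ofFinite _
  refine i2_cone D hQ ?_ hb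
  rintro _ ⟨β, ⟨r, hr, hr0⟩, hβ, rfl⟩
  obtain ⟨a, ha1, ha2⟩ := exists_degclass (j := j) D hQ hβ 1
  rw [mul_one] at ha2
  refine ⟨Nat.card (gal Γ), Nat.card_pos, a, ⟨_, _, ha1, ofDeg_section (r := r) ?_, 0,
    nrm_ne_zero hr0⟩, ha2⟩
  rwa [one_smul]

/-- Classes in the interior. -/
theorem interior_deg (D : Sys 𝒜 u 𝒬 𝒮 d) (hQ : IsQuotient 𝒜 u Γ) {P : Set (N1 𝒜 Γ j)}
    (hP : Good2 𝒬 P) {b : Bs 𝒜 Γ} (hb : b.1 ∈ HQ 𝒬 (LG 𝒜 Γ)) :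
    (i2 D.base hQ b : N1 𝒜 Γ j) ∈ coneHull (P ∩ effective 𝒜 Γ j) := by
  refine i2_cone D.base hQ ?_ hb
  rintro _ ⟨β, h1, h2, rfl⟩
  obtain ⟨M, hM, a, ha, hae, h3⟩ := hP.deg β h1 h2
  exact ⟨M, hM, a, ⟨ha, hae⟩, h3⟩

theorem interior_mem2 (D : Sys 𝒜 u 𝒬 𝒮 d) (hQ : IsQuotient 𝒜 u Γ)
    (Rl : Rel (base Γ) j H₀) {P : Set (N1 𝒜 Γ j)} (hP : Good2 𝒬 P) {a : N1 𝒜 Γ j} {t : ℝ}
    (ht : 0 < t) (h : ∀ e, t * (H₀ (j e) (j e)).re ≤ ((val a).1 e e).re)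
    (hI : (val a).2 ∈ HQ 𝒬 (LG 𝒜 Γ)) : a ∈ coneHull (P ∩ effective 𝒜 Γ j) := by
  rw [← split D.base hQ a]
  refine hull_add ?_ (interior_deg D hQ hP hI)
  exact i1_hull (P := P ∩ effective 𝒜 Γ j)
    (fun L hs a ha => ⟨hP.bpf L hs a ha, bpf_effective hs ha⟩) (interior_form Rl ht h)

theorem closure_eq2 (D : Sys 𝒜 u 𝒬 𝒮 d) (hQ : IsQuotient 𝒜 u Γ)
    (Rl : Rel (base Γ) j H₀) {P : Set (N1 𝒜 Γ j)} (hP : Good2 𝒬 P) :
    closure (coneHull P) = KK2 𝒜 Γ j 𝒬 := by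
  apply Set.Subset.antisymm
  · exact closure_minimal (fun _ ha => hull_ind (p := fun a => a ∈ KK2 𝒜 Γ j 𝒬) KK2_zero
      (fun _ _ h1 h2 => KK2_add h1 h2) (fun _ _ ht h => KK2_smul ht h) (fun a ha => hP.KK ha) ha)
      KK2_closed
  · intro a ha
    obtain ⟨y, hy, hy'⟩ := Pool.Agent.Y167.exists_ample Rl
    let y₀ : N1 𝒜 Γ j := i1 y + i2 D.base hQ ⟨rv u, Submodule.subset_span ⟨u, hQ.inv, rfl⟩⟩
    have key : ∀ ε : ℝ, 0 < ε → a + ε • y₀ ∈ closure (coneHull P) := by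
      intro ε hε
      refine subset_closure (hull_le (fun b hb => hull_mem hb.1)
        (interior_mem2 D hQ Rl hP (a := a + ε • y₀) hε (fun e => ?_) ?_))
      · have h1 : (val (a + ε • y₀)).1 e e = (val a).1 e e + ε • H₀ (j e) (j e) := by
          change (val a).1 e e + ε • (y.1 e e + 0) = _
          rw [add_zero, hy']
        rw [h1, Complex.add_re, Complex.smul_re, smul_eq_mul]
        linarith [ha.1 e]
      · have h1 : (val (a + ε • y₀)).2 = (val a).2 + ε • rv u := by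
          change (val a).2 + ε • ((0 : Fin ρ → ℝ) + rv u) = _
          rw [zero_add]
        rw [h1]
        refine D.interior (Λ := LG 𝒜 Γ) hQ.inv hε ?_
        rw [add_sub_cancel_right]
        exact ha.2
    have h2 : Tendsto (fun k : ℕ => a + (1 / ((k : ℝ) + 1)) • y₀) atTop (𝓝 a) := by
      have hind : Topology.IsInducing (val : N1 𝒜 Γ j → Pairs E ρ) :=
        Topology.IsInducing.subtypeVal
      rw [hind.tendsto_nhds_iff]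
      have h3 : (val : N1 𝒜 Γ j → Pairs E ρ) ∘ (fun k : ℕ => a + (1 / ((k : ℝ) + 1)) • y₀)
          = fun k : ℕ => val a + (1 / ((k : ℝ) + 1)) • val y₀ := rfl
      rw [h3]
      have h4 : Tendsto (fun k : ℕ => (1 / ((k : ℝ) + 1)) • val y₀) atTop (𝓝 ((0 : ℝ) • val y₀)) :=
        (tendsto_one_div_add_atTop_nhds_zero_nat (𝕜 := ℝ)).smul_const _
      rw [zero_smul] at h4
      have h5 := h4.const_add (val a)
      rwa [add_zero] at h5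
    exact isClosed_closure.mem_of_tendsto h2 (Eventually.of_forall fun k => key _ (by positivity))

/-- The conditions on the cone of `F`: integral classes in the cone of invariant classes are
effective, and effective classes in this cone are combinations of integral ones. -/
structure PlusF (𝒜 : Cl ρ → Submodule ℂ R) (Γ : Grp V R) (𝒬 : Set (Cl ρ)) : Prop where
  plus : ∀ b, b ∈ KQ 𝒬 (LG 𝒜 Γ) → b ∈ EQ 𝒜 (LG 𝒜 Γ) →
    b ∈ coneHull {s | s ∈ KQ 𝒬 (LG 𝒜 Γ) ∧ ∃ β, Inv 𝒜 Γ β ∧ s = rv β}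
  eff : ∀ β, Inv 𝒜 Γ β → rv β ∈ KQ 𝒬 (LG 𝒜 Γ) → rv β ∈ EQ 𝒜 (LG 𝒜 Γ)

/-- The degree of an effective class. -/
theorem effCone_deg {a : N1 𝒜 Γ j} (ha : a ∈ effCone 𝒜 Γ j) : (val a).2 ∈ EQ 𝒜 (LG 𝒜 Γ) := by
  refine hull_ind (p := fun a : N1 𝒜 Γ j => (val a).2 ∈ EQ 𝒜 (LG 𝒜 Γ)) hull_zero
    (fun _ _ h1 h2 => hull_add h1 h2) (fun _ _ ht h => hull_smul ht h) ?_ ha
  rintro a ⟨𝓛, f, ⟨-, h2⟩, hf, v, hv⟩
  exact hull_mem ⟨𝓛.deg, ⟨f v, hf.mem v, hv⟩, 𝓛.inv, funext h2⟩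

theorem cp_eq2 (D : Sys 𝒜 u 𝒬 𝒮 d) (hQ : IsQuotient 𝒜 u Γ) (hF : PlusF 𝒜 Γ 𝒬)
    (Rl : Rel (base Γ) j H₀) {P : Set (N1 𝒜 Γ j)} (hP : Good2 𝒬 P) :
    closure (coneHull P) ∩ effCone 𝒜 Γ j = Cp (intL 𝒜 Γ j) (KK2 𝒜 Γ j 𝒬) := by
  classical
  rw [closure_eq2 D hQ Rl hP]
  have hexp := expo_pos hQ
  have hexpr : (0 : ℝ) < expo Γ := by exact_mod_cast hexp
  have hcard : (0 : ℝ) < Nat.card (gal Γ) := by
    have := hQ.fin_gal
    have : 0 < Nat.card (gal Γ) := Nat.card_pos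
    exact_mod_cast this
  have hCp : ∀ x, x ∈ Cp (intL 𝒜 Γ j) (KK2 𝒜 Γ j 𝒬) ↔
      x ∈ coneHull {a | a ∈ intL 𝒜 Γ j ∧ a ∈ KK2 𝒜 Γ j 𝒬} := fun x => Iff.rfl
  apply Set.Subset.antisymm
  · rintro a ⟨haK, haE⟩
    rw [hCp, ← split D.base hQ a]
    refine hull_add ?_ ?_
    · refine hull_ind (p := fun a => (i1 (p1 hQ a) : N1 𝒜 Γ j) ∈
        coneHull {a | a ∈ intL 𝒜 Γ j ∧ a ∈ KK2 𝒜 Γ j 𝒬}) ?_ ?_ ?_ ?_ haE
      · rw [map_zero, map_zero]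
        exact hull_zero
      · intro a b h1 h2
        rw [map_add, map_add]
        exact hull_add h1 h2
      · intro t a ht h1
        rw [map_smul, map_smul]
        exact hull_smul ht h1
      · intro a ha
        have h2 : Pool.Agent.Y167.Integral ((expo Γ : ℝ) • p1 hQ a) := by
          obtain ⟨𝓛, f, hc, -⟩ := ha
          exact ⟨_, isClass_toLB hQ hc⟩
        refine hull_scaled hexpr ?_
        rw [← map_smul]
        refine ⟨Int.i1 h2, ?_⟩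
        rw [map_smul]
        have h5 : ∀ e, 0 ≤ ((val a).1 e e).re := effective_form hQ ha
        exact KK2_smul hexpr.le ⟨h5, cl_zero⟩
    · refine i2_cone D.base hQ ?_ (hF.plus _ haK.2 (effCone_deg haE))
      rintro s ⟨hs, β, hβ, rfl⟩
      let b : Bs 𝒜 Γ := ⟨rv β, Submodule.subset_span ⟨β, hβ, rfl⟩⟩
      refine ⟨Nat.card (gal Γ), by exact_mod_cast hcard, (Nat.card (gal Γ) : ℝ) • i2 D.base hQ b,
        ⟨Int.i2 D.base hQ hβ rfl, KK2_smul hcard.le ⟨fun e => le_refl (0 : ℝ), hs⟩⟩, ?_⟩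
      change (Nat.card (gal Γ) : ℝ) • ((0, rv β) : Pairs E ρ) = _
      rw [Prod.smul_mk, smul_zero]
  · rintro a ⟨S, hS, ha⟩
    have key : ∀ a ∈ integral 𝒜 Γ j, a ∈ KK2 𝒜 Γ j 𝒬 → a ∈ effCone 𝒜 Γ j := by
      intro a ha haK
      rw [← split D.base hQ a]
      refine hull_add ?_ ?_
      · have h1 := nef_form Rl (Int.p1 hQ ha) (Pool.Agent.Y167.nef_smul hexpr.le haK.1)
        have h2 := i1_hull (P := effective 𝒜 Γ j)
          (fun L hs a ha => bpf_effective hs ha) h1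
        rw [map_smul] at h2
        have h3 := hull_smul (inv_nonneg.2 hexpr.le) h2
        rwa [smul_smul, inv_mul_cancel₀ hexpr.ne', one_smul] at h3
      · obtain ⟨β, hβ, h1⟩ := Int.p2 ha
        refine i2_eff D.base hQ ?_
        change (val a).2 ∈ _
        rw [h1]
        refine hF.eff β hβ ?_
        rw [← h1]
        exact haK.2
    refine ⟨?_, hull_of_cone (fun b hb => key b (hS b hb).1 (hS b hb).2) ha⟩
    exact cone_ind (p := fun a => a ∈ KK2 𝒜 Γ j 𝒬) KK2_zero (fun _ _ h1 h2 => KK2_add h1 h2)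
      (fun _ _ ht h => KK2_smul ht h) (fun b hb => (hS b hb).2) ha

end Pool.Agent.X324.CG
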