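import Pool.Agent.X324.CG.Conv

/-!
# Fundamental domains with the Dirichlet property
-/

set_option autoImplicit false
set_option linter.unusedSectionVars false

namespace Pool.Agent.X324.CG

open Finset Filter Topology
open Pool.Agent.X324.CF
open Pool.Agent.Y167

section Gen

variable {ρ : ℕ} {W : Type*} [AddCommGroup W] [Module ℝ W] [FiniteDimensional ℝ W]

/-- The data for a cone of classes on which the coordinates are bounded by a linear form. -/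
theorem cdata_gen (emb : W →ₗ[ℝ] (Fin ρ → ℝ)) (hemb : Function.Injective emb) {L : AddSubgroup W}
    (hL : ∀ x ∈ L, ∃ β : Cl ρ, emb x = rv β) (hspan : Submodule.span ℝ (L : Set W) = ⊤)
    {K : Set W} (hadd : ∀ x ∈ K, ∀ y ∈ K, x + y ∈ K) (hsmul : ∀ t : ℝ, 0 ≤ t → ∀ x ∈ K, t • x ∈ K)
    (d : Fin ρ → ℤ) (hd : ∀ x ∈ K, ∀ k, |emb x k| ≤ dot (rv d) (emb x)) {y₀ : W} (yL : y₀ ∈ L)
    (yK : y₀ ∈ K) (yint : ∀ x : W, ∃ C : ℝ, 0 < C ∧ C • y₀ - x ∈ K) :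
    ∃ Y : Finset W, CData L K (dot (rv d) ∘ₗ emb) y₀ Y := by
  classical
  obtain ⟨Y, hY1, hY2⟩ := exists_Y hadd hsmul yL yK yint hspan
  refine ⟨Y,
    { add := hadd
      smul := hsmul
      xi_int := fun x hx => ?_
      xi_pos := fun x hx hx0 => ?_
      fin := fun C => ?_
      y_L := yL
      y_N := yK
      y_int := yint
      dom := fun η => ?_
      sep := fun x hx => ?_
      Y_mem := hY1
      Y_span := hY2 }⟩
  · obtain ⟨β, h1⟩ := hL x hx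
    rw [LinearMap.comp_apply, h1, dot_int]
    exact ⟨_, rfl⟩
  · rw [LinearMap.comp_apply]
    by_contra hcon
    push Not at hcon
    apply hx0
    apply hemb
    rw [map_zero]
    funext k
    exact abs_nonpos_iff.1 ((hd x hx k).trans hcon)
  · refine Set.Finite.of_finite_image (f := emb) ?_ (hemb.injOn)
    refine ((Set.finite_Icc (fun _ : Fin ρ => (-(⌈C⌉))) (fun _ => ⌈C⌉)).image
      (fun β : Fin ρ → ℤ => rv β)).subset ?_
    rintro _ ⟨x, ⟨hxL, hxK, hxC⟩, rfl⟩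
    obtain ⟨β, h1⟩ := hL x hxL
    have h2 : ∀ k, |(β k : ℝ)| ≤ C := by
      intro k
      have h3 := (hd x hxK k).trans hxC
      rwa [h1] at h3
    refine ⟨β, ⟨fun k => ?_, fun k => ?_⟩, h1.symm⟩
    · have h5 := (abs_le.1 (h2 k)).1
      have h6 : (-(⌈C⌉ : ℝ)) ≤ β k := le_trans (neg_le_neg (Int.le_ceil C)) h5
      exact_mod_cast h6
    · have h5 := (abs_le.1 (h2 k)).2
      have h6 : (β k : ℝ) ≤ ⌈C⌉ := h5.trans (Int.le_ceil C)
      exact_mod_cast h6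
  · obtain ⟨pr, hpr⟩ := LinearMap.exists_leftInverse_of_injective emb (LinearMap.ker_eq_bot.2 hemb)
    refine ⟨∑ k, |η (pr (Pi.single k 1))|, fun x hx => ?_⟩
    rw [LinearMap.comp_apply, Finset.sum_mul]
    have h1 : η x = ∑ k, emb x k * η (pr (Pi.single k 1)) := by
      have h2 : emb x = ∑ k, emb x k • (Pi.single k 1 : Fin ρ → ℝ) := by
        funext l
        rw [Finset.sum_apply, Finset.sum_eq_single l]
        · simp
        · intro b _ hb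
          simp [Pi.single_eq_of_ne (Ne.symm hb)]
        · intro h
          exact absurd (Finset.mem_univ _) h
      have h3 : pr (emb x) = x := LinearMap.congr_fun hpr x
      conv_lhs => rw [← h3, h2, map_sum, map_sum]
      exact Finset.sum_congr rfl fun k _ => by rw [map_smul, map_smul, smul_eq_mul]
    rw [h1]
    refine (Finset.abs_sum_le_sum_abs _ _).trans (Finset.sum_le_sum fun k _ => ?_)
    rw [abs_mul, mul_comm]
    exact mul_le_mul_of_nonneg_left (hd x hx k) (abs_nonneg _)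
  · have h1 : ∃ k, emb x k ≠ 0 := by
      by_contra hcon
      push Not at hcon
      exact hx (hemb (by rw [map_zero]; exact funext hcon))
    obtain ⟨k, hk⟩ := h1
    refine ⟨LinearMap.proj k ∘ₗ emb, fun y hy => ?_, hk⟩
    obtain ⟨β, h2⟩ := hL y hy
    refine ⟨β k, ?_⟩
    rw [LinearMap.comp_apply, h2]
    rfl

end Gen

section Dom

variable {W : Type*} [AddCommGroup W] [Module ℝ W] {L : AddSubgroup W} {Nf : Set W}
  {ξ₀ : W →ₗ[ℝ] ℝ} {y₀ : W} {Y : Finset W}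

open CData

/-- Rational polyhedral fundamental domains, with the Dirichlet property. -/
theorem domain' (D : CData L Nf ξ₀ y₀ Y) (𝒢 : Subgroup (W ≃ₗ[ℝ] W))
    (hL : ∀ g ∈ 𝒢, ∀ x ∈ L, g x ∈ L) (hN : ∀ g ∈ 𝒢, ∀ x ∈ Nf, g x ∈ Nf)
    (F : Finset W) (hF : ∀ a ∈ F, a ∈ L ∧ a ∈ Nf)
    (hcov : ∀ x, (∃ t : ℝ, 0 < t ∧ x - t • y₀ ∈ Nf) → ∃ g ∈ 𝒢, g x ∈ cone F) :
    ∃ (S : Finset W) (ξ : W →ₗ[ℝ] ℝ), (∀ a ∈ S, a ∈ L ∧ a ∈ Nf) ∧
      (∀ a ∈ S, ∃ g ∈ 𝒢, g a ∈ cone F) ∧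
      (∀ x, x ∈ Cp L Nf ↔ ∃ g ∈ 𝒢, g x ∈ cone S) ∧
      (∀ x ∈ cone S, ∀ g ∈ 𝒢, ξ x ≤ ξ (g x)) ∧
      ∃ c : ℝ, 0 < c ∧ ∀ x ∈ Nf, c * ξ₀ x ≤ ξ x := by
  classical
  obtain ⟨ξ, hξ, ⟨c, hc, hξc⟩, hstab⟩ := D.exists_xi 𝒢 hL hN
  have hξpos : ∀ x ∈ Nf, x ≠ 0 → 0 < ξ x := fun x hx h0 =>
    lt_of_lt_of_le (mul_pos hc (D.xi_pos x hx h0)) (hξc x hx)
  have hξnn : ∀ x ∈ Nf, 0 ≤ ξ x := fun x hx =>
    le_trans (mul_nonneg hc.le (D.xi_nonneg hx)) (hξc x hx)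
  obtain ⟨T, hT𝒢, hT⟩ := D.exists_dickson 𝒢 hL hN hξ hc hξc F hF
  -- the pieces
  have hpiece : ∀ t : W ≃ₗ[ℝ] W, t ∈ T → ∃ S' : Finset W, (∀ a ∈ S', a ∈ L ∧ a ∈ Nf) ∧
      ∀ x, x ∈ cone S' ↔ x ∈ cone F ∧ ∀ t' ∈ T, ξ (t x) ≤ ξ (t' x) := by
    intro t ht
    obtain ⟨S', hS', h⟩ := D.cut_many F hF
      (T.image fun t' : W ≃ₗ[ℝ] W => ξ.comp (t' : W →ₗ[ℝ] W) - ξ.comp (t : W →ₗ[ℝ] W)) (by
        intro φ hφ x hx
        obtain ⟨t', ht', rfl⟩ := Finset.mem_image.1 hφ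
        obtain ⟨m, hm⟩ := hξ _ (hL t' (hT𝒢 t' ht') x hx)
        obtain ⟨n, hn⟩ := hξ _ (hL t (hT𝒢 t ht) x hx)
        exact ⟨m - n, by simp [hm, hn]⟩)
    refine ⟨S', hS', fun x => ?_⟩
    rw [h]
    simp only [Finset.forall_mem_image, LinearMap.sub_apply, LinearMap.comp_apply,
      LinearEquiv.coe_coe, sub_nonneg]
  choose! P hP hPc using hpiece
  let S0 : Finset W := T.biUnion fun t => (P t).image t
  let S : Finset W := S0.filter (· ≠ 0)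
  have hSS0 : ∀ x, x ∈ cone S0 → x ∈ cone S := by
    intro x hx
    refine cone_le (fun a ha => ?_) hx
    by_cases h : a = 0
    · rw [h]; exact zero_mem_cone S
    · exact mem_cone_self (Finset.mem_filter.2 ⟨ha, h⟩)
  have hSmem : ∀ a ∈ S, ∃ t ∈ T, ∃ b ∈ P t, t b = a := by
    intro a ha
    obtain ⟨t, ht, h1⟩ := Finset.mem_biUnion.1 (Finset.mem_filter.1 ha).1
    obtain ⟨b, hb, rfl⟩ := Finset.mem_image.1 h1
    exact ⟨t, ht, b, hb, rfl⟩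
  have hSLN : ∀ a ∈ S, a ∈ L ∧ a ∈ Nf := by
    intro a ha
    obtain ⟨t, ht, b, hb, rfl⟩ := hSmem a ha
    exact ⟨hL t (hT𝒢 t ht) _ (hP t ht b hb).1, hN t (hT𝒢 t ht) _ (hP t ht b hb).2⟩
  have hSpos : ∀ a ∈ S, 0 < ξ a := fun a ha =>
    hξpos a (hSLN a ha).2 (Finset.mem_filter.1 ha).2
  -- the Dirichlet property
  have hdir : ∀ x ∈ cone S, ∀ g ∈ 𝒢, ξ x ≤ ξ (g x) := by
    intro x hx g hg
    have h1 : ∀ a ∈ S, ξ ((LinearMap.id : W →ₗ[ℝ] W) a) ≤ ξ ((g : W →ₗ[ℝ] W) a) := by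
      intro a ha
      obtain ⟨t, ht, b, hb, rfl⟩ := hSmem a ha
      have h2 := (hPc t ht b).1 (mem_cone_self hb)
      obtain ⟨t', ht', h3⟩ := hT (g * t) (𝒢.mul_mem hg (hT𝒢 t ht))
      have h4 : ξ ((t' : W →ₗ[ℝ] W) b) ≤ ξ (((g * t : W ≃ₗ[ℝ] W) : W →ₗ[ℝ] W) b) :=
        le_of_cone (fun a ha => h3 a ha) h2.1
      exact (h2.2 t' ht').trans h4
    exact le_of_cone h1 hx
  -- the interior is covered
  have hcov2 : ∀ x, (∃ t : ℝ, 0 < t ∧ x - t • y₀ ∈ Nf) → ∃ g ∈ 𝒢, g x ∈ cone S := by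
    intro x hx
    obtain ⟨g, hg, hgx⟩ := hcov x hx
    have hTne : T.Nonempty := by
      obtain ⟨t, ht, -⟩ := hT 1 𝒢.one_mem
      exact ⟨t, ht⟩
    obtain ⟨t, ht, hmin⟩ := Finset.exists_min_image T (fun t => ξ (t (g x))) hTne
    have h1 : g x ∈ cone (P t) := (hPc t ht _).2 ⟨hgx, hmin⟩
    refine ⟨t * g, 𝒢.mul_mem (hT𝒢 t ht) hg, hSS0 _ ?_⟩
    have h2 : (t : W →ₗ[ℝ] W) (g x) ∈ cone ((P t).image (t : W →ₗ[ℝ] W)) := cone_image _ h1
    refine cone_mono ?_ h2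
    exact Finset.subset_biUnion_of_mem (fun t : W ≃ₗ[ℝ] W => (P t).image t) ht
  -- closedness argument
  have hclos : ∀ x, x ∈ Cp L Nf → ∃ g ∈ 𝒢, g x ∈ cone S := by
    rintro x ⟨A', hA', hx⟩
    let δ : ℕ → ℝ := fun n => 1 / ((n : ℝ) + 1)
    have hδpos : ∀ n, 0 < δ n := fun n => by simp only [δ]; positivity
    have hδ : Tendsto δ atTop (𝓝 0) := tendsto_one_div_add_atTop_nhds_zero_nat
    have hxN : x ∈ Nf := D.cone_Nf hA' hx
    have hg : ∀ n, ∃ g ∈ 𝒢, g (x + δ n • y₀) ∈ cone S := by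
      intro n
      apply hcov2
      refine ⟨δ n, hδpos n, ?_⟩
      rwa [add_sub_cancel_right]
    choose g hg𝒢 hgS using hg
    obtain ⟨T', hT'𝒢, hT'⟩ := D.exists_dickson 𝒢 hL hN hξ hc hξc (insert y₀ A') (by
      intro a ha
      rcases Finset.mem_insert.1 ha with rfl | h
      · exact ⟨D.y_L, D.y_N⟩
      · exact hA' a h)
    set C : ℝ := ∑ t ∈ T', ξ (t y₀) with hC
    have hbound : ∀ n, ξ (g n y₀) ≤ C := by
      intro n
      obtain ⟨t, ht, h1⟩ := hT' (g n) (hg𝒢 n)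
      have h2 : ξ (t x) ≤ ξ (g n x) := by
        have : ξ ((t : W →ₗ[ℝ] W) x) ≤ ξ ((g n : W →ₗ[ℝ] W) x) :=
          le_of_cone (fun a ha => h1 a (Finset.mem_insert_of_mem ha)) hx
        exact this
      have h3 := hdir _ (hgS n) (t * (g n)⁻¹) (𝒢.mul_mem (hT'𝒢 t ht) (𝒢.inv_mem (hg𝒢 n)))
      have h4 : (t * (g n)⁻¹) (g n (x + δ n • y₀)) = t (x + δ n • y₀) := by
        have : (t * (g n)⁻¹) (g n (x + δ n • y₀)) = (t * (g n)⁻¹ * g n) (x + δ n • y₀) := rfl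
        rw [this, inv_mul_cancel_right]
      rw [h4, map_add, map_add, map_add, map_add, map_smul, map_smul, map_smul, map_smul,
        smul_eq_mul, smul_eq_mul] at h3
      have h5 : δ n * ξ (g n y₀) ≤ δ n * ξ (t y₀) := by linarith
      have h6 : ξ (g n y₀) ≤ ξ (t y₀) := le_of_mul_le_mul_left h5 (hδpos n)
      refine h6.trans (Finset.single_le_sum (f := fun t : W ≃ₗ[ℝ] W => ξ (t y₀)) ?_ ht)
      intro t ht
      exact hξnn _ (hN t (hT'𝒢 t ht) _ D.y_N)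
    -- finitely many g
    have hYb : ∃ B : ℝ, ∀ n, ∀ y ∈ Y, ξ₀ (g n y) ≤ B := by
      choose! K hK using D.y_int
      refine ⟨∑ y ∈ Y, K y * C / c, fun n y hy => ?_⟩
      have hC0 : 0 ≤ C := le_trans (hξnn _ (hN _ (hg𝒢 n) _ D.y_N)) (hbound n)
      have h1 : g n (K y • y₀ - y) ∈ Nf := hN _ (hg𝒢 n) _ (hK y).2
      have h2 := hξnn _ h1
      rw [map_sub, map_sub, map_smul, map_smul, smul_eq_mul, sub_nonneg] at h2
      have h3 := hξc _ (hN _ (hg𝒢 n) _ (D.Y_mem y hy).2)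
      have h4 : c * ξ₀ (g n y) ≤ K y * C := by
        refine h3.trans (h2.trans ?_)
        exact mul_le_mul_of_nonneg_left (hbound n) (hK y).1.le
      have h5 : ξ₀ (g n y) ≤ K y * C / c := by
        rw [le_div_iff₀ hc]; linarith
      refine h5.trans (Finset.single_le_sum (f := fun y => K y * C / c) ?_ hy)
      intro y _
      exact div_nonneg (mul_nonneg (hK y).1.le hC0) hc.le
    obtain ⟨B, hB⟩ := hYb
    have hfin := D.finite_small 𝒢 hL hN B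
    have hrange : (Set.range g).Finite := hfin.subset (by
      rintro _ ⟨n, rfl⟩
      exact ⟨hg𝒢 n, hB n⟩)
    -- pigeonhole
    obtain ⟨h, hh⟩ : ∃ h : W ≃ₗ[ℝ] W, {n | g n = h}.Infinite := by
      by_contra hcon
      push Not at hcon
      have h1 : (Set.univ : Set ℕ) ⊆ ⋃ h ∈ Set.range g, {n | g n = h} := by
        intro n _
        simp only [Set.mem_iUnion]
        exact ⟨g n, ⟨n, rfl⟩, rfl⟩
      have h2 : (⋃ h ∈ Set.range g, {n | g n = h}).Finite :=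
        hrange.biUnion fun h _ => by simpa using hcon h
      exact Set.infinite_univ (h2.subset h1)
    have hh𝒢 : h ∈ 𝒢 := by
      obtain ⟨n, hn⟩ := hh.nonempty
      have hn : g n = h := hn
      rw [← hn]; exact hg𝒢 n
    refine ⟨h, hh𝒢, ?_⟩
    let k : ℕ → ℕ := Nat.nth (fun n => g n = h)
    have hk : StrictMono k := Nat.nth_strictMono hh
    have hkm : ∀ n, g (k n) = h := fun n => Nat.nth_mem_of_infinite hh n
    refine cone_closed (S := S) ξ hSpos (p := h x) (q := h y₀) (δ := δ ∘ k)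
      (hδ.comp hk.tendsto_atTop) (fun n => ?_)
    have h1 := hgS (k n)
    rw [hkm n, map_add, map_smul] at h1
    exact h1
  refine ⟨S, ξ, hSLN, fun a ha => ?_, fun x => ⟨hclos x, ?_⟩, hdir, c, hc, hξc⟩
  · obtain ⟨t, ht, b, hb, rfl⟩ := hSmem a ha
    refine ⟨t⁻¹, 𝒢.inv_mem (hT𝒢 t ht), ?_⟩
    have h1 : (t⁻¹ : W ≃ₗ[ℝ] W) (t b) = b := t.symm_apply_apply b
    rw [h1]
    exact ((hPc t ht b).1 (mem_cone_self hb)).1
  · rintro ⟨g, hg, hgx⟩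
    refine ⟨S.image (g⁻¹ : W ≃ₗ[ℝ] W), ?_, ?_⟩
    · intro a ha
      obtain ⟨b, hb, rfl⟩ := Finset.mem_image.1 ha
      have hg' := 𝒢.inv_mem hg
      exact ⟨hL _ hg' _ (hSLN b hb).1, hN _ hg' _ (hSLN b hb).2⟩
    · have h1 : ((g⁻¹ : W ≃ₗ[ℝ] W) : W →ₗ[ℝ] W) (g x) ∈
          cone (S.image ((g⁻¹ : W ≃ₗ[ℝ] W) : W →ₗ[ℝ] W)) := cone_image _ hgx
      have h2 : ((g⁻¹ : W ≃ₗ[ℝ] W) : W →ₗ[ℝ] W) (g x) = x := by
        have : ((g⁻¹ : W ≃ₗ[ℝ] W) : W →ₗ[ℝ] W) (g x) = (g⁻¹ * g) x := rfl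
        rw [this, inv_mul_cancel]
        rfl
      rw [h2] at h1
      exact h1

/-- The elements which fix an interior point of the fundamental domain are finite in number. -/
theorem fixers (D : CData L Nf ξ₀ y₀ Y) (𝒢 : Subgroup (W ≃ₗ[ℝ] W))
    (hL : ∀ g ∈ 𝒢, ∀ x ∈ L, g x ∈ L) (hN : ∀ g ∈ 𝒢, ∀ x ∈ Nf, g x ∈ Nf)
    {S : Finset W} {ξ : W →ₗ[ℝ] ℝ} (hS : ∀ a ∈ S, a ∈ L ∧ a ∈ Nf)
    (hdir : ∀ x ∈ cone S, ∀ g ∈ 𝒢, ξ x ≤ ξ (g x)) {c : ℝ} (hc : 0 < c)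
    (hξc : ∀ x ∈ Nf, c * ξ₀ x ≤ ξ x) :
    {g | g ∈ 𝒢 ∧ ∃ x ∈ cone S, (∃ t : ℝ, 0 < t ∧ x - t • y₀ ∈ Nf) ∧ g x = x}.Finite := by
  classical
  -- the sums of the subsets of the generators which are interior points
  have hT : ∀ T : Finset W, T ⊆ S → (∃ t : ℝ, 0 < t ∧ ∑ a ∈ T, a - t • y₀ ∈ Nf) →
      {g | g ∈ 𝒢 ∧ ξ (g (∑ a ∈ T, a)) ≤ ξ (∑ a ∈ T, a)}.Finite := by
    rintro T - ⟨t, ht, h1⟩
    choose! K hK using D.y_int
    set y : W := ∑ a ∈ T, a with hy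
    have hle : ∀ g ∈ 𝒢, ξ (g y) ≤ ξ y → ∀ z ∈ Y, ξ₀ (g z) ≤ ∑ z ∈ Y, K z * (ξ y / t) / c := by
      intro g hg hgy z hz
      have h0 : ∀ x ∈ Nf, 0 ≤ ξ (g x) := fun x hx =>
        le_trans (mul_nonneg hc.le (D.xi_nonneg (hN g hg x hx))) (hξc _ (hN g hg x hx))
      have h2 := h0 _ h1
      rw [map_sub, map_sub, map_smul, map_smul, smul_eq_mul, sub_nonneg] at h2
      have h3 : ξ (g y₀) ≤ ξ y / t := by
        rw [le_div_iff₀ ht, mul_comm]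
        exact h2.trans hgy
      have h4 := h0 _ (hK z).2
      rw [map_sub, map_sub, map_smul, map_smul, smul_eq_mul, sub_nonneg] at h4
      have h5 := hξc _ (hN g hg z (D.Y_mem z hz).2)
      have h6 : ξ₀ (g z) ≤ K z * (ξ y / t) / c := by
        rw [le_div_iff₀ hc, mul_comm]
        exact h5.trans (h4.trans (mul_le_mul_of_nonneg_left h3 (hK z).1.le))
      have hy0 : 0 ≤ ξ y / t := le_trans (h0 _ D.y_N) h3
      exact h6.trans (Finset.single_le_sum (f := fun z => K z * (ξ y / t) / c)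
        (fun z _ => div_nonneg (mul_nonneg (hK z).1.le hy0) hc.le) hz)
    exact (D.finite_small 𝒢 hL hN _).subset fun g hg => ⟨hg.1, hle g hg.1 hg.2⟩
  have hfin : (⋃ T ∈ {T : Finset W | T ⊆ S ∧ ∃ t : ℝ, 0 < t ∧ ∑ a ∈ T, a - t • y₀ ∈ Nf},
      {g | g ∈ 𝒢 ∧ ξ (g (∑ a ∈ T, a)) ≤ ξ (∑ a ∈ T, a)}).Finite := by
    refine Set.Finite.biUnion ?_ fun T hT' => hT T hT'.1 hT'.2
    refine (Finset.finite_toSet S.powerset).subset fun T hT' => ?_
    rw [Finset.mem_coe, Finset.mem_powerset]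
    exact hT'.1
  refine hfin.subset ?_
  rintro g ⟨hg, x, ⟨e, he, hx⟩, ⟨t, ht, hxt⟩, hgx⟩
  let T := S.filter fun a => e a ≠ 0
  have hTS : T ⊆ S := Finset.filter_subset _ _
  have hpos : ∀ a ∈ T, 0 < e a := fun a ha =>
    lt_of_le_of_ne (he a) (Ne.symm (Finset.mem_filter.1 ha).2)
  have hxT : x = ∑ a ∈ T, e a • a := by
    rw [hx, Finset.sum_filter_of_ne]
    intro a _ ha h
    exact ha (by rw [h, zero_smul])
  -- the values of the linear form agree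
  have hval : ∀ a ∈ T, ξ (g a) = ξ a := by
    have h1 : ∑ a ∈ T, e a * (ξ (g a) - ξ a) = 0 := by
      have h2 : ξ (g x) - ξ x = 0 := by rw [hgx, sub_self]
      rw [hxT, map_sum, map_sum, map_sum, ← Finset.sum_sub_distrib] at h2
      rw [← h2]
      refine Finset.sum_congr rfl fun a _ => ?_
      rw [map_smul, map_smul, map_smul, smul_eq_mul, smul_eq_mul]
      ring
    have h2 : ∀ a ∈ T, 0 ≤ e a * (ξ (g a) - ξ a) := fun a ha =>
      mul_nonneg (he a) (sub_nonneg.2 (hdir a (mem_cone_self (hTS ha)) g hg))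
    intro a ha
    have h3 := (Finset.sum_eq_zero_iff_of_nonneg h2).1 h1 a ha
    have h4 := (mul_eq_zero.1 h3).resolve_left (hpos a ha).ne'
    linarith
  have hsum : ξ (g (∑ a ∈ T, a)) = ξ (∑ a ∈ T, a) := by
    rw [map_sum, map_sum, map_sum]
    exact Finset.sum_congr rfl hval
  -- the sum is an interior point
  let M : ℝ := 1 + ∑ a ∈ T, e a
  have hM : 0 < M := by
    have : 0 ≤ ∑ a ∈ T, e a := Finset.sum_nonneg fun a _ => he a
    simp only [M]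
    linarith
  have hMT : M • ∑ a ∈ T, a - x ∈ Nf := by
    refine D.cone_Nf hS ?_
    rw [hxT, Finset.smul_sum, ← Finset.sum_sub_distrib]
    refine cone_sum _ _ fun a ha => ?_
    rw [← sub_smul]
    refine cone_smul (mem_cone_self (hTS ha)) ?_
    have := Finset.single_le_sum (f := fun a => e a) (fun a _ => he a) ha
    simp only [M]
    linarith
  have hint : ∑ a ∈ T, a - (M⁻¹ * t) • y₀ ∈ Nf := by
    have h1 := D.smul M⁻¹ (inv_nonneg.2 hM.le) _ (D.add _ hMT _ hxt)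
    have h2 : M⁻¹ • (M • ∑ a ∈ T, a - x + (x - t • y₀)) = ∑ a ∈ T, a - (M⁻¹ * t) • y₀ := by
      rw [smul_add, smul_sub, smul_sub, smul_smul, smul_smul, inv_mul_cancel₀ hM.ne', one_smul]
      abel
    rwa [h2] at h1
  simp only [Set.mem_iUnion]
  exact ⟨T, ⟨hTS, M⁻¹ * t, by positivity, hint⟩, hg, hsum.le⟩

end Dom

end Pool.Agent.X324.CG
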