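import Pool.Agent.X324.CG.NormDefs
import Pool.Agent.X324.CG.Fix

/-!
# Comparison of the two definitions of the normaliser
-/

set_option autoImplicit false

namespace Pool.Agent.X324.CG

open Pool.Agent.X324.CF

variable {V R : Type*} [NormedAddCommGroup V] [NormedSpace ℂ V] [CommRing R] [Algebra ℂ R] {ρ : ℕ}
  {𝒜 : Cl ρ → Submodule ℂ R} {Γ : Grp V R}

theorem conj_of_eq {a γ δ : Elt V R} {s : R ≃ₐ[ℂ] R} (hs : s ∈ Scal 𝒜)
    (h : a * γ = δ * (1, s) * a) : Conj 𝒜 a γ δ := by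
  refine ⟨fun v => ?_, s, hs, fun r => ?_⟩
  · exact congrArg (fun x : Elt V R => x.1 v) h
  · exact congrArg (fun x : Elt V R => x.2 r) h

theorem NormalizesX.norm [GradedAlgebra 𝒜] {a : Elt V R} (h : NormalizesX 𝒜 Γ a) (hp : IsPsAut 𝒜 a.2) :
    NormX 𝒜 Γ a := by
  obtain ⟨σ, hσ⟩ := hp
  refine ⟨fun γ hγ => ?_, fun δ hδ => ?_⟩
  · obtain ⟨δ, hδ, s, hs, he⟩ := h.1 γ hγ
    exact ⟨δ, hδ, conj_of_eq hs (by rw [← he]; group)⟩
  · obtain ⟨γ, hγ, s, hs, he⟩ := h.2 δ hδ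
    refine ⟨γ, hγ, conj_of_eq (s := a.2 * s⁻¹ * a.2⁻¹) (scal_conj hσ (inv_mem hs)) ?_⟩
    have h1 : ((1, a.2 * s⁻¹ * a.2⁻¹) : Elt V R) = a * (1, s⁻¹) * a⁻¹ := by
      apply Prod.ext <;> simp
    have h2 : ((1, s) : Elt V R) * (1, s⁻¹) = 1 := by
      apply Prod.ext <;> simp
    have h3 : δ = a * (γ * (1, s)) * a⁻¹ := by rw [← he]; group
    rw [h1, h3]
    calc a * γ = a * γ * 1 := by group
      _ = a * γ * ((1, s) * (1, s⁻¹)) := by rw [h2]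
      _ = _ := by group

end Pool.Agent.X324.CG
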