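import Pool.Agent.X324.CG.Defs

/-!
# Pseudo-automorphisms of `X = (A × F) / G` induced by pseudo-automorphisms of `A × F`
-/

set_option autoImplicit false

namespace Pool.Agent.X324.CG

open Pool.Agent.X324.CF

variable {V R : Type*} [NormedAddCommGroup V] [NormedSpace ℂ V] [CommRing R] [Algebra ℂ R] {ρ : ℕ}
  (𝒜 : Cl ρ → Submodule ℂ R)

/-- `a γ = δ a` for the transformations of `V × F` given by the three pairs. (The elements of
`Scal 𝒜` act trivially on `F`.) -/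
def Conj (a γ δ : Elt V R) : Prop :=
  (∀ v, a.1 (γ.1 v) = δ.1 (a.1 v)) ∧ ∃ s ∈ Scal 𝒜, ∀ r, a.2 (γ.2 r) = δ.2 (s (a.2 r))

/-- The pair `a = (f, φ)` normalises the group of transformations of `V × F` given by `Γ`, so that it
induces a pseudo-automorphism of `X = (V × F) / Γ` (an automorphism, if `φ` gives an automorphism of
`F`). -/
def NormX (Γ : Grp V R) (a : Elt V R) : Prop :=
  (∀ γ ∈ Γ, ∃ δ ∈ Γ, Conj 𝒜 a γ δ) ∧ ∀ δ ∈ Γ, ∃ γ ∈ Γ, Conj 𝒜 a γ δ

end Pool.Agent.X324.CG
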