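import Pool.Agent.X324.CG.Fin
import Pool.Agent.X324.SA.Nef

/-!
# Effective classes on `(A × F) / G`
-/

set_option autoImplicit false
set_option linter.unusedSectionVars false

namespace Pool.Agent.X324.CG

open Finset Filter Topology
open Pool.Agent.W594.SYZ2 Pool.Agent.W594.SYZ2.TQ Pool.Agent.TH735.AQ
open Pool.Agent.X324.CF
open Pool.Agent.Y167 (cone cone_add cone_smul cone_le cone_mono cone_sum mem_cone_self
  zero_mem_cone cone_image cone_ind cone_of_scaled mem_cone_of_sum Rel Pol Cp CData IsFace)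
open Pool.Agent.Y167.CC (LinGrp Preserves IsFundDomain)

variable {V E R : Type*} [NormedAddCommGroup V] [NormedSpace ℂ V] [FiniteDimensional ℂ V]
  [NormedAddCommGroup E] [NormedSpace ℂ E] [FiniteDimensional ℂ E] [CommRing R] [IsDomain R]
  [Algebra ℂ R] {ρ : ℕ}
  {𝒜 : Cl ρ → Submodule ℂ R} [GradedAlgebra 𝒜] {Γ : Grp V R}
  {u : Cl ρ} {j : E →ₗ[ℂ] V} {H₀ : V → V → ℂ} {𝒬 : Set (Cl ρ)} {𝒮 : Subgroup (R ≃ₐ[ℂ] R)}
  {d : Fin ρ → ℤ}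

/-- The form of an integral class with semidefinite form is effective. -/
theorem form_eff (hQ : IsQuotient 𝒜 u Γ) (Rl : Rel (base Γ) j H₀) {a : N1 𝒜 Γ j}
    (ha : a ∈ integral 𝒜 Γ j) (hf : ∀ e, 0 ≤ ((val a).1 e e).re) :
    (i1 (p1 hQ a) : N1 𝒜 Γ j) ∈ effCone 𝒜 Γ j := by
  have hexp := expo_pos hQ
  have hexpr : (0 : ℝ) < expo Γ := by exact_mod_cast hexp
  have h0 : p1 hQ a ∈ Pool.Agent.Y167.nefCone (base Γ) j := hf
  have h1 := nef_form Rl (Int.p1 hQ ha) (Pool.Agent.Y167.nef_smul hexpr.le h0)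
  have h2 := i1_hull (P := effective 𝒜 Γ j)
    (fun L hs a ha => bpf_effective hs ha) h1
  rw [map_smul] at h2
  have h3 := hull_smul (inv_nonneg.2 hexpr.le) h2
  rwa [smul_smul, inv_mul_cancel₀ hexpr.ne', one_smul] at h3

/-- A combination of two classes with semidefinite forms is effective if its degree is. -/
theorem comb_eff (D : Base 𝒜 (Fin.elim0 : Fin 0 → Cl ρ)) (hQ : IsQuotient 𝒜 u Γ)
    (Rl : Rel (base Γ) j H₀) {a b : N1 𝒜 Γ j} (ha : a ∈ integral 𝒜 Γ j) (hb : b ∈ integral 𝒜 Γ j)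
    (hfa : ∀ e, 0 ≤ ((val a).1 e e).re) (hfb : ∀ e, 0 ≤ ((val b).1 e e).re) {t : ℝ} (ht : 0 ≤ t)
    (hd : (val (a + t • b)).2 ∈ EQ 𝒜 (LG 𝒜 Γ)) : a + t • b ∈ effCone 𝒜 Γ j := by
  rw [← split D hQ (a + t • b)]
  refine hull_add ?_ (i2_eff D hQ hd)
  rw [map_add, map_smul, map_add, map_smul]
  exact hull_add (form_eff hQ Rl ha hfa) (hull_smul ht (form_eff hQ Rl hb hfb))

/-- Integral classes with nef form and effective degree are effective. -/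
theorem key_eff (D : Sys 𝒜 u 𝒬 𝒮 d) (hQ : IsQuotient 𝒜 u Γ)
    (hF : ∀ β, Inv 𝒜 Γ β → rv β ∈ KQ 𝒬 (LG 𝒜 Γ) → rv β ∈ EQ 𝒜 (LG 𝒜 Γ))
    (Rl : Rel (base Γ) j H₀) {a : N1 𝒜 Γ j} (ha : a ∈ integral 𝒜 Γ j)
    (haK : a ∈ KK2 𝒜 Γ j 𝒬) : a ∈ effCone 𝒜 Γ j := by
  rw [← split D.base hQ a]
  refine hull_add (form_eff hQ Rl ha haK.1) ?_
  obtain ⟨β, hβ, h1⟩ := Int.p2 ha
  refine i2_eff D.base hQ ?_
  change (val a).2 ∈ _
  rw [h1]
  refine hF β hβ ?_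
  rw [← h1]
  exact haK.2

/-- One half of the comparison of the two cones. -/
theorem plus_sub (D : Sys 𝒜 u 𝒬 𝒮 d) (hQ : IsQuotient 𝒜 u Γ)
    (hF : ∀ β, Inv 𝒜 Γ β → rv β ∈ KQ 𝒬 (LG 𝒜 Γ) → rv β ∈ EQ 𝒜 (LG 𝒜 Γ))
    (Rl : Rel (base Γ) j H₀) {P : Set (N1 𝒜 Γ j)} (hP : Good2 𝒬 P) :
    convexHull ℝ (closure (coneHull P) ∩ {x | ∃ n : ℕ, 0 < n ∧ (n : ℝ) • x ∈ integral 𝒜 Γ j}) ⊆
      closure (coneHull P) ∩ effCone 𝒜 Γ j := by
  rw [closure_eq2 D hQ Rl hP]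
  have h1 := cp_eq_convexHull (L := intL 𝒜 Γ j) (K := KK2 𝒜 Γ j 𝒬) KK2_zero
    fun t ht a ha => KK2_smul ht ha
  have h2 : convexHull ℝ (KK2 𝒜 Γ j 𝒬 ∩ {x | ∃ n : ℕ, 0 < n ∧ (n : ℝ) • x ∈ integral 𝒜 Γ j})
      = Cp (intL 𝒜 Γ j) (KK2 𝒜 Γ j 𝒬) := h1.symm
  rw [h2]
  rintro a ⟨S, hS, ha⟩
  refine ⟨?_, hull_of_cone (fun b hb => key_eff D hQ hF Rl (hS b hb).1 (hS b hb).2) ha⟩
  exact cone_ind (p := fun a => a ∈ KK2 𝒜 Γ j 𝒬) KK2_zero (fun _ _ h1 h2 => KK2_add h1 h2)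
    (fun _ _ ht h => KK2_smul ht h) (fun b hb => (hS b hb).2) ha

section Prod

variable {κ : Type*} [DecidableEq κ] [Fintype κ] {c : Fin ρ → κ}

/-- The effective cone of a factor is contained in the effective cone. -/
theorem effF_sub (i : κ) {b : Fin ρ → ℝ} (hb : b ∈ effF 𝒜 c i) : b ∈ EQ 𝒜 ⊤ := by
  have h : effF 𝒜 c i ⊆ EQ 𝒜 ⊤ := by
    refine hull_le ?_
    rintro b ⟨β, h1, _, h3⟩
    exact hull_mem ⟨β, h1, AddSubgroup.mem_top β, h3⟩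
  exact h hb

/-- The nef cone of a factor is contained in the nef cone. -/
theorem nefF_sub (i : κ) {b : Fin ρ → ℝ} (hb : b ∈ nefF 𝒜 u c i) :
    b ∈ KQ {β | SemiampleF 𝒜 u β} ⊤ := by
  refine closure_mono (hull_le ?_) hb
  rintro b ⟨β, h1, _, h3⟩
  exact hull_mem ⟨β, h1, AddSubgroup.mem_top β, h3⟩

/-- A class is effective if its parts are. -/
theorem eff_of_parts {b : Fin ρ → ℝ} (h : ∀ i, partR c i b ∈ effF 𝒜 c i) : b ∈ EQ 𝒜 ⊤ := by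
  rw [← sum_partR (c := c) b]
  refine Finset.sum_induction _ (fun b => b ∈ EQ 𝒜 ⊤) (fun _ _ h1 h2 => hull_add h1 h2) hull_zero
    fun i _ => effF_sub i (h i)

/-- The hull of the integral classes in the nef cone of a factor. -/
def plusNefF (𝒜 : Cl ρ → Submodule ℂ R) (u : Cl ρ) (c : Fin ρ → κ) (i : κ) : Set (Fin ρ → ℝ) :=
  coneHull {b | b ∈ nefF 𝒜 u c i ∧ ∃ β : Cl ρ, b = real β}

/-- Integral nef classes are effective, if this holds for the factors. -/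
theorem int_nef_eff (hprod : IsProduct 𝒜 c)
    (h : ∀ i, plusNefF 𝒜 u c i ⊆ effF 𝒜 c i) {β : Cl ρ}
    (hβ : rv β ∈ KQ {β | SemiampleF 𝒜 u β} ⊤) : rv β ∈ EQ 𝒜 ⊤ := by
  refine eff_of_parts (c := c) fun i => h i (hull_mem ⟨?_, part c i β, partR_rv c i β⟩)
  exact part_KQ (𝒬 := {β | SemiampleF 𝒜 u β}) (fun i β h => hprod.semi i h) i hβ

end Prod

end Pool.Agent.X324.CG
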