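import Pool.Agent.X324.CG.Fin

/-!
# The case where the cone of invariant classes of `F` is rational polyhedral
-/

set_option autoImplicit false
set_option linter.unusedSectionVars false

namespace Pool.Agent.X324.CG

open Finset Filter Topology
open Pool.Agent.W594.SYZ2 Pool.Agent.W594.SYZ2.TQ Pool.Agent.TH735.AQ
open Pool.Agent.X324.CF
open Pool.Agent.Y167 (cone cone_add cone_smul cone_le cone_mono cone_sum mem_cone_self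
  zero_mem_cone cone_image cone_ind cone_of_scaled mem_cone_of_sum Rel Pol Cp CData IsFace)
open Pool.Agent.Y167.CC (LinGrp Preserves IsFundDomain)

variable {V E R : Type*} [NormedAddCommGroup V] [NormedSpace ℂ V] [FiniteDimensional ℂ V]
  [NormedAddCommGroup E] [NormedSpace ℂ E] [FiniteDimensional ℂ E] [CommRing R] [IsDomain R]
  [Algebra ℂ R] {ρ : ℕ}
  {𝒜 : Cl ρ → Submodule ℂ R} [GradedAlgebra 𝒜] {Γ : Grp V R}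
  {u : Cl ρ} {j : E →ₗ[ℂ] V} {H₀ : V → V → ℂ} {𝒬 : Set (Cl ρ)} {d : Fin ρ → ℤ}

/-- An integral class in the real space spanned by the invariant classes is invariant. -/
theorem inv_of_Bs {β : Cl ρ} (h : rv β ∈ Bs 𝒜 Γ) : Inv 𝒜 Γ β := by
  intro γ hγ σ hσ
  have h1 : ext σ (rv β) = rv β := ext_inv (fun β' hβ' => hβ' γ hγ σ hσ) h
  rw [ext_rv] at h1
  funext k
  have h2 := congrFun h1 k
  rw [rv_apply, rv_apply] at h2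
  exact_mod_cast h2

/-- A cone spanned by integral vectors is closed. -/
theorem cone_isClosed {S : Finset (Fin ρ → ℝ)} (hS : ∀ s ∈ S, ∃ β : Cl ρ, s = rv β) :
    IsClosed (cone S) := by
  obtain ⟨Y, hY⟩ := cone_ineq S hS
  have h1 : cone S = ⋂ y ∈ Y, {x : Fin ρ → ℝ | 0 ≤ dot (rv y) x} := by
    ext x
    simp only [Set.mem_iInter, Set.mem_setOf_eq]
    exact hY x
  rw [h1]
  exact isClosed_biInter fun y _ => isClosed_le continuous_const (dot_continuous _)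

/-- The conditions on the cone of invariant classes. -/
theorem plusF_inv (D : Sys 𝒜 u 𝒬 (gal Γ) d) (hQ : IsQuotient 𝒜 u Γ)
    {S₀ : Finset (Fin ρ → ℝ)} (hS₀ : ∀ s ∈ S₀, (s ∈ KQ 𝒬 ⊤ ∧ s ∈ EQ 𝒜 ⊤) ∧ s ∈ Bs 𝒜 Γ ∧
      ∃ β, s = rv β)
    (hcov : ∀ b, b ∈ KQ 𝒬 ⊤ → b ∈ EQ 𝒜 ⊤ → b ∈ Bs 𝒜 Γ → b ∈ cone S₀) : PlusF 𝒜 Γ 𝒬 := by
  have hle : LG 𝒜 Γ ≤ (⊤ : AddSubgroup (Cl ρ)) := le_top
  have hBs : ∀ b, b ∈ KQ 𝒬 (LG 𝒜 Γ) → b ∈ Bs 𝒜 Γ := fun b hb => by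
    have h0 : b ∈ UL (LG 𝒜 Γ) := KQ_sub_UL hb
    exact h0
  have hsub : KQ 𝒬 (LG 𝒜 Γ) ⊆ cone S₀ := by
    refine closure_minimal (fun b hb => ?_) (cone_isClosed fun s hs => (hS₀ s hs).2.2)
    exact hcov b (KQ_le hle (KQ_of_HQ hb)) (EQ_le hle (D.HQ_sub_EQ hb)) (hBs b (KQ_of_HQ hb))
  refine ⟨fun b hb _ => ⟨S₀, fun s hs => ?_, hsub hb⟩, fun β hβ hb => ?_⟩
  · obtain ⟨⟨h1, -⟩, h2, β, rfl⟩ := hS₀ s hs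
    exact ⟨KQ_inter D hQ le_rfl h1 h2, β, inv_of_Bs h2, rfl⟩
  · refine cone_ind (p := fun b => b ∈ EQ 𝒜 (LG 𝒜 Γ)) hull_zero (fun _ _ h1 h2 => hull_add h1 h2)
      (fun _ _ ht h => hull_smul ht h) (fun s hs => ?_) (hsub hb)
    exact EQ_inter D hQ (hS₀ s hs).1.2 (hS₀ s hs).2.1

/-- The cone conjecture for `X`, if the cone of invariant classes of `F` is rational polyhedral; here
only automorphisms `(f, id)` are used. -/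
theorem main7 (D : Sys 𝒜 u 𝒬 (gal Γ) d) (hQ : IsQuotient 𝒜 u Γ)
    {S₀ : Finset (Fin ρ → ℝ)} (hS₀ : ∀ s ∈ S₀, (s ∈ KQ 𝒬 ⊤ ∧ s ∈ EQ 𝒜 ⊤) ∧ s ∈ Bs 𝒜 Γ ∧
      ∃ β, s = rv β)
    (hcov : ∀ b, b ∈ KQ 𝒬 ⊤ → b ∈ EQ 𝒜 ⊤ → b ∈ Bs 𝒜 Γ → b ∈ cone S₀)
    (Rl : Rel (base Γ) j H₀) {P : Set (N1 𝒜 Γ j)} (hP : Good2 𝒬 P)
    (𝒢 : LinGrp (N1 𝒜 Γ j)) (hint : Preserves 𝒢 (integral 𝒜 Γ j))
    (hcone : Preserves 𝒢 (closure (coneHull P) ∩ effCone 𝒜 Γ j))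
    (haut : ∀ f : V ≃ᵃ[ℂ] V, Normalizes Γ f → (∀ v, ∃ e, f v = v + j e) →
      ∀ g : N1 𝒜 Γ j ≃ₗ[ℝ] N1 𝒜 Γ j, IsPullback f g → g ∈ 𝒢) :
    (∃ S : Finset (N1 𝒜 Γ j), ↑S ⊆ integral 𝒜 Γ j ∧
      cone S ⊆ closure (coneHull P) ∩ effCone 𝒜 Γ j ∧
      IsFundDomain 𝒢 (closure (coneHull P) ∩ effCone 𝒜 Γ j) (cone S)) ∧
    closure (coneHull P) ∩ effCone 𝒜 Γ j = convexHull ℝ (closure (coneHull P) ∩
      {x | ∃ n : ℕ, 0 < n ∧ (n : ℝ) • x ∈ integral 𝒜 Γ j}) ∧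
    ∃ 𝓕 : Set (Set (N1 𝒜 Γ j)), 𝓕.Finite ∧
      (∀ F ∈ 𝓕, IsFace F (closure (coneHull P) ∩ effCone 𝒜 Γ j)) ∧
      ∀ F, IsFace F (closure (coneHull P) ∩ effCone 𝒜 Γ j) →
        ∃ g ∈ 𝒢, ∃ F' ∈ 𝓕, F = g '' F' := by
  classical
  have hPF := plusF_inv D hQ hS₀ hcov
  have hu0 : u ∈ LG 𝒜 Γ := hQ.inv
  have hle : LG 𝒜 Γ ≤ (⊤ : AddSubgroup (Cl ρ)) := le_top
  have hSF : ∀ s ∈ S₀, s ∈ KQ 𝒬 (LG 𝒜 Γ) ∧ ∃ β, Inv 𝒜 Γ β ∧ s = rv β := by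
    intro s hs
    obtain ⟨⟨h1, -⟩, h2, β, rfl⟩ := hS₀ s hs
    exact ⟨KQ_inter D hQ le_rfl h1 h2, β, inv_of_Bs h2, rfl⟩
  have hcovF : ∀ b, (∃ t : ℝ, 0 < t ∧ b - t • rv u ∈ KQ 𝒬 (LG 𝒜 Γ)) →
      ∃ φ ∈ ({1} : Set (R ≃ₐ[ℂ] R)), ∃ σ, Induces 𝒜 φ σ ∧ (∀ β, Inv 𝒜 Γ β → Inv 𝒜 Γ (σ β)) ∧
        (∀ β, Inv 𝒜 Γ β → Inv 𝒜 Γ (σ.symm β)) ∧ ext σ b ∈ cone S₀ := by
    rintro b ⟨t, ht, hb⟩
    have hbH : b ∈ HQ 𝒬 (LG 𝒜 Γ) := D.interior hu0 ht hb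
    have hbB : b ∈ Bs 𝒜 Γ := by
      have h0 : b ∈ UL (LG 𝒜 Γ) := KQ_sub_UL (KQ_of_HQ hbH)
      exact h0
    have hbH' : b ∈ HQ 𝒬 ⊤ := HQ_le hle hbH
    refine ⟨1, rfl, AddEquiv.refl _, ind_one, fun β hβ => hβ, fun β hβ => hβ, ?_⟩
    rw [ext_refl]
    exact hcov b (KQ_of_HQ hbH') (D.HQ_sub_EQ hbH') hbB
  obtain ⟨S, h1, h2, h3⟩ := core2 D hQ hPF Rl hP hSF hcovF (fun _ => True)
    (fun _ _ _ _ _ => trivial) 𝒢 hint hcone (fun f hf hf2 _ g hg => haut f hf hf2 g hg)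
    (fun φ hφ σ hσ g hg => by
      have hφ1 : φ = 1 := hφ
      subst hφ1
      refine haut (AffineEquiv.refl ℂ V) (fun γ => ?_) (fun v => ⟨0, ?_⟩) g fun x =>
        ⟨fun v w v' w' hv hw => ?_, ?_⟩
      · have h0 : ((AffineEquiv.refl ℂ V, (1 : R ≃ₐ[ℂ] R)) : Elt V R) = 1 := rfl
        rw [h0, one_mul, inv_one, mul_one]
      · rw [map_zero, add_zero]
        rfl
      · have h1 : j v' = j v := hv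
        have h2 : j w' = j w := hw
        rw [(hg x).1, Rl.inj h1, Rl.inj h2]
      · have h0 : σ = AddEquiv.refl _ := ind_unique D.gens hσ ind_one
        have h1 := (hg x).2
        rwa [h0, ext_refl] at h1)
  exact ⟨⟨S, h1, h2, h3⟩, plus2 D hQ hPF Rl hP, faces2 D hQ Rl hP 𝒢 hcone h2 h3⟩

end Pool.Agent.X324.CG
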