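import Pool.Agent.X324.CG.Desc2

/-!
# Products
-/

set_option autoImplicit false
set_option linter.unusedSectionVars false

namespace Pool.Agent.X324.CG

open Finset Filter Topology
open Pool.Agent.X324.CF
open Pool.Agent.Y167 (cone cone_add cone_smul cone_le cone_mono cone_sum mem_cone_self
  zero_mem_cone cone_image cone_ind cone_of_scaled mem_cone_of_sum Cp CData)

section Part

variable {ρ : ℕ} {κ : Type*} [DecidableEq κ] (c : Fin ρ → κ) (i : κ)

theorem part_apply (β : Cl ρ) (k : Fin ρ) : part c i β k = if c k = i then β k else 0 := rfl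

/-- The component, as a homomorphism. -/
def partH : Cl ρ →+ Cl ρ where
  toFun := part c i
  map_zero' := by
    funext k
    simp [part_apply]
  map_add' β β' := by
    funext k
    simp only [part_apply, Pi.add_apply]
    split_ifs
    · rfl
    · simp

theorem partH_apply (β : Cl ρ) : partH c i β = part c i β := rfl

theorem part_nsmul (m : ℕ) (β : Cl ρ) : part c i (m • β) = m • part c i β := by
  rw [← partH_apply, ← partH_apply, map_nsmul]

theorem sum_part [Fintype κ] (β : Cl ρ) : ∑ i, part c i β = β := by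
  funext k
  rw [Finset.sum_apply, Finset.sum_eq_single (c k)]
  · rw [part_apply, if_pos rfl]
  · intro i _ hi
    rw [part_apply, if_neg (Ne.symm hi)]
  · intro h
    exact absurd (Finset.mem_univ _) h

/-- The component of a real class. -/
noncomputable def partR : (Fin ρ → ℝ) →ₗ[ℝ] (Fin ρ → ℝ) where
  toFun b := fun k => if c k = i then b k else 0
  map_add' b b' := by
    funext k
    simp only [Pi.add_apply]
    split_ifs
    · rfl
    · simp
  map_smul' t b := by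
    funext k
    simp only [Pi.smul_apply, smul_eq_mul, RingHom.id_apply]
    split_ifs
    · rfl
    · simp

theorem partR_apply (b : Fin ρ → ℝ) (k : Fin ρ) : partR c i b k = if c k = i then b k else 0 := rfl

theorem partR_rv (β : Cl ρ) : partR c i (rv β) = rv (part c i β) := by
  funext k
  rw [partR_apply, rv_apply, rv_apply, part_apply]
  split_ifs
  · rfl
  · simp

theorem sum_partR [Fintype κ] (b : Fin ρ → ℝ) : ∑ i, partR c i b = b := by
  funext k
  rw [Finset.sum_apply, Finset.sum_eq_single (c k)]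
  · rw [partR_apply, if_pos rfl]
  · intro i _ hi
    rw [partR_apply, if_neg (Ne.symm hi)]
  · intro h
    exact absurd (Finset.mem_univ _) h

end Part

/-- The classes of the factor `F i`. -/
def BL {ρ : ℕ} {κ : Type*} (c : Fin ρ → κ) (i : κ) : AddSubgroup (Cl ρ) where
  carrier := {β | ∀ k, c k ≠ i → β k = 0}
  zero_mem' := fun _ _ => rfl
  add_mem' := fun {a b} ha hb k hk => by rw [Pi.add_apply, ha k hk, hb k hk, add_zero]
  neg_mem' := fun {a} ha k hk => by rw [Pi.neg_apply, ha k hk, neg_zero]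

section Cov

variable {ρ : ℕ} {κ : Type*} [DecidableEq κ] [Fintype κ] {c : Fin ρ → κ}
  {R : Type*} [CommRing R] [IsDomain R] [Algebra ℂ R]
  {𝒜 : Cl ρ → Submodule ℂ R} [GradedAlgebra 𝒜]
  {u : Cl ρ} {𝒬 : Set (Cl ρ)} {𝒮 : Subgroup (R ≃ₐ[ℂ] R)} {d : Fin ρ → ℤ}

theorem part_BL (i : κ) (β : Cl ρ) : part c i β ∈ BL c i := fun k hk => by
  rw [part_apply, if_neg hk]

theorem UL_BL {i : κ} {b : Fin ρ → ℝ} (h : b ∈ UL (BL c i)) (k : Fin ρ) (hk : c k ≠ i) :
    b k = 0 := by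
  induction h using Submodule.span_induction with
  | mem b hb =>
    obtain ⟨β, hβ, rfl⟩ := hb
    rw [rv_apply, hβ k hk, Int.cast_zero]
  | zero => rfl
  | add x y _ _ hx hy => rw [Pi.add_apply, hx, hy, add_zero]
  | smul t x _ hx => rw [Pi.smul_apply, hx, smul_zero]

theorem part_KQ (hpQ : ∀ i, ∀ β ∈ 𝒬, part c i β ∈ 𝒬) (i : κ) {b : Fin ρ → ℝ} (hb : b ∈ KQ 𝒬 ⊤) :
    partR c i b ∈ KQ 𝒬 (BL c i) := by
  refine map_mem_closure (LinearMap.continuous_of_finiteDimensional (partR c i)) hb fun b hb => ?_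
  refine hull_ind (p := fun b => partR c i b ∈ HQ 𝒬 (BL c i)) ?_ ?_ ?_ ?_ hb
  · rw [map_zero]; exact hull_zero
  · intro x y h1 h2
    rw [map_add]; exact hull_add h1 h2
  · intro t x ht h1
    rw [map_smul]; exact hull_smul ht h1
  · rintro _ ⟨β, h1, -, rfl⟩
    rw [partR_rv]
    exact HQ_mem (hpQ i β h1) (part_BL i β)

theorem part_EQ (hpE : ∀ i β, (∃ r ∈ 𝒜 β, r ≠ 0) → ∃ r ∈ 𝒜 (part c i β), r ≠ 0) (i : κ)
    {b : Fin ρ → ℝ} (hb : b ∈ EQ 𝒜 ⊤) : partR c i b ∈ EQ 𝒜 (BL c i) := by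
  refine hull_ind (p := fun b => partR c i b ∈ EQ 𝒜 (BL c i)) ?_ ?_ ?_ ?_ hb
  · rw [map_zero]; exact hull_zero
  · intro x y h1 h2
    rw [map_add]; exact hull_add h1 h2
  · intro t x ht h1
    rw [map_smul]; exact hull_smul ht h1
  · rintro _ ⟨β, h1, -, rfl⟩
    rw [partR_rv]
    exact hull_mem ⟨_, hpE i β h1, part_BL i β, rfl⟩

/-- Automorphisms of the factor `F i` act trivially on the classes of the other factors. -/
theorem fix_class
    (gens : ∀ H : AddSubgroup (Cl ρ), (∀ β, (∃ r ∈ 𝒜 β, r ≠ 0) → β ∈ H) → H = ⊤)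
    (hpE : ∀ i β, (∃ r ∈ 𝒜 β, r ≠ 0) → ∃ r ∈ 𝒜 (part c i β), r ≠ 0) {i : κ} {φ : R ≃ₐ[ℂ] R}
    (hφ : OnFactor 𝒜 c i φ) {σ : Cl ρ ≃+ Cl ρ} (hσ : Induces 𝒜 φ σ) {β : Cl ρ}
    (hβ : ∀ k, c k = i → β k = 0) : σ β = β := by
  classical
  have hpt : ∀ j, j ≠ i → ∀ β, (∃ r ∈ 𝒜 β, r ≠ 0) → σ (part c j β) = part c j β := by
    intro j hj β hβ
    obtain ⟨r, hr, hr0⟩ := hpE j β hβ
    have h1 := hσ _ r hr
    rw [hφ (part c j β) (fun k hk => by
      rw [part_apply, if_neg]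
      rw [hk]
      exact Ne.symm hj) r hr] at h1
    by_contra hne
    have h4 := DirectSum.decompose_of_mem_same 𝒜 hr
    rw [DirectSum.decompose_of_mem_ne 𝒜 h1 hne] at h4
    exact hr0 h4.symm
  let H : AddSubgroup (Cl ρ) := AddMonoidHom.eqLocus
    ((σ : Cl ρ →+ Cl ρ).comp (AddMonoidHom.id _ - partH c i)) (AddMonoidHom.id _ - partH c i)
  have hH : H = ⊤ := by
    refine gens H fun β hβ => ?_
    change σ (β - part c i β) = β - part c i β
    have h1 : β - part c i β = ∑ j ∈ Finset.univ.erase i, part c j β := by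
      rw [sub_eq_iff_eq_add, Finset.sum_erase_add _ _ (Finset.mem_univ i), sum_part]
    rw [h1, map_sum]
    exact Finset.sum_congr rfl fun j hj => hpt j (Finset.ne_of_mem_erase hj) β hβ
  have h1 : β ∈ H := by rw [hH]; trivial
  have h2 : σ (β - part c i β) = β - part c i β := h1
  have h3 : part c i β = 0 := by
    funext k
    rw [part_apply]
    split_ifs with hk
    · exact hβ k hk
    · rfl
  rwa [h3, sub_zero] at h2

theorem fix_real {i : κ} {σ : Cl ρ ≃+ Cl ρ} (h : ∀ β : Cl ρ, (∀ k, c k = i → β k = 0) → σ β = β)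
    {b : Fin ρ → ℝ} (hb : ∀ k, c k = i → b k = 0) : ext σ b = b := by
  classical
  have h1 : ext σ b = ∑ k, b k • rv (Pi.single k 1 : Cl ρ) := by
    change ∑ k, b k • rv (σ (Pi.single k 1)) = _
    refine Finset.sum_congr rfl fun k _ => ?_
    by_cases hk : c k = i
    · rw [hb k hk, zero_smul, zero_smul]
    · rw [h]
      intro l hl
      rw [Pi.single_eq_of_ne]
      rintro rfl
      exact hk hl
  rw [h1]
  funext l
  rw [Finset.sum_apply, Finset.sum_eq_single l]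
  · simp [rv]
  · intro b _ hb
    simp [rv, Pi.single_eq_of_ne (Ne.symm hb)]
  · intro h
    exact absurd (Finset.mem_univ _) h

/-- Coverings of the cones of the factors give a covering of the cone of the product. -/
theorem cover_prod (D : Sys 𝒜 u 𝒬 𝒮 d) (hpQ : ∀ i, ∀ β ∈ 𝒬, part c i β ∈ 𝒬)
    (hpE : ∀ i β, (∃ r ∈ 𝒜 β, r ≠ 0) → ∃ r ∈ 𝒜 (part c i β), r ≠ 0)
    (hcov : ∀ i : κ, ∃ S : Finset (Fin ρ → ℝ),
      (∀ s ∈ S, (s ∈ KQ 𝒬 (BL c i) ∧ s ∈ EQ 𝒜 (BL c i)) ∧ ∃ β, s = rv β) ∧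
      ∀ b, b ∈ KQ 𝒬 (BL c i) → b ∈ EQ 𝒜 (BL c i) →
        ∃ φ ∈ 𝒮, OnFactor 𝒜 c i φ ∧ ∃ σ, Induces 𝒜 φ σ ∧ ext σ b ∈ cone S) :
    ∃ S : Finset (Fin ρ → ℝ), (∀ s ∈ S, (s ∈ KQ 𝒬 ⊤ ∧ s ∈ EQ 𝒜 ⊤) ∧ ∃ β, s = rv β) ∧
      ∀ b, b ∈ KQ 𝒬 ⊤ → b ∈ EQ 𝒜 ⊤ → ∃ φ ∈ 𝒮, ∃ σ, Induces 𝒜 φ σ ∧ ext σ b ∈ cone S := by
  classical
  choose S hS hcov using hcov
  refine ⟨Finset.univ.biUnion S, fun s hs => ?_, fun b hb hbE => ?_⟩
  · obtain ⟨i, -, hi⟩ := Finset.mem_biUnion.1 hs
    have hle : BL c i ≤ (⊤ : AddSubgroup (Cl ρ)) := le_top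
    obtain ⟨⟨h1, h2⟩, h3⟩ := hS i s hi
    exact ⟨⟨KQ_le hle h1, EQ_le hle h2⟩, h3⟩
  · have hvan : ∀ i, ∀ x ∈ cone (S i), ∀ k, c k ≠ i → x k = 0 := by
      intro i x hx k hk
      have h1 : x ∈ KQ 𝒬 (BL c i) := cone_KQ (fun s hs => (hS i s hs).1.1) hx
      have h2 : x ∈ UL (BL c i) := KQ_sub_UL h1
      exact UL_BL h2 k hk
    have key : ∀ s : Finset κ, ∃ φ ∈ 𝒮, ∃ σ, Induces 𝒜 φ σ ∧
        (∀ i ∈ s, ext σ (partR c i b) ∈ cone (S i)) ∧
        ∀ b' : Fin ρ → ℝ, (∀ k, c k ∈ s → b' k = 0) → ext σ b' = b' := by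
      intro s
      induction s using Finset.induction_on with
      | empty =>
        exact ⟨1, 𝒮.one_mem, _, ind_one, fun i hi => absurd hi (Finset.notMem_empty i),
          fun b' _ => ext_refl b'⟩
      | insert i s hi ih =>
        obtain ⟨φ, hφ, σ, hσ, h1, h2⟩ := ih
        obtain ⟨ψ, hψ, hψi, τ, hτ, h3⟩ := hcov i (partR c i b) (part_KQ hpQ i hb) (part_EQ hpE i hbE)
        have h4 : ∀ β : Cl ρ, (∀ k, c k = i → β k = 0) → τ β = β := fun β hβ =>
          fix_class D.gens hpE hψi hτ hβ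
        refine ⟨ψ * φ, 𝒮.mul_mem hψ hφ, _, ind_mul hτ hσ, fun j hj => ?_, fun b' hb' => ?_⟩
        · rw [ext_trans]
          rcases Finset.mem_insert.1 hj with rfl | hj
          · rw [h2]
            · exact h3
            · intro k hk
              rw [partR_apply, if_neg]
              rintro rfl
              exact hi hk
          · have h5 := h1 j hj
            rwa [fix_real h4]
            intro k hk
            refine hvan j _ h5 k ?_
            rw [hk]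
            rintro rfl
            exact hi hj
        · rw [ext_trans, h2 b' fun k hk => hb' k (Finset.mem_insert_of_mem hk)]
          exact fix_real h4 fun k hk => hb' k (by rw [hk]; exact Finset.mem_insert_self _ _)
    obtain ⟨φ, hφ, σ, hσ, h1, -⟩ := key Finset.univ
    refine ⟨φ, hφ, σ, hσ, ?_⟩
    rw [← sum_partR c b, map_sum]
    exact cone_sum _ _ fun i _ => cone_mono (Finset.subset_biUnion_of_mem S (Finset.mem_univ i))
      (h1 i (Finset.mem_univ i))

/-! ### Products of varieties -/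

theorem IsProduct.mem_of (hprod : IsProduct 𝒜 c) {β : Cl ρ} {r : R} (hr : r ∈ 𝒜 β)
    (N : Submodule ℂ R) (h : ∀ f : κ → R, (∀ i, f i ∈ 𝒜 (part c i β)) → ∏ i, f i ∈ N) : r ∈ N := by
  have h1 := hprod β r hr
  refine (Submodule.span_le.2 ?_) h1
  rintro _ ⟨f, hf, rfl⟩
  exact h f hf

theorem IsProduct.eff (hprod : IsProduct 𝒜 c) (i : κ) (β : Cl ρ) (h : ∃ r ∈ 𝒜 β, r ≠ 0) :
    ∃ r ∈ 𝒜 (part c i β), r ≠ 0 := by
  obtain ⟨r, hr, hr0⟩ := h
  by_contra hcon
  push Not at hcon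
  apply hr0
  have h1 := hprod.mem_of hr ⊥ fun f hf => by
    rw [Submodule.mem_bot]
    exact Finset.prod_eq_zero (Finset.mem_univ i) (hcon _ (hf i))
  rwa [Submodule.mem_bot] at h1

theorem IsProduct.semi (hprod : IsProduct 𝒜 c) (i : κ) {β : Cl ρ} (h : SemiampleF 𝒜 u β) :
    SemiampleF 𝒜 u (part c i β) := by
  obtain ⟨m, hm, h1⟩ := h
  refine ⟨m, hm, fun p hp => ?_⟩
  obtain ⟨r, hr, hr0⟩ := h1 p hp
  by_contra hcon
  push Not at hcon
  apply hr0
  have h2 := hprod.mem_of hr (LinearMap.ker p.toLinearMap) fun f hf => by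
    rw [LinearMap.mem_ker, AlgHom.toLinearMap_apply, map_prod]
    refine Finset.prod_eq_zero (Finset.mem_univ i) (hcon _ ?_)
    have h3 := hf i
    rwa [part_nsmul] at h3
  exact h2

theorem IsProduct.mov (hprod : IsProduct 𝒜 c) (i : κ) {β : Cl ρ} (h : MovableF 𝒜 β) :
    MovableF 𝒜 (part c i β) := by
  intro γ E hE hdiv
  refine h γ E hE fun r hr => ?_
  let N : Submodule ℂ R :=
    { carrier := {r | E ∣ r}
      add_mem' := fun ha hb => dvd_add ha hb
      zero_mem' := dvd_zero _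
      smul_mem' := fun c r hr => by
        change E ∣ c • r
        rw [Algebra.smul_def]
        exact Dvd.dvd.mul_left hr _ }
  exact hprod.mem_of hr N fun f hf =>
    (hdiv _ (hf i)).trans (Finset.dvd_prod_of_mem f (Finset.mem_univ i))

end Cov

end Pool.Agent.X324.CG
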