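import Pool.Agent.X324.CG.Act

/-!
# The cone of classes of `F`
-/

set_option autoImplicit false
set_option linter.unusedSectionVars false

namespace Pool.Agent.X324.CG

open Finset Filter Topology
open Pool.Agent.X324.CF
open Pool.Agent.Y167 (cone cone_add cone_smul cone_le cone_mono cone_sum mem_cone_self
  zero_mem_cone cone_image cone_ind cone_of_scaled mem_cone_of_sum Cp CData)

variable {ρ : ℕ} {R : Type*} [CommRing R] [Algebra ℂ R] {𝒜 : Cl ρ → Submodule ℂ R} {u : Cl ρ}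

/-- A set `𝒬` of classes (the semiample classes, or the movable classes) and a group `𝒮` of
automorphisms of `R`. -/
structure Sys (𝒜 : Cl ρ → Submodule ℂ R) (u : Cl ρ) (𝒬 : Set (Cl ρ))
    (𝒮 : Subgroup (R ≃ₐ[ℂ] R)) (d : Fin ρ → ℤ) : Prop where
  gens : ∀ H : AddSubgroup (Cl ρ), (∀ β, (∃ r ∈ 𝒜 β, r ≠ 0) → β ∈ H) → H = ⊤
  zero : (0 : Cl ρ) ∈ 𝒬
  add : ∀ β ∈ 𝒬, ∀ β' ∈ 𝒬, β + β' ∈ 𝒬
  amp : ∀ β : Cl ρ, ∃ m k : ℕ, 0 < k ∧ k • (β + m • u) ∈ 𝒬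
  bound : ∀ β, (∃ r ∈ 𝒜 β, r ≠ 0) → ∀ k, |β k| ≤ ∑ i, d i * β i
  eff : ∀ β ∈ 𝒬, ∃ k : ℕ, 0 < k ∧ ∃ r ∈ 𝒜 (k • β), r ≠ 0
  ind : ∀ φ ∈ 𝒮, ∃ σ, Induces 𝒜 φ σ
  pres : ∀ φ ∈ 𝒮, ∀ σ, Induces 𝒜 φ σ → ∀ β ∈ 𝒬, σ β ∈ 𝒬

/-- The cone spanned by the classes in `𝒬 ∩ Λ`. -/
def HQ (𝒬 : Set (Cl ρ)) (Λ : AddSubgroup (Cl ρ)) : Set (Fin ρ → ℝ) :=
  coneHull {b | ∃ β, β ∈ 𝒬 ∧ β ∈ Λ ∧ b = rv β}

/-- Its closure. -/
def KQ (𝒬 : Set (Cl ρ)) (Λ : AddSubgroup (Cl ρ)) : Set (Fin ρ → ℝ) := closure (HQ 𝒬 Λ)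

/-- The cone spanned by the effective classes in `Λ`. -/
def EQ (𝒜 : Cl ρ → Submodule ℂ R) (Λ : AddSubgroup (Cl ρ)) : Set (Fin ρ → ℝ) :=
  coneHull {b | ∃ β, (∃ r ∈ 𝒜 β, r ≠ 0) ∧ β ∈ Λ ∧ b = rv β}

/-- The real space spanned by `Λ`. -/
def UL (Λ : AddSubgroup (Cl ρ)) : Submodule ℝ (Fin ρ → ℝ) :=
  Submodule.span ℝ {b | ∃ β, β ∈ Λ ∧ b = rv β}

variable {𝒬 : Set (Cl ρ)} {𝒮 : Subgroup (R ≃ₐ[ℂ] R)} {d : Fin ρ → ℤ} {Λ : AddSubgroup (Cl ρ)}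

theorem hull_div {P : Set (Fin ρ → ℝ)} {x : Fin ρ → ℝ} {k : ℕ} (hk : 0 < k)
    (h : (k : ℝ) • x ∈ coneHull P) : x ∈ coneHull P := by
  have hkr : (0 : ℝ) < k := by exact_mod_cast hk
  have h1 := hull_smul (inv_nonneg.2 hkr.le) h
  rwa [smul_smul, inv_mul_cancel₀ hkr.ne', one_smul] at h1

theorem HQ_mem {β : Cl ρ} (h : β ∈ 𝒬) (h' : β ∈ Λ) : rv β ∈ HQ 𝒬 Λ := hull_mem ⟨β, h, h', rfl⟩

theorem KQ_of_HQ {b : Fin ρ → ℝ} (h : b ∈ HQ 𝒬 Λ) : b ∈ KQ 𝒬 Λ := subset_closure h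

theorem HQ_le {Λ' : AddSubgroup (Cl ρ)} (h : Λ ≤ Λ') : HQ 𝒬 Λ ⊆ HQ 𝒬 Λ' :=
  hull_le fun _ ⟨β, h1, h2, h3⟩ => hull_mem ⟨β, h1, h h2, h3⟩

theorem KQ_le {Λ' : AddSubgroup (Cl ρ)} (h : Λ ≤ Λ') : KQ 𝒬 Λ ⊆ KQ 𝒬 Λ' := closure_mono (HQ_le h)

theorem EQ_le {Λ' : AddSubgroup (Cl ρ)} (h : Λ ≤ Λ') : EQ 𝒜 Λ ⊆ EQ 𝒜 Λ' :=
  hull_le fun _ ⟨β, h1, h2, h3⟩ => hull_mem ⟨β, h1, h h2, h3⟩

theorem KQ_sub_UL : KQ 𝒬 Λ ⊆ UL Λ := by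
  refine closure_minimal (fun x hx => ?_) (UL Λ).closed_of_finiteDimensional
  refine hull_ind (p := fun x => x ∈ UL Λ) (UL Λ).zero_mem (fun _ _ h1 h2 => (UL Λ).add_mem h1 h2)
    (fun _ _ _ h => (UL Λ).smul_mem _ h) ?_ hx
  rintro _ ⟨β, -, h, rfl⟩
  exact Submodule.subset_span ⟨β, h, rfl⟩

namespace Sys

theorem hull_u (D : Sys 𝒜 u 𝒬 𝒮 d) (hu : u ∈ Λ) : rv u ∈ HQ 𝒬 Λ := by
  obtain ⟨m, k, hk, h⟩ := D.amp u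
  have h1 : k • (u + m • u) = (k * (1 + m)) • u := by
    rw [mul_smul, add_smul, one_smul]
  rw [h1] at h
  refine hull_div (k := k * (1 + m)) (by positivity) ?_
  rw [← rv_nsmul]
  exact HQ_mem h (Λ.nsmul_mem hu _)

/-- The class `u` is an interior point. -/
theorem absorb (D : Sys 𝒜 u 𝒬 𝒮 d) (hu : u ∈ Λ) : ∀ x ∈ UL Λ, ∃ C : ℝ, 0 < C ∧
    C • rv u - x ∈ HQ 𝒬 Λ := by
  have key : ∀ x ∈ UL Λ, (∃ C : ℝ, 0 < C ∧ C • rv u - x ∈ HQ 𝒬 Λ) ∧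
      ∃ C : ℝ, 0 < C ∧ C • rv u + x ∈ HQ 𝒬 Λ := by
    have hint : ∀ β ∈ Λ, ∃ C : ℝ, 0 < C ∧ C • rv u + rv β ∈ HQ 𝒬 Λ := by
      intro β hβ
      obtain ⟨m, k, hk, h⟩ := D.amp β
      refine ⟨m + 1, by positivity, ?_⟩
      have h1 : rv (k • (β + m • u)) = (k : ℝ) • (rv β + (m : ℝ) • rv u) := by
        rw [rv_nsmul, rv_add, rv_nsmul]
      have h2 : rv β + (m : ℝ) • rv u ∈ HQ 𝒬 Λ := by
        refine hull_div hk ?_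
        rw [← h1]
        exact HQ_mem h (Λ.nsmul_mem (Λ.add_mem hβ (Λ.nsmul_mem hu _)) _)
      have h3 := hull_add h2 (D.hull_u hu)
      have h4 : rv β + (m : ℝ) • rv u + rv u = ((m : ℝ) + 1) • rv u + rv β := by module
      rwa [h4] at h3
    intro x hx
    induction hx using Submodule.span_induction with
    | mem x hx =>
      obtain ⟨β, hβ, rfl⟩ := hx
      refine ⟨?_, hint β hβ⟩
      obtain ⟨C, hC, h⟩ := hint (-β) (Λ.neg_mem hβ)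
      rw [rv_neg, ← sub_eq_add_neg] at h
      exact ⟨C, hC, h⟩
    | zero =>
      refine ⟨⟨1, one_pos, ?_⟩, ⟨1, one_pos, ?_⟩⟩
      · rw [one_smul, sub_zero]; exact D.hull_u hu
      · rw [one_smul, add_zero]; exact D.hull_u hu
    | add x y _ _ hx hy =>
      obtain ⟨⟨C1, hC1, h1⟩, C2, hC2, h2⟩ := hx
      obtain ⟨⟨C3, hC3, h3⟩, C4, hC4, h4⟩ := hy
      refine ⟨⟨C1 + C3, by positivity, ?_⟩, ⟨C2 + C4, by positivity, ?_⟩⟩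
      · have h5 := hull_add h1 h3
        have h6 : C1 • rv u - x + (C3 • rv u - y) = (C1 + C3) • rv u - (x + y) := by module
        rwa [h6] at h5
      · have h5 := hull_add h2 h4
        have h6 : C2 • rv u + x + (C4 • rv u + y) = (C2 + C4) • rv u + (x + y) := by module
        rwa [h6] at h5
    | smul c x _ hx =>
      obtain ⟨⟨C1, hC1, h1⟩, C2, hC2, h2⟩ := hx
      have hu1 := D.hull_u hu
      rcases le_total 0 c with hc | hc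
      · refine ⟨⟨c * C1 + 1, by positivity, ?_⟩, ⟨c * C2 + 1, by positivity, ?_⟩⟩
        · have h5 := hull_add (hull_smul hc h1) hu1
          have h6 : c • (C1 • rv u - x) + rv u = (c * C1 + 1) • rv u - c • x := by module
          rwa [h6] at h5
        · have h5 := hull_add (hull_smul hc h2) hu1
          have h6 : c • (C2 • rv u + x) + rv u = (c * C2 + 1) • rv u + c • x := by module
          rwa [h6] at h5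
      · have hc' := neg_nonneg.2 hc
        refine ⟨⟨-c * C2 + 1, by positivity, ?_⟩, ⟨-c * C1 + 1, by positivity, ?_⟩⟩
        · have h5 := hull_add (hull_smul hc' h2) hu1
          have h6 : (-c) • (C2 • rv u + x) + rv u = (-c * C2 + 1) • rv u - c • x := by module
          rwa [h6] at h5
        · have h5 := hull_add (hull_smul hc' h1) hu1
          have h6 : (-c) • (C1 • rv u - x) + rv u = (-c * C1 + 1) • rv u + c • x := by module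
          rwa [h6] at h5
  exact fun x hx => (key x hx).1

theorem interior (D : Sys 𝒜 u 𝒬 𝒮 d) (hu : u ∈ Λ) {b : Fin ρ → ℝ} {t : ℝ} (ht : 0 < t)
    (h : b - t • rv u ∈ KQ 𝒬 Λ) : b ∈ HQ 𝒬 Λ := by
  refine hull_of_closure (UL Λ) ?_ ht (D.absorb hu) h
  rintro _ ⟨β, -, h, rfl⟩
  exact Submodule.subset_span ⟨β, h, rfl⟩

theorem HQ_sub_EQ (D : Sys 𝒜 u 𝒬 𝒮 d) : HQ 𝒬 Λ ⊆ EQ 𝒜 Λ := by
  refine hull_le ?_
  rintro _ ⟨β, h1, h2, rfl⟩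
  obtain ⟨k, hk, h3⟩ := D.eff β h1
  refine hull_div hk ?_
  rw [← rv_nsmul]
  exact hull_mem ⟨_, h3, Λ.nsmul_mem h2 _, rfl⟩

theorem bound_EQ (D : Sys 𝒜 u 𝒬 𝒮 d) {b : Fin ρ → ℝ} (h : b ∈ EQ 𝒜 Λ) (k : Fin ρ) :
    |b k| ≤ dot (rv d) b := by
  refine hull_ind (p := fun b => |b k| ≤ dot (rv d) b) ?_ ?_ ?_ ?_ h
  · simp
  · intro x y h1 h2
    rw [map_add]
    exact (abs_add_le _ _).trans (add_le_add h1 h2)
  · intro t x ht h1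
    rw [map_smul, smul_eq_mul, Pi.smul_apply, smul_eq_mul, abs_mul, abs_of_nonneg ht]
    exact mul_le_mul_of_nonneg_left h1 ht
  · rintro _ ⟨β, h1, -, rfl⟩
    have h2 := D.bound β h1 k
    rw [dot_int]
    have h3 : |rv β k| = ((|β k| : ℤ) : ℝ) := by
      rw [rv_apply, Int.cast_abs]
    rw [h3]
    exact_mod_cast h2

theorem bound_KQ (D : Sys 𝒜 u 𝒬 𝒮 d) {b : Fin ρ → ℝ} (h : b ∈ KQ 𝒬 Λ) (k : Fin ρ) :
    |b k| ≤ dot (rv d) b := by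
  have h1 : IsClosed {b : Fin ρ → ℝ | |b k| ≤ dot (rv d) b} :=
    isClosed_le (continuous_apply k).abs (dot_continuous _)
  exact (closure_minimal (fun b hb => D.bound_EQ (D.HQ_sub_EQ hb) k) h1) h

/-- The data for the cone of classes. -/
theorem cdata (D : Sys 𝒜 u 𝒬 𝒮 d) (hu : u ∈ Λ) {W : Type*} [AddCommGroup W] [Module ℝ W]
    [FiniteDimensional ℝ W] (emb : W →ₗ[ℝ] (Fin ρ → ℝ)) (hemb : Function.Injective emb)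
    (hr : ∀ x, emb x ∈ UL Λ) {L : AddSubgroup W} (hL : ∀ x ∈ L, ∃ β : Cl ρ, emb x = rv β)
    (hspan : Submodule.span ℝ (L : Set W) = ⊤) {y₀ : W} (yL : y₀ ∈ L) (hy : emb y₀ = rv u) :
    ∃ Y : Finset W, CData L {x | emb x ∈ KQ 𝒬 Λ} (dot (rv d) ∘ₗ emb) y₀ Y := by
  refine cdata_gen emb hemb hL hspan (fun x hx y hy => ?_) (fun t ht x hx => ?_) d
    (fun x hx k => D.bound_KQ hx k) yL ?_ fun x => ?_
  · change emb (x + y) ∈ KQ 𝒬 Λ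
    rw [map_add]
    exact cl_add hx hy
  · change emb (t • x) ∈ KQ 𝒬 Λ
    rw [map_smul]
    exact cl_smul ht hx
  · change emb y₀ ∈ KQ 𝒬 Λ
    rw [hy]
    exact KQ_of_HQ (D.hull_u hu)
  · obtain ⟨C, hC, h1⟩ := D.absorb hu _ (hr x)
    refine ⟨C, hC, ?_⟩
    change emb (C • y₀ - x) ∈ KQ 𝒬 Λ
    rw [map_sub, map_smul, hy]
    exact KQ_of_HQ h1

/-- Automorphisms preserve the cones. -/
theorem map_HQ (D : Sys 𝒜 u 𝒬 𝒮 d) {φ : R ≃ₐ[ℂ] R} (hφ : φ ∈ 𝒮) {σ : Cl ρ ≃+ Cl ρ}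
    (hσ : Induces 𝒜 φ σ) (hΛ : ∀ β ∈ Λ, σ β ∈ Λ) {b : Fin ρ → ℝ} (hb : b ∈ HQ 𝒬 Λ) :
    ext σ b ∈ HQ 𝒬 Λ := by
  refine hull_ind (p := fun b => ext σ b ∈ HQ 𝒬 Λ) ?_ ?_ ?_ ?_ hb
  · rw [map_zero]; exact hull_zero
  · intro x y h1 h2
    rw [map_add]; exact hull_add h1 h2
  · intro t x ht h1
    rw [map_smul]; exact hull_smul ht h1
  · rintro _ ⟨β, h1, h2, rfl⟩
    rw [ext_rv]
    exact HQ_mem (D.pres φ hφ σ hσ β h1) (hΛ β h2)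

theorem map_KQ (D : Sys 𝒜 u 𝒬 𝒮 d) {φ : R ≃ₐ[ℂ] R} (hφ : φ ∈ 𝒮) {σ : Cl ρ ≃+ Cl ρ}
    (hσ : Induces 𝒜 φ σ) (hΛ : ∀ β ∈ Λ, σ β ∈ Λ) {b : Fin ρ → ℝ} (hb : b ∈ KQ 𝒬 Λ) :
    ext σ b ∈ KQ 𝒬 Λ :=
  map_mem_closure (ext_cont σ) hb fun _ h => D.map_HQ hφ hσ hΛ h

end Sys

theorem map_EQ {φ : R ≃ₐ[ℂ] R} {σ : Cl ρ ≃+ Cl ρ}
    (hσ : Induces 𝒜 φ σ) (hΛ : ∀ β ∈ Λ, σ β ∈ Λ) {b : Fin ρ → ℝ} (hb : b ∈ EQ 𝒜 Λ) :
    ext σ b ∈ EQ 𝒜 Λ := by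
  refine hull_ind (p := fun b => ext σ b ∈ EQ 𝒜 Λ) ?_ ?_ ?_ ?_ hb
  · rw [map_zero]; exact hull_zero
  · intro x y h1 h2
    rw [map_add]; exact hull_add h1 h2
  · intro t x ht h1
    rw [map_smul]; exact hull_smul ht h1
  · rintro _ ⟨β, ⟨r, hr, hr0⟩, h2, rfl⟩
    rw [ext_rv]
    exact hull_mem ⟨_, ⟨φ r, hσ β r hr, fun h => hr0 ((map_eq_zero_iff φ φ.injective).1 h)⟩,
      hΛ β h2, rfl⟩

end Pool.Agent.X324.CG
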